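import Mathlib

/-!
Module AlgA (S-M, Mathlib only). If `y, w 0` are algebraically independent then one of the `w j` with `j ≥ 1`,
multiplied by a power of `y`, is transcendental over `ℂ(y)`.

Proof. Let `k = ℂ(y)`. Suppose all `w j * y^(2j-1)`, `1 ≤ j ≤ n = P.natDegree`, are algebraic over `k`; then so
are the `w j` (`y ≠ 0`, `y ∈ k`), and by `hw` and `P.coeff 0 = P.eval 0 ≠ 0` also
`w 0 = -(∑_{1 ≤ i ≤ n} P.coeff i • w i)/P.coeff 0`. But `w 0` is transcendental over `k = ℂ(y)` because `y, w 0` are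
algebraically independent over `ℂ` (e.g. `AlgebraicIndependent.transcendental_adjoin` gives it over the
subalgebra `ℂ[y]`; an element algebraic over the fraction field `ℂ(y)` is algebraic over `ℂ[y]`).
-/

set_option autoImplicit false

namespace Pool.Agent.Work.MP_abe657_gt.Rev

theorem exists_coord {F : Type} [Field F] [Algebra ℂ F] (y : F) (w : ℕ → F) (P : Polynomial ℂ)
    (hP0 : P.eval 0 ≠ 0) (hy0 : y ≠ 0)
    (hw : ∑ i ∈ Finset.range (P.natDegree + 1), P.coeff i • w i = 0)
    (hind : AlgebraicIndependent ℂ ![y, w 0]) :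
    ∃ j, j + 1 ≤ P.natDegree ∧
      Transcendental (IntermediateField.adjoin ℂ {y}) (w (j + 1) * y ^ (2 * j + 1)) := by
  by_contra hcon
  push Not at hcon
  have htr : Transcendental (IntermediateField.adjoin ℂ {y}) (w 0) := by
    rw [IntermediateField.transcendental_adjoin_iff]
    have h1 := hind.transcendental_adjoin (s := {0}) (i := 1) (by simp)
    rw [Set.image_singleton] at h1
    exact h1
  have hyK : y ∈ algebraicClosure (IntermediateField.adjoin ℂ {y}) F :=
    (algebraicClosure (IntermediateField.adjoin ℂ {y}) F).algebraMap_mem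
      ⟨y, IntermediateField.mem_adjoin_simple_self ℂ y⟩
  have hcK : ∀ c : ℂ, algebraMap ℂ F c ∈
      algebraicClosure (IntermediateField.adjoin ℂ {y}) F := fun c =>
    (algebraicClosure (IntermediateField.adjoin ℂ {y}) F).algebraMap_mem
      (algebraMap ℂ (IntermediateField.adjoin ℂ {y}) c)
  have hwj : ∀ j, j + 1 ≤ P.natDegree →
      w (j + 1) ∈ algebraicClosure (IntermediateField.adjoin ℂ {y}) F := by
    intro j hj
    have h1 := hcon j hj
    rw [Transcendental, not_not] at h1
    have h2 : w (j + 1) * y ^ (2 * j + 1) ∈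
        algebraicClosure (IntermediateField.adjoin ℂ {y}) F := mem_algebraicClosure_iff.2 h1
    have h3 : w (j + 1) = w (j + 1) * y ^ (2 * j + 1) * (y ^ (2 * j + 1))⁻¹ := by
      rw [mul_assoc, mul_inv_cancel₀ (pow_ne_zero _ hy0), mul_one]
    rw [h3]
    exact mul_mem h2 (inv_mem (pow_mem hyK _))
  have h0 : P.coeff 0 ≠ 0 := by
    rwa [Polynomial.coeff_zero_eq_eval_zero]
  rw [Finset.sum_range_succ'] at hw
  have h1 : w 0 = (algebraMap ℂ F (P.coeff 0))⁻¹ *
      -∑ i ∈ Finset.range P.natDegree, P.coeff (i + 1) • w (i + 1) := by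
    have h2 : algebraMap ℂ F (P.coeff 0) ≠ 0 := (map_ne_zero _).2 h0
    rw [eq_inv_mul_iff_mul_eq₀ h2, ← Algebra.smul_def]
    exact eq_neg_of_add_eq_zero_right hw
  apply htr
  rw [← mem_algebraicClosure_iff, h1]
  refine mul_mem (inv_mem (hcK _)) (neg_mem (sum_mem fun i hi => ?_))
  rw [Algebra.smul_def]
  exact mul_mem (hcK _) (hwj i (by have := Finset.mem_range.1 hi; omega))

end Pool.Agent.Work.MP_abe657_gt.Rev
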