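import Pool.Agent.Work.MP_abe657_gt.Rev.Defs

/-!
Module FScale (S-M). The limit system is invariant under scaling and under ring homomorphisms commuting with
the derivative.

Proof. `f_map`: apply `T` to all equations. `f_scale`: `PowerSeries.rescale c` is a ring homomorphism and
`dd (rescale c f) = C c * rescale c (dd f)` (compare coefficients). Write `q = A² c²`; new series:
`h' j = C (A⁻¹ q^j) rescale c (h j)`, `ε' = C ((A c)⁻¹) rescale c ε`, `e' j = C (A⁻¹ (c²)⁻¹ q^j) rescale c (e j)`.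
For instance `hh`: `dd dd h'_j = C (A⁻¹ q^j c²) rescale (-(h0)² h_{j+1}) = -(h'_0)² h'_{j+1}` as
`A⁻² A⁻¹ q^(j+1) = A⁻¹ q^j c²`; `ε1`: `2 ε' dd h'_0 = C ((A c)⁻¹ A⁻¹ c) rescale (2 ε dd h0) = C (A⁻²) rescale (h0²)`.
-/

set_option autoImplicit false

namespace Pool.Agent.Work.MP_abe657_gt.Rev

open PowerSeries

lemma dd_rescale {L : Type} [Field L] (c : L) (f : PowerSeries L) :
    dd (rescale c f) = C c * rescale c (dd f) := by
  ext n
  rw [coeff_dd, coeff_rescale, coeff_C_mul, coeff_rescale, coeff_dd]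
  ring

private theorem dd_dd_rescale {L : Type} [Field L] (c : L) (f : PowerSeries L) :
    dd (dd (rescale c f)) = C c * C c * rescale c (dd (dd f)) := by
  rw [dd_rescale, dd_C_mul, dd_rescale, mul_assoc]

theorem f_scale {L : Type} [Field L] [CharZero L] {h : ℕ → PowerSeries L} {ε : PowerSeries L}
    {e : ℕ → PowerSeries L} {K : ℕ} (hF : FSys h ε e K) (A c : L) (hA : A ≠ 0) (hc : c ≠ 0) :
    FSys (fun j => C (A⁻¹ * (A ^ 2 * c ^ 2) ^ j) * rescale c (h j)) (C ((A * c)⁻¹) * rescale c ε)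
      (fun j => C (A⁻¹ * (c ^ 2)⁻¹ * (A ^ 2 * c ^ 2) ^ j) * rescale c (e j)) K := by
  have hCA : (C A⁻¹ : PowerSeries L) * C A = 1 := by
    rw [← map_mul, inv_mul_cancel₀ hA, map_one]
  have hCc : (C c⁻¹ : PowerSeries L) * C c = 1 := by
    rw [← map_mul, inv_mul_cancel₀ hc, map_one]
  refine ⟨?_, ?_, ?_, ?_, ?_, ?_, ?_⟩
  · rw [map_mul, constantCoeff_C, pow_zero, mul_one, ← coeff_zero_eq_constantCoeff_apply,
      coeff_rescale, pow_zero, one_mul, coeff_zero_eq_constantCoeff_apply]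
    exact mul_ne_zero (inv_ne_zero hA) hF.g0
  · intro j
    rw [dd_C_mul, dd_C_mul, dd_dd_rescale, hF.hh j]
    simp only [map_mul, map_neg, map_pow, pow_zero, mul_one, pow_succ, one_mul]
    linear_combination (C A⁻¹ * C c * C c * (C A * C A * (C c * C c)) ^ j
      * rescale c (h 0) * rescale c (h 0) * rescale c (h (j + 1))) * (1 + C A⁻¹ * C A) * hCA
  · have h1 := congrArg (rescale c) hF.ε1
    simp only [map_mul, map_pow, map_ofNat] at h1
    rw [dd_C_mul, dd_rescale]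
    simp only [map_mul, pow_zero, mul_one, mul_inv]
    linear_combination (C A⁻¹ * C c⁻¹ * C A⁻¹ * C c) * h1
      + (C A⁻¹) ^ 2 * (rescale c (h 0)) ^ 2 * hCc
  · have h1 := congrArg (rescale c) hF.ε2
    simp only [map_mul, map_pow, map_sub] at h1
    rw [dd_C_mul, dd_rescale, h1]
    simp only [map_mul, map_pow, pow_zero, pow_one, mul_one, mul_inv, ← inv_pow]
    linear_combination (C A⁻¹ * rescale c (h 0)
      + C A⁻¹ * (rescale c (h 0)) ^ 2 * rescale c (e 1) * (C c⁻¹ * C c)) * hCc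
      + (C A⁻¹ * (rescale c (h 0)) ^ 2 * rescale c (e 1) * (C A⁻¹ * C A + 1)
        * (C c⁻¹ * C c) ^ 2) * hCA
  · intro j
    rw [dd_C_mul, dd_C_mul, dd_dd_rescale, hF.ee j]
    rw [show (c ^ 2)⁻¹ = c⁻¹ * c⁻¹ by rw [← inv_pow, sq]]
    simp only [map_mul, map_pow, map_sub, pow_zero, mul_one, pow_succ, one_mul]
    linear_combination (C A⁻¹ * ((C A * C A * (C c * C c)) ^ j * (C A * C A * (C c * C c)))
      * rescale c (h (j + 1)) * (C c⁻¹ * C c + 1)) * hCc
      + (C A⁻¹ * ((C A * C A * (C c * C c)) ^ j * (C A * C A * (C c * C c)))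
        * (rescale c (h 0)) ^ 2 * rescale c (e (j + 2)) * (C c⁻¹ * C c) ^ 2
        * (C A⁻¹ * C A + 1)) * hCA
  · intro j h1 h2
    rw [hF.hK j h1 h2, map_zero, mul_zero]
  · intro j h1 h2
    rw [hF.eK j h1 h2, map_zero, mul_zero]

theorem f_map {k L : Type} [Field k] [Field L] {h : ℕ → PowerSeries k} {ε : PowerSeries k}
    {e : ℕ → PowerSeries k} {K : ℕ} (hF : FSys h ε e K) (T : PowerSeries k →+* PowerSeries L)
    (hT : ∀ f, T (dd f) = dd (T f)) (h0 : constantCoeff (T (h 0)) ≠ 0) :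
    FSys (fun j => T (h j)) (T ε) (fun j => T (e j)) K := by
  refine ⟨h0, ?_, ?_, ?_, ?_, ?_, ?_⟩
  · intro j
    rw [← hT, ← hT, hF.hh j]
    simp only [map_mul, map_neg, map_pow]
  · rw [← hT]
    have h1 := congrArg T hF.ε1
    simpa only [map_mul, map_pow, map_ofNat] using h1
  · rw [← hT, hF.ε2]
    simp only [map_mul, map_pow, map_sub]
  · intro j
    rw [← hT, ← hT, hF.ee j]
    simp only [map_mul, map_pow, map_sub]
  · intro j h1 h2
    rw [hF.hK j h1 h2, map_zero]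
  · intro j h1 h2
    rw [hF.eK j h1 h2, map_zero]

end Pool.Agent.Work.MP_abe657_gt.Rev
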