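import Pool.Agent.Work.MP_abe657_gt.Rev.Defs

/-!
Module Scale (S-M). Choice of the scaling factor.

Proof. For `x i ≠ 0` let `v i = (x i).order ∈ ℚ`. Let `ρ` be the maximum over the `i` with `x i ≠ 0` of
`-(v i)/(n i)` (a nonempty finite set), `c = HahnSeries.single ρ 1`. Then `c ^ n i * x i` has order
`n i * ρ + v i ≥ 0` (so it is in `OO`), with equality for the maximising `i` (so its coefficient of
exponent `0` is not zero).
The second statement is the first one with `n = 1` for all `i`, for `ϖ = c⁻¹`.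
-/

set_option autoImplicit false

namespace Pool.Agent.Work.MP_abe657_gt.Rev

theorem exists_scale {k : Type} [Field k] {ι : Type} [Finite ι] (x : ι → HahnSeries ℚ k) (n : ι → ℕ)
    (hn : ∀ i, 0 < n i) (i0 : ι) (h0 : x i0 ≠ 0) :
    ∃ c : HahnSeries ℚ k, c ≠ 0 ∧ (∀ i, c ^ n i * x i ∈ OO k) ∧ ∃ i, rs (c ^ n i * x i) ≠ 0 := by
  classical
  have := Fintype.ofFinite ι
  obtain ⟨m, hm, hmax⟩ := Finset.exists_max_image (Finset.univ.filter fun i => x i ≠ 0)
    (fun i => -(x i).order / (n i : ℚ)) ⟨i0, by rw [Finset.mem_filter]; exact ⟨Finset.mem_univ _, h0⟩⟩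
  rw [Finset.mem_filter] at hm
  have hc : ∀ i q, ((HahnSeries.single (-(x m).order / (n m : ℚ)) (1 : k)) ^ n i * x i).coeff q =
      (x i).coeff (q - (n i : ℚ) * (-(x m).order / (n m : ℚ))) := by
    intro i q
    rw [HahnSeries.single_pow, one_pow, HahnSeries.coeff_single_mul, one_mul, nsmul_eq_mul]
  refine ⟨HahnSeries.single (-(x m).order / (n m : ℚ)) 1, ?_, ?_, m, ?_⟩
  · exact HahnSeries.single_ne_zero one_ne_zero
  · intro i q hq
    rw [hc]
    by_cases hx : x i = 0
    · rw [hx, HahnSeries.coeff_zero]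
    · apply HahnSeries.coeff_eq_zero_of_lt_order
      have h1 := hmax i (by rw [Finset.mem_filter]; exact ⟨Finset.mem_univ _, hx⟩)
      have hni : (0 : ℚ) < n i := by exact_mod_cast hn i
      have h2 : -(x i).order ≤ (n i : ℚ) * (-(x m).order / (n m : ℚ)) := by
        have h3 : -(x i).order / (n i : ℚ) ≤ -(x m).order / (n m : ℚ) := h1
        rw [div_le_iff₀ hni] at h3
        linarith
      linarith
  · rw [rs, hc]
    have hnm : (n m : ℚ) ≠ 0 := by exact_mod_cast (hn m).ne'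
    have h1 : (0 : ℚ) - (n m : ℚ) * (-(x m).order / (n m : ℚ)) = (x m).order := by
      field_simp
      ring
    rw [h1]
    exact HahnSeries.coeff_order_eq_zero.not.mpr hm.2

theorem exists_min {k : Type} [Field k] {ι : Type} [Finite ι] (x : ι → HahnSeries ℚ k)
    (i0 : ι) (h0 : x i0 ≠ 0) :
    ∃ c : HahnSeries ℚ k, c ≠ 0 ∧ (∀ i, c * x i ∈ OO k) ∧ ∃ i, rs (c * x i) ≠ 0 := by
  obtain ⟨c, h1, h2, h3⟩ := exists_scale x (fun _ => 1) (fun _ => Nat.one_pos) i0 h0
  simp only [pow_one] at h2 h3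
  exact ⟨c, h1, h2, h3⟩

end Pool.Agent.Work.MP_abe657_gt.Rev
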