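import Pool.Agent.Work.MP_abe657_gt.Rev.Defs

/-!
Module Small (S). Elements of the valuation ring of Hahn series: small facts.

Proofs with `HahnSeries.order` (`order_mul`, `order_pow`). `mem_OO_iff`: `x = 0` or `0 ≤ x.order`.
(1) `small_of_mul`: if `y ∉ OO` (so `y.order < 0`) and `x^n * y ∈ OO` (`n > 0`) then `x = 0` or `x.order > 0`: so
`x ∈ OO` and `rs x = 0`. (2) `mul_nat`: multiply by the inverse of `n + 1`, which is `C (1/(n+1)) ∈ OO`.
(3) `rs_inv_mul`, (4) `rs_pow`: clear.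
-/

set_option autoImplicit false

namespace Pool.Agent.Work.MP_abe657_gt.Rev

private lemma order_nonneg_of_mem {k : Type} [Field k] {x : HahnSeries ℚ k} (hx : x ∈ OO k)
    (hx0 : x ≠ 0) : 0 ≤ x.order := by
  by_contra h
  push Not at h
  exact (HahnSeries.coeff_order_eq_zero.not.mpr hx0) (hx _ h)

private lemma mem_of_order {k : Type} [Field k] {x : HahnSeries ℚ k} (hx : 0 ≤ x.order) :
    x ∈ OO k := by
  intro q hq
  exact HahnSeries.coeff_eq_zero_of_lt_order (lt_of_lt_of_le hq hx)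

private lemma neg_of_not_mem {k : Type} [Field k] {x : HahnSeries ℚ k} (hx : x ∉ OO k) :
    x ≠ 0 ∧ x.order < 0 := by
  constructor
  · rintro rfl
    exact hx (Subring.zero_mem _)
  · by_contra h
    push Not at h
    exact hx (mem_of_order h)

lemma small_of_mul {k : Type} [Field k] {x y : HahnSeries ℚ k} (n : ℕ) (hn : 0 < n) (hy : y ∉ OO k)
    (hxy : x ^ n * y ∈ OO k) : x ∈ OO k ∧ rs x = 0 := by
  by_cases hx0 : x = 0
  · subst hx0
    exact ⟨Subring.zero_mem _, rs_zero⟩
  obtain ⟨hy0, hyo⟩ := neg_of_not_mem hy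
  have hxn : x ^ n ≠ 0 := pow_ne_zero n hx0
  have h1 : 0 ≤ (x ^ n * y).order := order_nonneg_of_mem hxy (mul_ne_zero hxn hy0)
  rw [HahnSeries.order_mul hxn hy0, HahnSeries.order_pow, nsmul_eq_mul] at h1
  have hn' : (0 : ℚ) < n := by exact_mod_cast hn
  have h2 : 0 < x.order := by
    by_contra h
    push Not at h
    have := mul_nonpos_of_nonneg_of_nonpos hn'.le h
    linarith
  exact ⟨mem_of_order h2.le, HahnSeries.coeff_eq_zero_of_lt_order h2⟩

lemma mem_OO_of_mul_nat {k : Type} [Field k] [CharZero k] {x : HahnSeries ℚ k} (n : ℕ)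
    (h : x * ((n : HahnSeries ℚ k) + 1) ∈ OO k) : x ∈ OO k := by
  have hn : ((n : k) + 1) ≠ 0 := by exact_mod_cast Nat.succ_ne_zero n
  have h1 : ((n : HahnSeries ℚ k) + 1) = HahnSeries.C ((n : k) + 1) := by
    rw [map_add, map_natCast, map_one]
  have h2 : x = x * ((n : HahnSeries ℚ k) + 1) * HahnSeries.C (((n : k) + 1)⁻¹) := by
    rw [h1, mul_assoc, ← map_mul, mul_inv_cancel₀ hn, map_one, mul_one]
  rw [h2]
  exact Subring.mul_mem _ h (C_mem_OO _)

lemma rs_pow {k : Type} [Field k] {x : HahnSeries ℚ k} (hx : x ∈ OO k) (n : ℕ) :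
    rs (x ^ n) = rs x ^ n := by
  induction n with
  | zero => simp
  | succ n ih => rw [pow_succ, rs_mul (Subring.pow_mem _ hx n) hx, ih, pow_succ]

/-- an element of the valuation ring without residue has positive order -/
lemma pos_of_rs {k : Type} [Field k] {x : HahnSeries ℚ k} (hx : x ∈ OO k) (h0 : rs x = 0)
    (hx0 : x ≠ 0) : 0 < x.order := by
  rcases (order_nonneg_of_mem hx hx0).lt_or_eq with h | h
  · exact h
  · exfalso
    apply HahnSeries.coeff_order_eq_zero.not.mpr hx0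
    rw [← h]
    exact h0

lemma neg_order_of_not_mem {k : Type} [Field k] {x : HahnSeries ℚ k} (hx : x ∉ OO k) :
    x ≠ 0 ∧ x.order < 0 := neg_of_not_mem hx

lemma mem_OO_of_order {k : Type} [Field k] {x : HahnSeries ℚ k} (hx : 0 ≤ x.order) : x ∈ OO k :=
  mem_of_order hx

end Pool.Agent.Work.MP_abe657_gt.Rev
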