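import Pool.Agent.Work.MP_abe657_gt.Rev.Tay
import Pool.Agent.Work.MP_abe657_gt.Rev.Scale
import Pool.Agent.Work.MP_abe657_gt.Rev.Small
import Pool.Agent.Work.MP_abe657_gt.Rev.FScale

/-!
Module AlgB (M-L). The scaled system.

Proof. `K = P.natDegree`, `A = σ (y 0) = C b`, `b ≠ 0` (so `A, A⁻¹ = C b⁻¹ ∈ OO`). `T` = Taylor morphism of
`exists_tay` for `D` and `σ`. Family indexed by `Option Bool ⊕ (Fin K × Fin 4)` or similar (any finite type):
`σ (D (y 0)) / A`, `σ (D (w 0)) / A` with weight `1`; for `1 ≤ j ≤ K`, with `m_j = A⁻¹ (A^2)^j`: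
`m_j σ (y j)`, `m_j σ (w j)` with weight `2j`; `m_j σ (D (y j))`, `m_j σ (D (w j))` with weight `2j+1`.
`exists_scale` gives `π := c ≠ 0`. From the member `m_{j0+1} σ (w (j0+1)) = σ (w (j0+1) * (y 0)^(2 j0+1))`, which is
not in `OO` while `π^(2(j0+1))` times it is, `small_of_mul` gives `π ∈ OO`, `rs π = 0`. Put
`κ = (A * π)^2`, `p i = σ (algebraMap ℂ F (P.coeff i))` (a constant `C b_i`), and
`Y j = C (A⁻¹ * κ^j) * rescale π (T (y j))`, `W j = C (A⁻¹ * κ^j) * rescale π (T (w j))`.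
Verification (with `dd_rescale`): `yy`: `dd dd (Y j) = C (A⁻¹ κ^j π²) rescale (T (D D (y j)))`
`= C (A⁻¹ κ^j π²) (rescale T (y j) - (rescale T (y 0))² rescale T (y (j+1)))` and `(rescale T (y 0)) = C A * Y 0`,
`A⁻¹ κ^j π² A² = A⁻¹ κ^(j+1)`. `ww`, `arc` similarly. `yp j`: apply `T` and `rescale π` to `hyP j`:
`∑ C (p i) rescale T (y (i+j)) = 0` (`T` of a constant is `C (σ ..)`); `rescale T (y (i+j)) = C (A κ^(-(i+j))) Y (i+j)`;
multiply by `C (A⁻¹ κ^(K+j))`: `∑ C (p i κ^(K-i)) Y (i+j) = 0`. Initial data: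
`coeff 0 (Y j) = A⁻¹ κ^j σ (y j) = π^(2j) m_j σ (y j)`, `coeff 1 (Y j) = A⁻¹ κ^j π σ (D (y j)) = π^(2j+1) m_j σ (D (y j))`.
`pK`: `P` monic. `p0`: `P.coeff 0 = P.eval 0 ≠ 0`. `K1`: from `j0 + 1 ≤ K`. `κO, κr, κ0`: clear.
-/

set_option autoImplicit false

namespace Pool.Agent.Work.MP_abe657_gt.Rev

open PowerSeries

private lemma AB_1 {S : Type} [CommRing S] (a b c a0 x y z : S) (hk : a * c * c = a0 ^ 2 * b) :
    a * (c * (c * (x - y ^ 2 * z))) = c ^ 2 * (a * x) - (a0 * y) ^ 2 * (b * z) := by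
  linear_combination (-(y ^ 2) * z) * hk

private lemma AB_2 {S : Type} [CommRing S] (a b c a0 y z : S) (hk : a * c * c = a0 ^ 2 * b) :
    a * (c * (c * (-(y ^ 2) * z))) = -(a0 * y) ^ 2 * (b * z) := by
  linear_combination (-(y ^ 2) * z) * hk

private lemma AB_3 {S : Type} [CommRing S] (a c u v y : S) (h : u ^ 2 + v ^ 2 = y ^ 2) :
    (a * (c * u)) ^ 2 + (a * (c * v)) ^ 2 = c ^ 2 * (a * y) ^ 2 := by
  linear_combination (a * c) ^ 2 * h

private lemma AB_4 {L : Type} [Field L] (A π s : L) (j : ℕ) :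
    A⁻¹ * ((A * π) ^ 2) ^ j * s = π ^ (2 * j) * ((A⁻¹ * (A ^ 2) ^ j) * s) := by
  ring

private lemma AB_5 {L : Type} [Field L] (A π s : L) (j : ℕ) :
    A⁻¹ * ((A * π) ^ 2) ^ j * (π * s) = π ^ (2 * j + 1) * ((A⁻¹ * (A ^ 2) ^ j) * s) := by
  ring

private lemma AB_6 {L : Type} [Field L] (A π : L) (hA : A ≠ 0) (j : ℕ) :
    A⁻¹ * ((A * π) ^ 2) ^ j * π * π =
      (A⁻¹ * ((A * π) ^ 2) ^ 0) ^ 2 * (A⁻¹ * ((A * π) ^ 2) ^ (j + 1)) := by
  rw [pow_succ _ j, pow_zero]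
  field_simp

private lemma AB_7 {L : Type} [Field L] (A q κ : L) (a b c : ℕ) (h : c = a + b) :
    q * κ ^ a * (A⁻¹ * κ ^ b) = A⁻¹ * κ ^ c * q := by
  rw [h, pow_add]
  ring

private lemma AB_8 {L : Type} [Field L] (A : L) (hA : A ≠ 0) (j : ℕ) :
    A⁻¹ * (A ^ 2) ^ (j + 1) = A ^ (2 * j + 1) := by
  rw [← pow_mul, show 2 * (j + 1) = 2 * j + 1 + 1 by ring, pow_succ A (2 * j + 1)]
  field_simp

private lemma AB_9 {L : Type} [Field L] (a b : L) : a * b = b * a := mul_comm a b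

theorem exists_ysys {F : Type} [Field F] [Algebra ℂ F] (D : Derivation ℂ F F) (y w : ℕ → F)
    (P : Polynomial ℂ) (hP : P.Monic) (hP0 : P.eval 0 ≠ 0) (hy0 : y 0 ≠ 0)
    (hy : ∀ j, D (D (y j)) = y j - (y 0) ^ 2 * y (j + 1))
    (hw : ∀ j, D (D (w j)) = -(y 0) ^ 2 * w (j + 1))
    (harc : (D (y 0)) ^ 2 + (D (w 0)) ^ 2 = (y 0) ^ 2)
    (hyP : ∀ j, ∑ i ∈ Finset.range (P.natDegree + 1), P.coeff i • y (i + j) = 0)
    (hwP : ∀ j, ∑ i ∈ Finset.range (P.natDegree + 1), P.coeff i • w (i + j) = 0)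
    {k : Type} [Field k] [CharZero k] (σ : F →+* HahnSeries ℚ k)
    (hσ : ∀ c : ℂ, ∃ b : k, σ (algebraMap ℂ F c) = HahnSeries.C b)
    (hσy : ∃ b : k, σ (y 0) = HahnSeries.C b) (j0 : ℕ) (hj0 : j0 + 1 ≤ P.natDegree)
    (hpole : σ (w (j0 + 1) * (y 0) ^ (2 * j0 + 1)) ∉ OO k) :
    ∃ π κ p Y W, YSys (k := k) π κ P.natDegree p Y W := by
  classical
  have hcz : CharZero (HahnSeries ℚ k) :=
    charZero_of_injective_ringHom (HahnSeries.C (Γ := ℚ) (R := k)).injective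
  obtain ⟨T, hT0, hT1, hT2, hT3⟩ := exists_tay (fun f => D f) (fun a b => map_add D a b)
    (fun a b => by
      show D (a * b) = _
      rw [Derivation.leibniz, smul_eq_mul, smul_eq_mul]) σ
  obtain ⟨A, hA⟩ : ∃ A, A = σ (y 0) := ⟨_, rfl⟩
  have hA0 : A ≠ 0 := by
    rw [hA]
    exact (map_ne_zero σ).2 hy0
  have hAO : A ∈ OO k := by
    obtain ⟨b, hb⟩ := hσy
    rw [hA, hb]
    exact C_mem_OO b
  obtain ⟨m, hm⟩ : ∃ m : ℕ → HahnSeries ℚ k, ∀ j, m j = A⁻¹ * (A ^ 2) ^ j := ⟨_, fun _ => rfl⟩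
  obtain ⟨v, hv⟩ : ∃ v : Bool → ℕ → F, ∀ b j, v b j = if b then y j else w j := ⟨_, fun _ _ => rfl⟩
  obtain ⟨x, hx⟩ : ∃ x : Fin (P.natDegree + 1) × Bool × Bool → HahnSeries ℚ k, ∀ j b b',
      x (j, b, b') = if b' then (if (j : ℕ) = 0 then 0 else m j * σ (v b j)) else
        m j * σ (D (v b j)) := by
    exact ⟨fun t => if t.2.2 then (if (t.1 : ℕ) = 0 then 0 else m t.1 * σ (v t.2.1 t.1)) else
        m t.1 * σ (D (v t.2.1 t.1)), fun _ _ _ => rfl⟩
  obtain ⟨n, hn⟩ : ∃ n : Fin (P.natDegree + 1) × Bool × Bool → ℕ, ∀ j b b',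
      n (j, b, b') = if b' then (if (j : ℕ) = 0 then 1 else 2 * (j : ℕ)) else 2 * (j : ℕ) + 1 := by
    exact ⟨fun t => if t.2.2 then (if (t.1 : ℕ) = 0 then 1 else 2 * (t.1 : ℕ)) else
      2 * (t.1 : ℕ) + 1,
      fun _ _ _ => rfl⟩
  have hnpos : ∀ i, 0 < n i := by
    rintro ⟨j, b, b'⟩
    rw [hn]
    split_ifs <;> omega
  have hm1 : m (j0 + 1) = A ^ (2 * j0 + 1) := by
    rw [hm]
    exact AB_8 A hA0 j0
  have hxi0 : x (⟨j0 + 1, by omega⟩, false, true) = σ (w (j0 + 1) * (y 0) ^ (2 * j0 + 1)) := by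
    rw [hx, if_pos rfl, if_neg (by simp), hv, if_neg (by simp), hm1, map_mul, map_pow, ← hA]
    exact AB_9 _ _
  have hni0 : n (⟨j0 + 1, by omega⟩, false, true) = 2 * (j0 + 1) := by
    rw [hn, if_pos rfl, if_neg (by simp)]
  obtain ⟨π, hπ0, hπ1, i1, hi1⟩ := exists_scale x n hnpos (⟨j0 + 1, by omega⟩, false, true) (by
    rw [hxi0]
    intro h
    rw [h] at hpole
    exact hpole (Subring.zero_mem _))
  obtain ⟨hπO, hπr⟩ : π ∈ OO k ∧ rs π = 0 := by
    have h1 := hπ1 (⟨j0 + 1, by omega⟩, false, true)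
    rw [hxi0, hni0] at h1
    exact small_of_mul _ (by omega) hpole h1
  obtain ⟨κ, hκ⟩ : ∃ κ, κ = (A * π) ^ 2 := ⟨_, rfl⟩
  obtain ⟨p, hp⟩ : ∃ p : ℕ → HahnSeries ℚ k, ∀ i, p i = σ (algebraMap ℂ F (P.coeff i)) :=
    ⟨_, fun _ => rfl⟩
  obtain ⟨R, hR⟩ : ∃ R : F →+* PowerSeries (HahnSeries ℚ k), ∀ f, R f = rescale π (T f) :=
    ⟨(rescale π).comp T, fun _ => rfl⟩
  have hRd : ∀ f, dd (R f) = C π * R (D f) := by
    intro f
    rw [hR, dd_rescale, hR, hT1]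
  have hR0 : ∀ f, coeff 0 (R f) = σ f := by
    intro f
    rw [hR, coeff_rescale, pow_zero, one_mul, coeff_zero_eq_constantCoeff_apply, hT0]
  have hR1 : ∀ f, coeff 1 (R f) = π * σ (D f) := by
    intro f
    rw [hR, coeff_rescale, pow_one, hT2]
  have hRc : ∀ c : ℂ, R (algebraMap ℂ F c) = C (σ (algebraMap ℂ F c)) := by
    intro c
    rw [hR, hT3 _ (by exact D.map_algebraMap c)]
    ext n
    rw [coeff_rescale, coeff_C]
    split_ifs with h
    · rw [h, pow_zero, one_mul]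
    · rw [mul_zero]
  have hRs : ∀ (c : ℂ) (f : F), R (c • f) = C (σ (algebraMap ℂ F c)) * R f := by
    intro c f
    rw [Algebra.smul_def, map_mul, hRc]
  obtain ⟨Z, hZ⟩ : ∃ Z : (ℕ → F) → ℕ → PowerSeries (HahnSeries ℚ k), ∀ f j,
    Z f j = C (A⁻¹ * κ ^ j) * R (f j) := ⟨_, fun _ _ => rfl⟩
  have hZdd : ∀ (f : ℕ → F) j, dd (dd (Z f j)) = C (A⁻¹ * κ ^ j) * (C π * (C π * R (D (D (f j))))) := by
    intro f j
    rw [hZ, dd_C_mul, dd_C_mul, hRd, dd_C_mul, hRd]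
  have key : ∀ j, (C (A⁻¹ * κ ^ j) * C π * C π : PowerSeries (HahnSeries ℚ k)) =
      C (A⁻¹ * κ ^ 0) ^ 2 * C (A⁻¹ * κ ^ (j + 1)) := by
    intro j
    rw [← map_mul, ← map_mul, ← map_pow, ← map_mul, hκ]
    exact congrArg C (AB_6 A π hA0 j)
  have hZ0 : ∀ (f : ℕ → F) j, coeff 0 (Z f j) = π ^ (2 * j) * (m j * σ (f j)) := by
    intro f j
    rw [hZ, coeff_C_mul, hR0, hm, hκ]
    exact AB_4 A π _ j
  have hZ1 : ∀ (f : ℕ → F) j, coeff 1 (Z f j) = π ^ (2 * j + 1) * (m j * σ (D (f j))) := by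
    intro f j
    rw [hZ, coeff_C_mul, hR1, hm, hκ]
    exact AB_5 A π _ j
  have hsum : ∀ (f : ℕ → F), (∀ j, ∑ i ∈ Finset.range (P.natDegree + 1), P.coeff i • f (i + j) = 0) →
      ∀ j, ∑ i ∈ Finset.range (P.natDegree + 1),
        C (p i * κ ^ (P.natDegree - i)) * Z f (i + j) = 0 := by
    intro f hf j
    have h1 : ∀ i ∈ Finset.range (P.natDegree + 1),
        C (p i * κ ^ (P.natDegree - i)) * Z f (i + j) =
          C (A⁻¹ * κ ^ (P.natDegree + j)) * R (P.coeff i • f (i + j)) := by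
      intro i hi
      have hi' : i ≤ P.natDegree := by
        have := Finset.mem_range.1 hi
        omega
      rw [hZ, hRs, ← hp, ← mul_assoc, ← mul_assoc, ← map_mul, ← map_mul]
      exact congrArg (fun t => C t * R (f (i + j))) (AB_7 A _ κ _ _ _ (by omega))
    rw [Finset.sum_congr rfl h1, ← Finset.mul_sum, ← map_sum, hf j, map_zero, mul_zero]
  have hall : ∀ (b : Bool) (j : ℕ), j ≤ P.natDegree →
      (j ≠ 0 → coeff 0 (Z (v b) j) ∈ OO k) ∧ coeff 1 (Z (v b) j) ∈ OO k := by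
    intro b j hj
    constructor
    · intro hj0
      have h1 := hπ1 (⟨j, by omega⟩, b, true)
      rw [hx, hn, if_pos rfl, if_pos rfl, if_neg hj0, if_neg hj0] at h1
      rw [hZ0]
      exact h1
    · have h1 := hπ1 (⟨j, by omega⟩, b, false)
      rw [hx, hn, if_neg (by simp), if_neg (by simp)] at h1
      rw [hZ1]
      exact h1
  have hvt : v true = y := by
    funext j
    rw [hv, if_pos rfl]
  have hvf : v false = w := by
    funext j
    rw [hv, if_neg (by simp)]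
  have hAπ : A * π ∈ OO k := Subring.mul_mem _ hAO hπO
  refine ⟨π, κ, p, Z y, Z w, ?_⟩
  refine
    { π0 := hπ0
      πO := hπO
      πr := hπr
      κO := ?_
      κr := ?_
      κ0 := ?_
      pO := ?_
      pK := ?_
      p0 := ?_
      K1 := by omega
      y0 := ?_
      yy := ?_
      ww := ?_
      arc := ?_
      yp := hsum y hyP
      wp := hsum w hwP
      iy0 := ?_
      iw0 := ?_
      iy := ?_
      iw := ?_
      unit := ?_ }
  · rw [hκ]
    exact Subring.pow_mem _ hAπ 2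
  · rw [hκ, rs_pow hAπ, rs_mul hAO hπO, hπr, mul_zero, zero_pow (by norm_num)]
  · rw [hκ]
    exact pow_ne_zero _ (mul_ne_zero hA0 hπ0)
  · intro i
    obtain ⟨b, hb⟩ := hσ (P.coeff i)
    rw [hp, hb]
    exact C_mem_OO b
  · have h1 : P.coeff P.natDegree = 1 := hP
    rw [hp, h1, map_one, map_one]
  · rw [hp, Polynomial.coeff_zero_eq_eval_zero]
    exact (map_ne_zero σ).2 ((map_ne_zero _).2 hP0)
  · rw [← coeff_zero_eq_constantCoeff_apply, hZ, coeff_C_mul, hR0, ← hA, pow_zero, mul_one,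
      inv_mul_cancel₀ hA0]
  · intro j
    have h1 : R (y j - y 0 ^ 2 * y (j + 1)) = R (y j) - R (y 0) ^ 2 * R (y (j + 1)) := by
      rw [map_sub, map_mul, map_pow]
    have h2 : (C (π ^ 2) : PowerSeries (HahnSeries ℚ k)) = C π ^ 2 := map_pow _ _ _
    rw [hZdd, hy, h1, hZ y j, hZ y 0, hZ y (j + 1), h2]
    exact AB_1 _ _ _ _ _ _ _ (key j)
  · intro j
    have h1 : R (-y 0 ^ 2 * w (j + 1)) = -(R (y 0) ^ 2) * R (w (j + 1)) := by
      rw [map_mul, map_neg, map_pow]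
    rw [hZdd, hw, h1, hZ y 0, hZ w (j + 1)]
    exact AB_2 _ _ _ _ _ _ (key j)
  · have h1 : (R (D (y 0))) ^ 2 + (R (D (w 0))) ^ 2 = (R (y 0)) ^ 2 := by
      have h3 : R ((D (y 0)) ^ 2 + (D (w 0)) ^ 2) = R ((y 0) ^ 2) := by rw [harc]
      rw [map_add, map_pow, map_pow, map_pow] at h3
      exact h3
    have h2 : (C (π ^ 2) : PowerSeries (HahnSeries ℚ k)) = C π ^ 2 := map_pow _ _ _
    rw [hZ, hZ, dd_C_mul, dd_C_mul, hRd, hRd, h2]
    exact AB_3 _ _ _ _ _ h1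
  · have h1 := (hall true 0 (Nat.zero_le _)).2
    rwa [hvt] at h1
  · have h1 := (hall false 0 (Nat.zero_le _)).2
    rwa [hvf] at h1
  · intro j hj1 hj2
    have h1 := hall true j hj2
    rw [hvt] at h1
    exact ⟨h1.1 (by omega), h1.2⟩
  · intro j hj1 hj2
    have h1 := hall false j hj2
    rw [hvf] at h1
    exact ⟨h1.1 (by omega), h1.2⟩
  · obtain ⟨j, b, b'⟩ := i1
    have hj : (j : ℕ) ≤ P.natDegree := by
      have := j.2
      omega
    rw [hx, hn] at hi1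
    cases b' with
    | true =>
      rw [if_pos rfl, if_pos rfl] at hi1
      by_cases hj0 : (j : ℕ) = 0
      · rw [if_pos hj0, if_pos hj0, mul_zero, rs_zero] at hi1
        exact absurd rfl hi1
      · rw [if_neg hj0, if_neg hj0, ← hZ0] at hi1
        right
        right
        refine ⟨j, by omega, hj, ?_⟩
        cases b with
        | true =>
          rw [hvt] at hi1
          exact Or.inl hi1
        | false =>
          rw [hvf] at hi1
          exact Or.inr (Or.inr (Or.inl hi1))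
    | false =>
      rw [if_neg (by simp), if_neg (by simp), ← hZ1] at hi1
      by_cases hj0 : (j : ℕ) = 0
      · rw [hj0] at hi1
        cases b with
        | true =>
          rw [hvt] at hi1
          exact Or.inl hi1
        | false =>
          rw [hvf] at hi1
          exact Or.inr (Or.inl hi1)
      · right
        right
        refine ⟨j, by omega, hj, ?_⟩
        cases b with
        | true =>
          rw [hvt] at hi1
          exact Or.inr (Or.inl hi1)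
        | false =>
          rw [hvf] at hi1
          exact Or.inr (Or.inr (Or.inr hi1))

end Pool.Agent.Work.MP_abe657_gt.Rev
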