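import Pool.Agent.Work.MP_abe657_gt.Rev.Defs

/-!
Module Bdd (S-M). Power series over the field of Hahn series whose coefficients are bounded below:
`Bdd f` says that for some `N` no coefficient of `f` has exponents `< N`.

Proofs. `bdd_of_OP`: `N = 0`. `bdd_add`: minimum. `bdd_mul`: sum (each coefficient of the product is a finite
sum of products; a product of a Hahn series without exponents `< a` and one without exponents `< b` has no
exponents `< a + b`). `bdd_C`: every Hahn series has exponents bounded below (its order). `bdd_of_dd`: the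
coefficients of `f` are `f_0` and `(coeff n (dd f))/(n+1)`; dividing by the integer `n + 1` (char 0; multiply by
`HahnSeries.C (1/(n+1))`) does not change the bound; take the minimum with the order of `f_0`.
-/

set_option autoImplicit false

namespace Pool.Agent.Work.MP_abe657_gt.Rev

open PowerSeries

/-- coefficients bounded below -/
def Bdd {k : Type} [Field k] (f : PowerSeries (HahnSeries ℚ k)) : Prop :=
  ∃ N : ℚ, ∀ n, ∀ q < N, (coeff n f).coeff q = 0

lemma bdd_of_OP {k : Type} [Field k] {f : PowerSeries (HahnSeries ℚ k)} (hf : f ∈ OP k) :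
    Bdd f := ⟨0, fun n q hq => hf n q hq⟩

lemma bdd_C {k : Type} [Field k] (a : HahnSeries ℚ k) : Bdd (C a : PowerSeries (HahnSeries ℚ k)) := by
  refine ⟨a.order, fun n q hq => ?_⟩
  rw [coeff_C]
  split_ifs
  · exact HahnSeries.coeff_eq_zero_of_lt_order hq
  · exact HahnSeries.coeff_zero

lemma bdd_add {k : Type} [Field k] {f g : PowerSeries (HahnSeries ℚ k)} (hf : Bdd f) (hg : Bdd g) :
    Bdd (f + g) := by
  obtain ⟨a, ha⟩ := hf
  obtain ⟨b, hb⟩ := hg
  refine ⟨min a b, fun n q hq => ?_⟩
  rw [map_add, HahnSeries.coeff_add, ha n q (lt_of_lt_of_le hq (min_le_left _ _)),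
    hb n q (lt_of_lt_of_le hq (min_le_right _ _)), add_zero]

lemma bdd_sub {k : Type} [Field k] {f g : PowerSeries (HahnSeries ℚ k)} (hf : Bdd f) (hg : Bdd g) :
    Bdd (f - g) := by
  obtain ⟨a, ha⟩ := hf
  obtain ⟨b, hb⟩ := hg
  refine ⟨min a b, fun n q hq => ?_⟩
  rw [map_sub, HahnSeries.coeff_sub, ha n q (lt_of_lt_of_le hq (min_le_left _ _)),
    hb n q (lt_of_lt_of_le hq (min_le_right _ _)), sub_zero]

lemma bdd_mul {k : Type} [Field k] {f g : PowerSeries (HahnSeries ℚ k)} (hf : Bdd f) (hg : Bdd g) :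
    Bdd (f * g) := by
  obtain ⟨a, ha⟩ := hf
  obtain ⟨b, hb⟩ := hg
  refine ⟨a + b, fun n q hq => ?_⟩
  rw [coeff_mul, HahnSeries.coeff_sum]
  refine Finset.sum_eq_zero fun p _ => ?_
  rw [HahnSeries.coeff_mul]
  refine Finset.sum_eq_zero fun ij hij => ?_
  have h : ij.1 + ij.2 = q := (Finset.mem_antidiagonal.mp hij).2.2
  by_cases h1 : ij.1 < a
  · rw [ha _ _ h1, zero_mul]
  · rw [hb _ _ (by linarith), mul_zero]

lemma bdd_of_dd {k : Type} [Field k] [CharZero k] {f : PowerSeries (HahnSeries ℚ k)}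
    (hf : Bdd (dd f)) : Bdd f := by
  obtain ⟨a, ha⟩ := hf
  refine ⟨min a (coeff 0 f).order, fun n q hq => ?_⟩
  rcases n with _ | n
  · exact HahnSeries.coeff_eq_zero_of_lt_order (lt_of_lt_of_le hq (min_le_right _ _))
  · have h1 := ha n q (lt_of_lt_of_le hq (min_le_left _ _))
    rw [coeff_dd] at h1
    have h2 : ((n : HahnSeries ℚ k) + 1) = HahnSeries.single 0 ((n : k) + 1) := by
      have h3 : (HahnSeries.C ((n : k) + 1) : HahnSeries ℚ k) = (n : HahnSeries ℚ k) + 1 := by
        rw [map_add, map_one, map_natCast]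
      rw [← h3, HahnSeries.C_apply]
    rw [h2, mul_comm, HahnSeries.coeff_single_mul, sub_zero] at h1
    have h4 : ((n : k) + 1) ≠ 0 := by exact_mod_cast Nat.succ_ne_zero n
    exact (mul_eq_zero.1 h1).resolve_left h4

end Pool.Agent.Work.MP_abe657_gt.Rev
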