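import Pool.Agent.Work.MP_abe657_gt.Rev.Defs

/-!
Module LemG (M). If `c g` has coefficients in the valuation ring, `g` too, `g` does not reduce to zero and
the coefficients of `c` are bounded below, then `c` has coefficients in the valuation ring.

Proof. Suppose not. Write `v x = x.order` for `x ≠ 0` and `c_n, g_n` for the coefficients. Let `m` be minimal
with `rs (g_m) ≠ 0`; so `v(g_m) = 0`, and there is a rational `δ > 0` with `v(g_i) ≥ δ` for all `i < m` with
`g_i ≠ 0` (finitely many, all of positive order). The set `V = {v(c_n) : c_n ≠ 0}` is bounded below (by the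
hypothesis) and contains a negative number. Hence there is `x ∈ V`, `x < 0`, with `y ≥ x - δ/2` for all `y ∈ V`
(otherwise one finds elements of `V` below any bound: take real infimum, or induction/Archimedean).
Put `θ = min (x + δ/2) 0 > x` and let `n` be minimal with `c_n ≠ 0` and `v(c_n) < θ` (exists because of `x`).
The coefficient `n + m` of `c g` is `c_n g_m + ∑_{i<m} c_{n+m-i} g_i + ∑_{i>m} c_{n+m-i} g_i`. The first term has
order `v(c_n) < θ`. The terms with `i < m` have order `≥ (x - δ/2) + δ = x + δ/2 ≥ θ`; those with `i > m` involve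
`c_{n'}`, `n' < n`, so they have order `≥ θ`. So the coefficient of exponent `v(c_n) < 0` of this sum is not
zero: contradiction with `c g ∈ OP`. (Work with the statement all coefficients of exponent `< q` vanish;
`coeff_mul` for Hahn series shows that the product of a series with no exponent `< a` and one with no
exponent `< b` has none `< a + b` and coefficient at `a + b` equal to the product of the coefficients:
the private lemma `GqH_mul_gen` at the top of `HahnClosed.lean` proves exactly this, copy it.)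
-/

set_option autoImplicit false

namespace Pool.Agent.Work.MP_abe657_gt.Rev

open PowerSeries

/-- no exponents less than `a` -/
private def lgG {k : Type} [Field k] (x : HahnSeries ℚ k) (a : ℚ) : Prop :=
  ∀ q : ℚ, q < a → x.coeff q = 0

private lemma lg_mul {k : Type} [Field k] {x y : HahnSeries ℚ k} {a b : ℚ}
    (hx : lgG x a) (hy : lgG y b) : lgG (x * y) (a + b) := by
  intro q hq
  rw [HahnSeries.coeff_mul]
  refine Finset.sum_eq_zero fun ij hij => ?_
  have h : ij.1 + ij.2 = q := (Finset.mem_antidiagonal.mp hij).2.2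
  by_cases h1 : ij.1 < a
  · rw [hx _ h1, zero_mul]
  · rw [hy _ (by linarith), mul_zero]

private lemma lg_coeff {k : Type} [Field k] {x y : HahnSeries ℚ k} {a b : ℚ}
    (hx : lgG x a) (hy : lgG y b) : (x * y).coeff (a + b) = x.coeff a * y.coeff b := by
  rw [HahnSeries.coeff_mul]
  by_cases hab : x.coeff a = 0 ∨ y.coeff b = 0
  · have h0 : x.coeff a * y.coeff b = 0 := by
      rcases hab with h | h <;> simp [h]
    rw [h0]
    refine Finset.sum_eq_zero fun ij hij => ?_
    have h : ij.1 + ij.2 = a + b := (Finset.mem_antidiagonal.mp hij).2.2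
    rcases lt_trichotomy ij.1 a with h1 | h1 | h1
    · rw [hx _ h1, zero_mul]
    · have h2 : ij.2 = b := by linarith
      rw [h1, h2, h0]
    · rw [hy _ (by linarith), mul_zero]
  · push Not at hab
    rw [Finset.sum_eq_single (a, b)]
    · intro ij hij hne
      have h : ij.1 + ij.2 = a + b := (Finset.mem_antidiagonal.mp hij).2.2
      rcases lt_trichotomy ij.1 a with h1 | h1 | h1
      · rw [hx _ h1, zero_mul]
      · have h2 : ij.2 = b := by linarith
        exact absurd (Prod.ext h1 h2) hne
      · rw [hy _ (by linarith), mul_zero]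
    · intro hnot
      exfalso
      apply hnot
      rw [Finset.mem_antidiagonal]
      exact ⟨hab.1, hab.2, rfl⟩

private lemma lg_mono {k : Type} [Field k] {x : HahnSeries ℚ k} {a b : ℚ} (hx : lgG x a)
    (h : b ≤ a) : lgG x b := fun q hq => hx q (lt_of_lt_of_le hq h)

private lemma lg_delta {k : Type} [Field k] (g : PowerSeries (HahnSeries ℚ k)) (hg : g ∈ OP k)
    (m : ℕ) (hm : ∀ i < m, rs (coeff i g) = 0) : ∃ δ : ℚ, 0 < δ ∧ ∀ i < m, lgG (coeff i g) δ := by
  induction m with
  | zero => exact ⟨1, one_pos, fun i hi => absurd hi (Nat.not_lt_zero i)⟩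
  | succ m ih =>
    obtain ⟨δ, hδ, h⟩ := ih fun i hi => hm i (Nat.lt_succ_of_lt hi)
    obtain ⟨δ', hδ', h'⟩ : ∃ δ' : ℚ, 0 < δ' ∧ lgG (coeff m g) δ' := by
      by_cases h0 : coeff m g = 0
      · exact ⟨1, one_pos, fun q _ => by rw [h0, HahnSeries.coeff_zero]⟩
      · refine ⟨(coeff m g).order, ?_, fun q hq => HahnSeries.coeff_eq_zero_of_lt_order hq⟩
        have h1 : (coeff m g).coeff (coeff m g).order ≠ 0 :=
          HahnSeries.coeff_order_eq_zero.not.mpr h0
        rcases lt_trichotomy (0 : ℚ) (coeff m g).order with h2 | h2 | h2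
        · exact h2
        · exfalso
          rw [← h2] at h1
          exact h1 (hm m (Nat.lt_succ_self m))
        · exact absurd (hg m _ h2) h1
    refine ⟨min δ δ', lt_min hδ hδ', fun i hi => ?_⟩
    rcases Nat.lt_succ_iff_lt_or_eq.1 hi with h1 | h1
    · exact lg_mono (h i h1) (min_le_left _ _)
    · rw [h1]
      exact lg_mono h' (min_le_right _ _)

theorem lemma_g {k : Type} [Field k] (c g : PowerSeries (HahnSeries ℚ k))
    (hb : ∃ N : ℚ, ∀ n, ∀ q < N, (coeff n c).coeff q = 0) (hg : g ∈ OP k) (hg0 : red g ≠ 0)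
    (hcg : c * g ∈ OP k) : c ∈ OP k := by
  classical
  by_contra hc
  obtain ⟨N, hN⟩ := hb
  have hex : ∃ m, rs (coeff m g) ≠ 0 := by
    by_contra hcon
    push Not at hcon
    apply hg0
    ext n
    rw [coeff_red, map_zero]
    exact hcon n
  obtain ⟨m, hm, hmin⟩ : ∃ m, rs (coeff m g) ≠ 0 ∧ ∀ i < m, rs (coeff i g) = 0 :=
    ⟨Nat.find hex, Nat.find_spec hex, fun i hi => by
      by_contra h
      exact Nat.find_min hex hi h⟩
  obtain ⟨δ, hδ, hgδ⟩ := lg_delta g hg m hmin
  obtain ⟨S, hS⟩ : ∃ S : Set ℚ, S = {s | s < 0 ∧ ∃ n, (coeff n c).coeff s ≠ 0} := ⟨_, rfl⟩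
  have hSne : S.Nonempty := by
    rw [mem_OP] at hc
    push Not at hc
    obtain ⟨n, hn⟩ := hc
    rw [mem_OO] at hn
    push Not at hn
    obtain ⟨q, hq, hne⟩ := hn
    rw [hS]
    exact ⟨q, hq, n, hne⟩
  have hSN : ∀ s ∈ S, N ≤ s := by
    intro s hs
    rw [hS] at hs
    obtain ⟨-, n, hne⟩ := hs
    by_contra h
    exact hne (hN n s (not_le.1 h))
  obtain ⟨s, hsS, hsmin⟩ := WellFounded.has_min
    (measure fun s : ℚ => ⌊(s - N) / (δ / 2)⌋₊).wf S hSne
  have hδ2 : 0 < δ / 2 := by linarith
  have hS2 : ∀ s' ∈ S, s - δ / 2 ≤ s' := by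
    intro s' hs'
    by_contra h
    apply hsmin s' hs'
    change ⌊(s' - N) / (δ / 2)⌋₊ < ⌊(s - N) / (δ / 2)⌋₊
    have h1 : (s' - N) / (δ / 2) + 1 ≤ (s - N) / (δ / 2) := by
      rw [div_add_one hδ2.ne', div_le_div_iff_of_pos_right hδ2]
      push Not at h
      linarith
    have h2 : 0 ≤ (s' - N) / (δ / 2) := div_nonneg (by linarith [hSN s' hs']) hδ2.le
    have h3 : ⌊(s' - N) / (δ / 2) + 1⌋₊ ≤ ⌊(s - N) / (δ / 2)⌋₊ := Nat.floor_le_floor h1
    rw [Nat.floor_add_one h2] at h3
    omega
  have hs0 : s < 0 := by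
    rw [hS] at hsS
    exact hsS.1
  have hcG : ∀ n, lgG (coeff n c) (s - δ / 2) := by
    intro n q hq
    by_contra hne
    have h1 : q ∈ S := by
      rw [hS]
      exact ⟨by linarith, n, hne⟩
    linarith [hS2 q h1]
  obtain ⟨θ, hθ⟩ : ∃ θ : ℚ, θ = min (s + δ / 2) 0 := ⟨_, rfl⟩
  have hθs : s < θ := by
    rw [hθ]
    exact lt_min (by linarith) hs0
  have hex2 : ∃ n, ¬ lgG (coeff n c) θ := by
    rw [hS] at hsS
    obtain ⟨-, n, hne⟩ := hsS
    exact ⟨n, fun h => hne (h s hθs)⟩
  obtain ⟨n, hn, hnmin⟩ : ∃ n, ¬ lgG (coeff n c) θ ∧ ∀ i < n, lgG (coeff i c) θ :=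
    ⟨Nat.find hex2, Nat.find_spec hex2, fun i hi => by
      by_contra h
      exact Nat.find_min hex2 hi h⟩
  have hcn0 : coeff n c ≠ 0 := by
    intro h0
    apply hn
    intro q _
    rw [h0, HahnSeries.coeff_zero]
  obtain ⟨v, hv⟩ : ∃ v : ℚ, v = (coeff n c).order := ⟨_, rfl⟩
  have hvθ : v < θ := by
    unfold lgG at hn
    push Not at hn
    obtain ⟨q, hq, hne⟩ := hn
    rw [hv]
    exact lt_of_le_of_lt (HahnSeries.order_le_of_coeff_ne_zero hne) hq
  have hvne : (coeff n c).coeff v ≠ 0 := by
    rw [hv]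
    exact HahnSeries.coeff_order_eq_zero.not.mpr hcn0
  have hvG : lgG (coeff n c) v := by
    intro q hq
    rw [hv] at hq
    exact HahnSeries.coeff_eq_zero_of_lt_order hq
  have h1 : (coeff (n + m) (c * g)).coeff v = 0 := by
    apply hcg (n + m) v
    have h2 : θ ≤ 0 := by
      rw [hθ]
      exact min_le_right _ _
    linarith
  rw [coeff_mul, HahnSeries.coeff_sum, Finset.sum_eq_single (n, m)] at h1
  · have h2 := lg_coeff hvG (hg m : lgG (coeff m g) 0)
    rw [add_zero] at h2
    change (coeff n c * coeff m g).coeff v = 0 at h1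
    rw [h2] at h1
    exact (mul_ne_zero hvne hm) h1
  · rintro ⟨i, j⟩ hij hne
    rw [Finset.HasAntidiagonal.mem_antidiagonal] at hij
    change i + j = n + m at hij
    change (coeff i c * coeff j g).coeff v = 0
    rcases lt_trichotomy i n with hi | hi | hi
    · have h2 := lg_mul (hnmin i hi) (hg j : lgG (coeff j g) 0)
      rw [add_zero] at h2
      exact h2 v hvθ
    · exfalso
      apply hne
      have hj : j = m := by omega
      rw [hi, hj]
    · have h2 := lg_mul (hcG i) (hgδ j (by omega))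
      apply h2
      have h3 : θ ≤ s + δ / 2 := by
        rw [hθ]
        exact min_le_left _ _
      linarith
  · intro hnot
    exfalso
    apply hnot
    rw [Finset.HasAntidiagonal.mem_antidiagonal]

end Pool.Agent.Work.MP_abe657_gt.Rev
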