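import Pool.Agent.Work.MP_abe657_gt.Rev.Defs

/-!
Module Uniq (S, Mathlib only). Uniqueness for a linear system with zero initial data.

Proof. Show by strong induction on `m` that `coeff m (Z j) = 0` for all `j ≤ N`. `m = 0, 1`: hypotheses for
`j < N`, and `hN` for `j = N`. For `m = n + 2` and `j < N`: `coeff (n+2) (Z j) * (n+2) * (n+1)` is the
coefficient `n` of `μ Z_j - a Z_{j+1}`, a sum of products with coefficients of index `≤ n` of `Z_j, Z_{j+1}`, so
it is zero; `(n+2)(n+1) ≠ 0`. For `j = N` use `hN`.
-/

set_option autoImplicit false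

namespace Pool.Agent.Work.MP_abe657_gt.Rev

open PowerSeries

theorem lin_zero {L : Type} [Field L] [CharZero L] (N : ℕ) (Z : ℕ → PowerSeries L)
    (a μ : PowerSeries L) (hZ : ∀ j < N, dd (dd (Z j)) = μ * Z j - a * Z (j + 1)) (q : ℕ → L)
    (hN : Z N = ∑ j ∈ Finset.range N, C (q j) * Z j)
    (h0 : ∀ j < N, coeff 0 (Z j) = 0) (h1 : ∀ j < N, coeff 1 (Z j) = 0) : ∀ j ≤ N, Z j = 0 := by
  have key : ∀ n, ∀ j < N, ∀ m ≤ n + 1, coeff m (Z j) = 0 := by
    intro n
    induction n with
    | zero =>
      intro j hj m hm
      interval_cases m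
      · exact h0 j hj
      · exact h1 j hj
    | succ n ih =>
      intro j hj m hm
      by_cases hm' : m ≤ n + 1
      · exact ih j hj m hm'
      · have hmn : m = n + 2 := by omega
        subst hmn
        have hZn : ∀ i ≤ N, ∀ m ≤ n, coeff m (Z i) = 0 := by
          intro i hi m hm
          rcases hi.lt_or_eq with hi | hi
          · exact ih i hi m (by omega)
          · subst hi
            rw [hN, map_sum]
            refine Finset.sum_eq_zero fun l hl => ?_
            rw [coeff_C_mul, ih l (Finset.mem_range.mp hl) m (by omega), mul_zero]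
        have hmul : ∀ f : PowerSeries L, ∀ i ≤ N, coeff n (f * Z i) = 0 := by
          intro f i hi
          rw [coeff_mul]
          refine Finset.sum_eq_zero fun ij hij => ?_
          have h := Finset.HasAntidiagonal.mem_antidiagonal.mp hij
          rw [hZn i hi _ (by omega), mul_zero]
        have h2 : coeff n (dd (dd (Z j))) = 0 := by
          rw [hZ j hj, map_sub, hmul μ j hj.le, hmul a (j + 1) (by omega), sub_zero]
        rw [coeff_dd, coeff_dd] at h2
        have hn1 : ((n : L) + 1) ≠ 0 := by exact_mod_cast Nat.succ_ne_zero n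
        have hn2 : (((n + 1 : ℕ) : L) + 1) ≠ 0 := by exact_mod_cast Nat.succ_ne_zero (n + 1)
        exact (mul_eq_zero.mp ((mul_eq_zero.mp h2).resolve_right hn1)).resolve_right hn2
  have hlt : ∀ j < N, Z j = 0 := fun j hj => by
    ext n
    rw [key n j hj n (by omega), map_zero]
  intro j hj
  rcases hj.lt_or_eq with hj | hj
  · exact hlt j hj
  · subst hj
    rw [hN]
    exact Finset.sum_eq_zero fun l hl => by rw [hlt l (Finset.mem_range.mp hl), mul_zero]

/-- a power series with zero derivative is constant -/
theorem eq_C_of_dd {L : Type} [Field L] [CharZero L] (f : PowerSeries L) (h : dd f = 0) :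
    f = C (constantCoeff f) := by
  ext n
  rcases n with _ | n
  · simp
  · have h1 : coeff n (dd f) = 0 := by rw [h, map_zero]
    rw [coeff_dd] at h1
    have hn1 : ((n : L) + 1) ≠ 0 := by exact_mod_cast Nat.succ_ne_zero n
    rw [(mul_eq_zero.mp h1).resolve_right hn1, coeff_C, if_neg (Nat.succ_ne_zero n)]

end Pool.Agent.Work.MP_abe657_gt.Rev
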