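import Pool.Agent.Work.MP_abe657_gt.Rev.Defs
import Pool.Agent.Work.MP_abe657_gt.Rev.Uniq

/-!
Module RedNe (S). In the scaled system the reductions of `Y₀'` and `W₀'` are not both zero.

Proof. Suppose `red (dd (Y 0)) = 0` and `red (dd (W 0)) = 0`. By `red_dd`, `dd (red (Y 0)) = 0`, so
`g := red (Y 0)` is constant, equal to `rs 1 = 1` (`eq_C_of_dd`, `y0`). Reduce `yy j`
(`red_sub, red_mul, red_C`; `rs (π^2) = 0`): `dd (dd (red (Y j))) = - g^2 * red (Y (j+1)) = - red (Y (j+1))`. For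
`j = 0` this gives `red (Y 1) = 0` and by induction `red (Y j) = 0` for all `j ≥ 1`. Reduce `ww j`, `j ≥ 1`
similarly, and `ww 0`: `dd (red (dd (W 0))) = 0 = - red (W 1)`, so `red (W j) = 0` for all `j ≥ 1`.
So `rs` of all the coefficients in `h.unit` is zero (`coeff_red`; `coeff 1 (Y 0)`: `coeff_dd` says it is the
coefficient 0 of `dd (Y 0)`), contradiction.
-/

set_option autoImplicit false

namespace Pool.Agent.Work.MP_abe657_gt.Rev

open PowerSeries

theorem red_ne {k : Type} [Field k] [CharZero k] (π κ : HahnSeries ℚ k) (K : ℕ)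
    (p : ℕ → HahnSeries ℚ k) (Y W : ℕ → PowerSeries (HahnSeries ℚ k)) (h : YSys π κ K p Y W)
    (hY : ∀ j, Y j ∈ OP k) (hW : ∀ j, 1 ≤ j → W j ∈ OP k) (hW0 : dd (W 0) ∈ OP k) :
    ¬ (red (dd (Y 0)) = 0 ∧ red (dd (W 0)) = 0) := by
  rintro ⟨ha, hb⟩
  have hg1 : red (Y 0) = 1 := by
    have h1 : dd (red (Y 0)) = 0 := by rw [← red_dd]; exact ha
    rw [eq_C_of_dd _ h1]
    have h2 : constantCoeff (red (Y 0)) = 1 := by
      rw [← coeff_zero_eq_constantCoeff_apply, coeff_red, coeff_zero_eq_constantCoeff_apply, h.y0,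
        rs_one]
    rw [h2, map_one]
  have hpi : rs (π ^ 2) = 0 := by
    rw [sq, rs_mul h.πO h.πO, h.πr, zero_mul]
  have hpO : π ^ 2 ∈ OO k := Subring.pow_mem _ h.πO 2
  have hY2 : (Y 0) ^ 2 ∈ OP k := Subring.pow_mem _ (hY 0) 2
  have hr2 : red ((Y 0) ^ 2) = 1 := by
    rw [sq, red_mul (hY 0) (hY 0), hg1, one_mul]
  have hyy : ∀ j, dd (dd (red (Y j))) = -red (Y (j + 1)) := by
    intro j
    rw [← red_dd, ← red_dd, h.yy j, red_sub, red_mul (C_mem_OP hpO) (hY j), red_C, hpi, map_zero,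
      zero_mul, red_mul hY2 (hY (j + 1)), hr2, one_mul, zero_sub]
  have hyz : ∀ j, red (Y (j + 1)) = 0 := by
    intro j
    induction j with
    | zero =>
      have h1 := hyy 0
      rw [hg1] at h1
      have h2 : dd (1 : PowerSeries k) = 0 := by
        have := dd_C (1 : k)
        rwa [map_one] at this
      rw [h2, dd_zero] at h1
      exact neg_eq_zero.mp h1.symm
    | succ j ih =>
      have h1 := hyy (j + 1)
      rw [ih, dd_zero, dd_zero] at h1
      exact neg_eq_zero.mp h1.symm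
  have hww : ∀ j, red (dd (dd (W j))) = -red (W (j + 1)) := by
    intro j
    rw [h.ww j, neg_mul, red_neg, red_mul hY2 (hW (j + 1) (by omega)), hr2, one_mul]
  have hwz : ∀ j, red (W (j + 1)) = 0 := by
    intro j
    induction j with
    | zero =>
      have h1 := hww 0
      rw [red_dd, hb, dd_zero] at h1
      exact neg_eq_zero.mp h1.symm
    | succ j ih =>
      have h1 := hww (j + 1)
      rw [red_dd, red_dd, ih, dd_zero, dd_zero] at h1
      exact neg_eq_zero.mp h1.symm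
  have e1 : ∀ f : PowerSeries (HahnSeries ℚ k), red (dd f) = 0 → rs (coeff 1 f) = 0 := by
    intro f hf
    have h1 : coeff 0 (red (dd f)) = 0 := by rw [hf, map_zero]
    rw [coeff_red, coeff_dd] at h1
    simpa using h1
  have e2 : ∀ f : PowerSeries (HahnSeries ℚ k), red f = 0 → ∀ n, rs (coeff n f) = 0 := by
    intro f hf n
    rw [← coeff_red, hf, map_zero]
  rcases h.unit with h1 | h1 | ⟨j, hj, -, h1⟩
  · exact h1 (e1 _ ha)
  · exact h1 (e1 _ hb)
  · obtain ⟨i, rfl⟩ : ∃ i, j = i + 1 := ⟨j - 1, by omega⟩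
    rcases h1 with h1 | h1 | h1 | h1
    · exact h1 (e2 _ (hyz i) 0)
    · exact h1 (e2 _ (hyz i) 1)
    · exact h1 (e2 _ (hwz i) 0)
    · exact h1 (e2 _ (hwz i) 1)

end Pool.Agent.Work.MP_abe657_gt.Rev
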