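import Pool.Agent.Work.MP_abe657_gt.Rev.YInt
import Pool.Agent.Work.MP_abe657_gt.Rev.RedNe
import Pool.Agent.Work.MP_abe657_gt.Rev.LemG
import Pool.Agent.Work.MP_abe657_gt.Rev.Bdd

/-!
Module ESysMk (M). The null coordinate is divisible by `π²`.

Proof. `hY, hW, hW0` by `y_int`, `w_int`. Let `i : k`, `i^2 = -1` (algebraically closed). Reduce `arc`
(`rs (π^2) = 0`): with `a = red (dd (Y 0))`, `b = red (dd (W 0))`: `a^2 + b^2 = 0`, so
`(a + C i * b) * (a - C i * b) = 0` in the domain `PowerSeries k`: after replacing `i` by `-i` we have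
`a + C i * b = 0`. Put `ι = HahnSeries.C i`. Let `F = dd (Y 0) - C ι * dd (W 0) ∈ OP`. `red F ≠ 0`: otherwise
`a - C i b = 0` and `a + C i b = 0`, so `a = b = 0`, against `red_ne`.
Put `ε = C ((π^2)⁻¹) * (dd (Y 0) + C ι * dd (W 0))`; it is `Bdd`, and
`ε * F = C ((π^2)⁻¹) * ((dd (Y 0))^2 + (dd (W 0))^2) = (Y 0)^2 ∈ OP` by `arc`. So `ε ∈ OP` by `lemma_g`.
Put `E j = C ((π^2)⁻¹) * (Y j + C ι * W j)` (for `j ≥ 1`; `E 0 = 0` say). From `yy 0`, `ww 0`:
`dd ε = Y 0 - (Y 0)^2 * E 1`, so `(Y 0)^2 * E 1 ∈ OP`; `E 1` is `Bdd`, `red ((Y 0)^2) ≠ 0` (its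
coefficient 0 is `1`), so `E 1 ∈ OP` by `lemma_g`. From `yy j`, `ww j` (`j ≥ 1`):
`dd (dd (E j)) = Y j - (Y 0)^2 * E (j+1)`, so by induction `E (j+1) ∈ OP` in the same way.
-/

set_option autoImplicit false

namespace Pool.Agent.Work.MP_abe657_gt.Rev

open PowerSeries

theorem exists_esys {k : Type} [Field k] [CharZero k] [IsAlgClosed k] (π κ : HahnSeries ℚ k) (K : ℕ)
    (p : ℕ → HahnSeries ℚ k) (Y W : ℕ → PowerSeries (HahnSeries ℚ k)) (h : YSys π κ K p Y W) :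
    ∃ ι ε E, ESys π κ ι K p Y W ε E := by
  have hY := y_int π κ K p Y W h
  obtain ⟨hW, hW0⟩ := w_int π κ K p Y W h
  have hdY : dd (Y 0) ∈ OP k := dd_mem_OP (hY 0)
  have hπ2 : (π ^ 2 : HahnSeries ℚ k) ≠ 0 := pow_ne_zero 2 h.π0
  have hCC : (C ((π ^ 2)⁻¹) : PowerSeries (HahnSeries ℚ k)) * C (π ^ 2) = 1 := by
    rw [← map_mul, inv_mul_cancel₀ hπ2, map_one]
  have hab : red (dd (Y 0)) * red (dd (Y 0)) + red (dd (W 0)) * red (dd (W 0)) = 0 := by
    have h1 := congrArg red h.arc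
    rw [pow_two, pow_two, red_add, red_mul hdY hdY, red_mul hW0 hW0,
      red_mul (C_mem_OP (Subring.pow_mem _ h.πO 2)) (Subring.pow_mem _ (hY 0) 2), red_C,
      pow_two π, rs_mul h.πO h.πO, h.πr, mul_zero, map_zero, zero_mul] at h1
    exact h1
  obtain ⟨i₀, hi₀⟩ := IsAlgClosed.exists_pow_nat_eq (-1 : k) two_pos
  obtain ⟨i, hi, hi1⟩ : ∃ i : k, i ^ 2 = -1 ∧ red (dd (Y 0)) + C i * red (dd (W 0)) = 0 := by
    have h1 : (red (dd (Y 0)) + C i₀ * red (dd (W 0))) *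
        (red (dd (Y 0)) + C (-i₀) * red (dd (W 0))) = 0 := by
      have h2 : (C i₀ : PowerSeries k) * C i₀ = -1 := by
        rw [← map_mul, ← pow_two, hi₀, map_neg, map_one]
      rw [map_neg]
      linear_combination hab - red (dd (W 0)) * red (dd (W 0)) * h2
    rcases mul_eq_zero.1 h1 with h3 | h3
    · exact ⟨i₀, hi₀, h3⟩
    · exact ⟨-i₀, by rw [neg_sq, hi₀], h3⟩
  have hiC : (C i : PowerSeries k) * C i = -1 := by
    rw [← map_mul, ← pow_two, hi, map_neg, map_one]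
  set ι : HahnSeries ℚ k := HahnSeries.C i with hι
  have hιO : ι ∈ OO k := C_mem_OO i
  have hι2 : ι ^ 2 = -1 := by
    rw [hι, ← map_pow, hi, map_neg, map_one]
  have hιC : (C ι : PowerSeries (HahnSeries ℚ k)) * C ι = -1 := by
    rw [← map_mul, ← pow_two, hι2, map_neg, map_one]
  have hFO : dd (Y 0) - C ι * dd (W 0) ∈ OP k :=
    Subring.sub_mem _ hdY (Subring.mul_mem _ (C_mem_OP hιO) hW0)
  have hF0 : red (dd (Y 0) - C ι * dd (W 0)) ≠ 0 := by
    intro h0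
    rw [red_sub, red_mul (C_mem_OP hιO) hW0, red_C, hι, rs_C] at h0
    have ha : (2 : PowerSeries k) * red (dd (Y 0)) = 0 := by linear_combination h0 + hi1
    have ha' : red (dd (Y 0)) = 0 := by
      rcases mul_eq_zero.1 ha with h2 | h2
      · have h3 := congrArg (constantCoeff (R := k)) h2
        rw [map_ofNat, map_zero] at h3
        exact absurd h3 two_ne_zero
      · exact h2
    refine red_ne π κ K p Y W h hY hW hW0 ⟨ha', ?_⟩
    rw [ha', zero_add] at hi1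
    linear_combination (-(C i : PowerSeries k)) * hi1 + red (dd (W 0)) * hiC
  have hS : C ((π ^ 2)⁻¹) * (dd (Y 0) + C ι * dd (W 0)) ∈ OP k := by
    refine lemma_g _ _ (bdd_mul (bdd_C _) (bdd_of_OP (Subring.add_mem _ hdY
      (Subring.mul_mem _ (C_mem_OP hιO) hW0)))) hFO hF0 ?_
    have h1 : C ((π ^ 2)⁻¹) * (dd (Y 0) + C ι * dd (W 0)) * (dd (Y 0) - C ι * dd (W 0)) =
        (Y 0) ^ 2 := by
      have h2 := h.arc
      linear_combination C ((π ^ 2)⁻¹) * h2 + (Y 0) ^ 2 * hCC -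
        C ((π ^ 2)⁻¹) * dd (W 0) * dd (W 0) * hιC
    rw [h1]
    exact Subring.pow_mem _ (hY 0) 2
  have hr2 : red ((Y 0) ^ 2) ≠ 0 := by
    intro h0
    have h1 := congrArg (coeff 0) h0
    rw [coeff_red, coeff_zero_eq_constantCoeff_apply, map_pow, h.y0, one_pow, rs_one,
      map_zero] at h1
    exact one_ne_zero h1
  have hEb : ∀ j, 1 ≤ j → Bdd (C ((π ^ 2)⁻¹) * (Y j + C ι * W j)) := fun j hj =>
    bdd_mul (bdd_C _) (bdd_of_OP (Subring.add_mem _ (hY j)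
      (Subring.mul_mem _ (C_mem_OP hιO) (hW j hj))))
  have hE : ∀ j, C ((π ^ 2)⁻¹) * (Y (j + 1) + C ι * W (j + 1)) ∈ OP k := by
    intro j
    induction j with
    | zero =>
      refine lemma_g _ ((Y 0) ^ 2) (hEb 1 le_rfl) (Subring.pow_mem _ (hY 0) 2) hr2 ?_
      have h1 : C ((π ^ 2)⁻¹) * (Y (0 + 1) + C ι * W (0 + 1)) * (Y 0) ^ 2 =
          Y 0 - dd (C ((π ^ 2)⁻¹) * (dd (Y 0) + C ι * dd (W 0))) := by
        rw [dd_C_mul, dd_add, dd_C_mul, h.yy 0, h.ww 0]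
        linear_combination (Y 0) * hCC
      rw [h1]
      exact Subring.sub_mem _ (hY 0) (dd_mem_OP hS)
    | succ j ih =>
      refine lemma_g _ ((Y 0) ^ 2) (hEb _ (by omega)) (Subring.pow_mem _ (hY 0) 2) hr2 ?_
      have h1 : C ((π ^ 2)⁻¹) * (Y (j + 1 + 1) + C ι * W (j + 1 + 1)) * (Y 0) ^ 2 =
          Y (j + 1) - dd (dd (C ((π ^ 2)⁻¹) * (Y (j + 1) + C ι * W (j + 1)))) := by
        rw [dd_C_mul, dd_add, dd_C_mul, dd_C_mul, dd_add, dd_C_mul, h.yy (j + 1), h.ww (j + 1)]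
        linear_combination (Y (j + 1)) * hCC
      rw [h1]
      exact Subring.sub_mem _ (hY _) (dd_mem_OP (dd_mem_OP ih))
  refine ⟨ι, C ((π ^ 2)⁻¹) * (dd (Y 0) + C ι * dd (W 0)),
    fun j => C ((π ^ 2)⁻¹) * (Y j + C ι * W j), h, hι2, hιO, ?_, ?_, hY, hW, hW0, hS, ?_⟩
  · linear_combination (dd (Y 0) + C ι * dd (W 0)) * hCC
  · intro j _
    linear_combination (Y j + C ι * W j) * hCC
  · intro j hj
    obtain ⟨m, rfl⟩ : ∃ m, j = m + 1 := ⟨j - 1, by omega⟩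
    exact hE m

end Pool.Agent.Work.MP_abe657_gt.Rev
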