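import Pool.Agent.Work.MP_abe657_gt.Rev.Defs
import Pool.Agent.Work.MP_abe657_gt.HahnClosed

/-!
Module EmbB (M). Embedding of `F` (algebraic over `E(x)`, `x` transcendental over `E`) into a field of Hahn
series such that `E` goes to constants and `x` has a pole.

Proof. `k₁ = AlgebraicClosure E`, `L = HahnSeries ℚ k₁`, which is algebraically closed by
`hahn_isAlgClosed k₁` (file HahnClosed). `z = HahnSeries.single (-1) 1 : L` is transcendental over `E` (acting
through `C`): if `p ≠ 0` has degree `n` and leading coefficient `a ≠ 0` then the coefficient of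
exponent `-n` of `p(z) = ∑ p_i single (-i) 1` is `a ≠ 0`. Both `x` and `z` are transcendental over `E`, so there
is an `E`-embedding `E(x) → L` with `x ↦ z` (for instance through `E(x) ≅ RatFunc E`:
`IntermediateField.adjoin` of a transcendental element, `IsLocalization`/`IsFractionRing.lift` of
`Polynomial.aeval z`; or `AlgebraicIndependent.aevalEquivField` with one element). As `F` is algebraic over
`E(x)` and `L` is algebraically closed, `IsAlgClosed.lift` extends it to `F → L`.
Finally `z ∉ OO k₁` because its coefficient at `-1 < 0` is `1`.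
-/

set_option autoImplicit false

namespace Pool.Agent.Work.MP_abe657_gt.Rev

open Polynomial in
private theorem EB_lift {E F L : Type} [Field E] [Field F] [Algebra E F] [Field L] [IsAlgClosed L]
    [Algebra E L] (x : F) (hx : Transcendental E x)
    (halg : Algebra.IsAlgebraic (IntermediateField.adjoin E {x}) F) (z : L)
    (hz : Transcendental E z) :
    ∃ σ : F →+* L, (∀ c : E, σ (algebraMap E F c) = algebraMap E L c) ∧ σ x = z := by
  letI algF : Algebra E[X] F := (Polynomial.aeval (R := E) x).toRingHom.toAlgebra
  letI algL : Algebra E[X] L := (Polynomial.aeval (R := E) z).toRingHom.toAlgebra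
  have hF : ∀ p : E[X], algebraMap E[X] F p = Polynomial.aeval x p := fun _ => rfl
  have hL : ∀ p : E[X], algebraMap E[X] L p = Polynomial.aeval z p := fun _ => rfl
  have iF : Module.IsTorsionFree E[X] F :=
    Module.isTorsionFree_iff_algebraMap_injective.2
      (transcendental_iff_injective.1 hx)
  have iL : Module.IsTorsionFree E[X] L :=
    Module.isTorsionFree_iff_algebraMap_injective.2
      (transcendental_iff_injective.1 hz)
  have iA : Algebra.IsAlgebraic E[X] F := by
    rw [IntermediateField.isAlgebraic_adjoin_iff_top] at halg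
    refine ⟨fun a => ?_⟩
    obtain ⟨q, hq, hqa⟩ := halg.isAlgebraic a
    have hran : ∀ b ∈ Algebra.adjoin E {x}, ∃ p : E[X], Polynomial.aeval x p = b := by
      intro b hb
      rw [Algebra.adjoin_singleton_eq_range_aeval] at hb
      exact hb
    let f : E[X] →+* Algebra.adjoin E {x} :=
      (Polynomial.aeval (R := E) (⟨x, Algebra.subset_adjoin rfl⟩ : Algebra.adjoin E {x})).toRingHom
    have hf : ∀ p : E[X], ((f p : Algebra.adjoin E {x}) : F) = Polynomial.aeval x p := by
      intro p
      exact (Polynomial.aeval_algHom_apply (Algebra.adjoin E {x}).val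
        (⟨x, Algebra.subset_adjoin rfl⟩ : Algebra.adjoin E {x}) p).symm
    have hsur : Function.Surjective f := by
      rintro ⟨b, hb⟩
      obtain ⟨p, hp⟩ := hran b hb
      exact ⟨p, Subtype.ext ((hf p).trans hp)⟩
    obtain ⟨q', hq'⟩ := Polynomial.map_surjective f hsur q
    refine ⟨q', ?_, ?_⟩
    · rintro rfl
      rw [Polynomial.map_zero] at hq'
      exact hq hq'.symm
    · rw [← hqa, ← hq', Polynomial.aeval_def, Polynomial.aeval_def, Polynomial.eval₂_map]
      congr 1
      ext p
      · exact (hf _).symm
      · exact (hf _).symm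
  let g : F →ₐ[E[X]] L := IsAlgClosed.lift
  refine ⟨g.toRingHom, ?_, ?_⟩
  · intro c
    have h1 := g.commutes (Polynomial.C c)
    rw [hF, hL, Polynomial.aeval_C, Polynomial.aeval_C] at h1
    exact h1
  · have h1 := g.commutes Polynomial.X
    rw [hF, hL, Polynomial.aeval_X, Polynomial.aeval_X] at h1
    exact h1

private theorem EB_trans {E k₁ : Type} [Field E] [Field k₁] [Algebra E k₁] (p : Polynomial E)
    (hp : p.eval₂ ((HahnSeries.C (Γ := ℚ) (R := k₁)).comp (algebraMap E k₁))
      (HahnSeries.single (-1 : ℚ) (1 : k₁)) = 0) : p = 0 := by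
  by_contra hne
  have h1 := congrArg (fun f : HahnSeries ℚ k₁ => f.coeff (-(p.natDegree : ℚ))) hp
  simp only [HahnSeries.coeff_zero] at h1
  have hterm : ∀ i : ℕ, ((HahnSeries.C (Γ := ℚ) (R := k₁)).comp (algebraMap E k₁)) (p.coeff i) *
      HahnSeries.single (-1 : ℚ) (1 : k₁) ^ i =
      HahnSeries.single (-(i : ℚ)) (algebraMap E k₁ (p.coeff i)) := by
    intro i
    rw [RingHom.comp_apply, HahnSeries.C_apply, HahnSeries.single_pow, one_pow,
      HahnSeries.single_mul_single, mul_one, zero_add]
    congr 1
    simp
  rw [Polynomial.eval₂_eq_sum_range, Finset.sum_congr rfl (fun i _ => hterm i),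
    HahnSeries.coeff_sum, Finset.sum_eq_single p.natDegree] at h1
  · rw [HahnSeries.coeff_single_same] at h1
    have h3 := (map_eq_zero (algebraMap E k₁)).1 h1
    exact hne (Polynomial.leadingCoeff_eq_zero.1 h3)
  · intro i _ hi
    rw [HahnSeries.coeff_single_of_ne]
    intro h2
    apply hi
    rw [neg_inj] at h2
    exact_mod_cast h2.symm
  · intro h2
    exact absurd (Finset.mem_range.2 (Nat.lt_succ_self _)) h2

theorem emb_of_big {E F : Type} [Field E] [CharZero E] [Field F] [Algebra E F] (x : F)
    (hx : Transcendental E x) (halg : Algebra.IsAlgebraic (IntermediateField.adjoin E {x}) F) :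
    ∃ (k₁ : Type) (_ : Field k₁) (_ : IsAlgClosed k₁) (_ : CharZero k₁)
      (σ : F →+* HahnSeries ℚ k₁),
      (∀ c : E, ∃ b : k₁, σ (algebraMap E F c) = HahnSeries.C b) ∧ σ x ∉ OO k₁ := by
  have hcz : CharZero (AlgebraicClosure E) := inferInstance
  have hcl : IsAlgClosed (HahnSeries ℚ (AlgebraicClosure E)) :=
    hahn_isAlgClosed (AlgebraicClosure E)
  letI algL : Algebra E (HahnSeries ℚ (AlgebraicClosure E)) :=
    ((HahnSeries.C (Γ := ℚ) (R := AlgebraicClosure E)).comp
      (algebraMap E (AlgebraicClosure E))).toAlgebra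
  have htr : Transcendental E (HahnSeries.single (-1 : ℚ) (1 : AlgebraicClosure E)) := by
    rw [transcendental_iff]
    intro p hp
    exact EB_trans p hp
  obtain ⟨σ, h1, h2⟩ := EB_lift x hx halg _ htr
  refine ⟨AlgebraicClosure E, inferInstance, inferInstance, hcz, σ, ?_, ?_⟩
  · intro c
    exact ⟨algebraMap E (AlgebraicClosure E) c, h1 c⟩
  · intro h3
    have h4 := h3 (-1) (by norm_num)
    rw [h2, HahnSeries.coeff_single_same] at h4
    exact one_ne_zero h4

end Pool.Agent.Work.MP_abe657_gt.Rev
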