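import Pool.Agent.Work.MP_abe657_gt.Rev.EmbA
import Pool.Agent.Work.MP_abe657_gt.Rev.EmbB

/-!
Module EmbC (S). The embedding lemma.

Proof. Apply `exists_big_subfield` over the field `k(y)` and `emb_of_big` over the field `E` which it gives.
`algebraMap k F c` and `y` lie in `k(y)`, so they come from `E`.
-/

set_option autoImplicit false

namespace Pool.Agent.Work.MP_abe657_gt.Rev

theorem exists_emb {k F : Type} [Field k] [CharZero k] [Field F] [Algebra k F] (y x : F)
    (hx : Transcendental (IntermediateField.adjoin k {y}) x) :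
    ∃ (k₁ : Type) (_ : Field k₁) (_ : IsAlgClosed k₁) (_ : CharZero k₁)
      (σ : F →+* HahnSeries ℚ k₁),
      (∀ c : k, ∃ b : k₁, σ (algebraMap k F c) = HahnSeries.C b) ∧
      (∃ b : k₁, σ y = HahnSeries.C b) ∧ σ x ∉ OO k₁ := by
  obtain ⟨E, h1, h2⟩ := exists_big_subfield x hx
  have hcz0 : CharZero (IntermediateField.adjoin k {y}) :=
    charZero_of_injective_algebraMap (algebraMap k (IntermediateField.adjoin k {y})).injective
  have hcz : CharZero E :=
    charZero_of_injective_algebraMap (algebraMap (IntermediateField.adjoin k {y}) E).injective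
  obtain ⟨k₁, i1, i2, i3, σ, h3, h4⟩ := emb_of_big x h1 h2
  refine ⟨k₁, i1, i2, i3, σ, ?_, ?_, h4⟩
  · intro c
    obtain ⟨b, hb⟩ := h3 (algebraMap (IntermediateField.adjoin k {y}) E
      (algebraMap k (IntermediateField.adjoin k {y}) c))
    exact ⟨b, hb⟩
  · obtain ⟨b, hb⟩ := h3 (algebraMap (IntermediateField.adjoin k {y}) E
      ⟨y, IntermediateField.mem_adjoin_simple_self k y⟩)
    exact ⟨b, hb⟩

end Pool.Agent.Work.MP_abe657_gt.Rev
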