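import Pool.Agent.Work.MP_abe657_gt.Rev.EEq

/-!
Module Lim (S-M). The reduction of the scaled system is the limit system (F).

Proof. Apply `red` (`red_add, red_sub, red_mul, red_C, red_dd`; `rs (π^2) = 0`) to: `y0` (`g0`:
the constant coefficient of `red (Y 0)` is `rs 1 = 1`), `yy j` (`hh`), `eeq3` (`ε1`: `red ε * (2 dd g - 0) = g^2`),
`eeq1` (`ε2`), `eeq2 (j+1)` (`ee`). `hK`: for `j ≥ K + 1` reduce `yp (j - K)`: for `i < K`
`rs (p i κ^(K-i)) = 0` (a positive power of `κ`), for `i = K` the factor is `C 1`; so `red (Y j) = 0`. `eK`: the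
same with `eeq5 (j - K)`, `j - K ≥ 1`.
-/

set_option autoImplicit false

namespace Pool.Agent.Work.MP_abe657_gt.Rev

open PowerSeries

/-- reduction of a relation: only the last term survives -/
private lemma red_rel {k : Type} [Field k] {κ : HahnSeries ℚ k} {K : ℕ}
    {p : ℕ → HahnSeries ℚ k} (κO : κ ∈ OO k) (κr : rs κ = 0) (pO : ∀ i, p i ∈ OO k)
    (pK : p K = 1) (Z : ℕ → PowerSeries (HahnSeries ℚ k)) (j : ℕ) (hj : 1 ≤ j)
    (hZ : ∀ i, 1 ≤ i → Z i ∈ OP k)
    (h : ∑ i ∈ Finset.range (K + 1), C (p i * κ ^ (K - i)) * Z (i + j) = 0) :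
    red (Z (K + j)) = 0 := by
  rw [Finset.sum_range_succ, Nat.sub_self, pow_zero, mul_one, pK, map_one, one_mul] at h
  have h1 := congrArg red h
  rw [red_add, red_zero] at h1
  have h2 : red (∑ i ∈ Finset.range K, C (p i * κ ^ (K - i)) * Z (i + j)) = 0 := by
    ext n
    rw [coeff_red, map_sum, rs_sum, map_zero]
    refine Finset.sum_eq_zero fun i hi => ?_
    have hi' := Finset.mem_range.mp hi
    rw [← coeff_red, red_mul (C_mem_OP (Subring.mul_mem _ (pO i) (Subring.pow_mem _ κO _)))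
      (hZ _ (by omega)), red_C]
    have h3 : rs (p i * κ ^ (K - i)) = 0 := by
      obtain ⟨m, hm⟩ : ∃ m, K - i = m + 1 := ⟨K - i - 1, by omega⟩
      rw [hm, pow_succ, ← mul_assoc,
        rs_mul (Subring.mul_mem _ (pO i) (Subring.pow_mem _ κO _)) κO, κr, mul_zero]
    rw [h3, map_zero, zero_mul, map_zero]
  rw [h2, zero_add] at h1
  exact h1

theorem limit_sys {k : Type} [Field k] [CharZero k] {π κ ι : HahnSeries ℚ k} {K : ℕ}
    {p : ℕ → HahnSeries ℚ k} {Y W : ℕ → PowerSeries (HahnSeries ℚ k)}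
    {ε : PowerSeries (HahnSeries ℚ k)} {E : ℕ → PowerSeries (HahnSeries ℚ k)}
    (h : ESys π κ ι K p Y W ε E) :
    FSys (fun j => red (Y j)) (red ε) (fun j => red (E j)) (K + 1) := by
  have hpO : π ^ 2 ∈ OO k := Subring.pow_mem _ h.ys.πO 2
  have hpi : rs (π ^ 2) = 0 := by
    rw [sq, rs_mul h.ys.πO h.ys.πO, h.ys.πr, zero_mul]
  have hY2 : (Y 0) ^ 2 ∈ OP k := Subring.pow_mem _ (h.yO 0) 2
  have hr2 : red ((Y 0) ^ 2) = red (Y 0) ^ 2 := by
    rw [sq, red_mul (h.yO 0) (h.yO 0), sq]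
  have hddY : dd (Y 0) ∈ OP k := dd_mem_OP (h.yO 0)
  refine ⟨?_, ?_, ?_, ?_, ?_, ?_, ?_⟩
  · have h2 : constantCoeff (red (Y 0)) = 1 := by
      rw [← coeff_zero_eq_constantCoeff_apply, coeff_red, coeff_zero_eq_constantCoeff_apply,
        h.ys.y0, rs_one]
    rw [h2]
    exact one_ne_zero
  · intro j
    rw [← red_dd, ← red_dd, h.ys.yy j, red_sub, red_mul (C_mem_OP hpO) (h.yO j), red_C, hpi,
      map_zero, zero_mul, red_mul hY2 (h.yO (j + 1)), hr2, zero_sub, neg_mul]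
  · have h1 := congrArg red (eeq3 h)
    have h3 : (2 : PowerSeries (HahnSeries ℚ k)) * dd (Y 0) = dd (Y 0) + dd (Y 0) := by ring
    have h4 : C (π ^ 2) * ε ∈ OP k := Subring.mul_mem _ (C_mem_OP hpO) h.εO
    rw [red_mul h.εO (Subring.sub_mem _ (by rw [h3]; exact Subring.add_mem _ hddY hddY) h4),
      red_sub, h3, red_add, red_mul (C_mem_OP hpO) h.εO, red_C, hpi, map_zero, zero_mul, sub_zero,
      hr2, red_dd] at h1
    rw [← h1]
    ring
  · rw [← red_dd, eeq1 h, red_sub, red_mul hY2 (h.eO 1 le_rfl), hr2]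
  · intro j
    rw [← red_dd, ← red_dd, eeq2 h (j + 1) (by omega), red_sub,
      red_mul hY2 (h.eO (j + 1 + 1) (by omega)), hr2]
  · intro j hj _
    have h1 := red_rel h.ys.κO h.ys.κr h.ys.pO h.ys.pK Y (j - K) (by omega)
      (fun i _ => h.yO i) (h.ys.yp (j - K))
    have e : K + (j - K) = j := by omega
    rwa [e] at h1
  · intro j hj _
    have h1 := red_rel h.ys.κO h.ys.κr h.ys.pO h.ys.pK E (j - K) (by omega)
      h.eO (eeq5 h (j - K) (by omega))
    have e : K + (j - K) = j := by omega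
    rwa [e] at h1

end Pool.Agent.Work.MP_abe657_gt.Rev
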