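import Pool.Agent.Work.MP_abe657_gt.Rev.Defs

/-!
Module EEq (S). The equations satisfied by `ε` and the `E j`.

Proof. Everything after multiplication by `C (π^2) ≠ 0` (power series over a field are a domain; `dd_C_mul`):
(1) `C (π^2) * dd ε = dd (dd (Y 0)) + C ι * dd (dd (W 0)) = C (π^2) Y 0 - (Y 0)^2 (Y 1 + C ι W 1)`.
(2) the same for `E j`, `j ≥ 1`, with `yy j`, `ww j`.
(3) `C (π^2) * (ε * (2 * dd (Y 0) - C (π^2) * ε)) = (dd Y0 + Cι dd W0)(dd Y0 - Cι dd W0)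
 = (dd Y0)^2 + (dd W0)^2 = C (π^2) (Y 0)^2` (`ι^2 = -1`, `arc`).
(4) differentiate (3) and use (1) and `yy 0`:
`dd ε * F + ε * (2 dd dd Y0 - C(π²) dd ε) = 2 Y0 dd Y0`, `F = 2 dd Y0 - C(π²) ε`; insert
`dd ε = Y0 - Y0² E1`, `dd dd Y0 = C(π²) Y0 - Y0² Y1`: this becomes
`-Y0² E1 F + ε (-2 Y0² Y1 + C(π²) Y0² E1) + [Y0 F + ε C(π²) Y0] = 2 Y0 dd Y0`, and
`Y0 F + C(π²) ε Y0 = 2 Y0 dd Y0`; cancel `-Y0² ≠ 0`.
(5) `∑ C (p i κ^(K-i)) * E (i+j) = 0` for `j ≥ 1`: combine `yp j`, `wp j`, multiplied by `C ι`.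
-/

set_option autoImplicit false

namespace Pool.Agent.Work.MP_abe657_gt.Rev

open PowerSeries

variable {k : Type} [Field k] {π κ ι : HahnSeries ℚ k} {K : ℕ} {p : ℕ → HahnSeries ℚ k}
  {Y W : ℕ → PowerSeries (HahnSeries ℚ k)} {ε : PowerSeries (HahnSeries ℚ k)}
  {E : ℕ → PowerSeries (HahnSeries ℚ k)}

private lemma cpi_ne (h : ESys π κ ι K p Y W ε E) :
    (C (π ^ 2) : PowerSeries (HahnSeries ℚ k)) ≠ 0 := by
  intro h0
  have h1 : (π ^ 2 : HahnSeries ℚ k) = 0 := by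
    have h2 := congrArg (coeff 0) h0
    rw [coeff_zero_C, map_zero] at h2
    exact h2
  exact h.ys.π0 (pow_eq_zero_iff two_ne_zero |>.mp h1)

private lemma y0_ne (h : ESys π κ ι K p Y W ε E) : Y 0 ≠ 0 := by
  intro h0
  have h1 := h.ys.y0
  rw [h0, map_zero] at h1
  exact zero_ne_one h1

private lemma ci2 (h : ESys π κ ι K p Y W ε E) :
    (C ι : PowerSeries (HahnSeries ℚ k)) ^ 2 = -1 := by
  rw [← map_pow, h.ι2, map_neg, map_one]

theorem eeq1 (h : ESys π κ ι K p Y W ε E) : dd ε = Y 0 - (Y 0) ^ 2 * E 1 := by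
  apply mul_left_cancel₀ (cpi_ne h)
  have h1 : C (π ^ 2) * dd ε = dd (dd (Y 0)) + C ι * dd (dd (W 0)) := by
    rw [← dd_C_mul, h.εdef, dd_add, dd_C_mul]
  have h2 := h.ys.yy 0
  have h3 := h.ys.ww 0
  have h4 := h.edef 1 le_rfl
  rw [zero_add] at h2 h3
  linear_combination h1 + h2 + C ι * h3 + (Y 0) ^ 2 * h4

theorem eeq2 (h : ESys π κ ι K p Y W ε E) (j : ℕ) (hj : 1 ≤ j) :
    dd (dd (E j)) = Y j - (Y 0) ^ 2 * E (j + 1) := by
  apply mul_left_cancel₀ (cpi_ne h)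
  have h1 : C (π ^ 2) * dd (dd (E j)) = dd (dd (Y j)) + C ι * dd (dd (W j)) := by
    rw [← dd_C_mul, ← dd_C_mul, h.edef j hj, dd_add, dd_add, dd_C_mul, dd_C_mul]
  have h2 := h.ys.yy j
  have h3 := h.ys.ww j
  have h4 := h.edef (j + 1) (by omega)
  linear_combination h1 + h2 + C ι * h3 + (Y 0) ^ 2 * h4

theorem eeq3 (h : ESys π κ ι K p Y W ε E) :
    ε * (2 * dd (Y 0) - C (π ^ 2) * ε) = (Y 0) ^ 2 := by
  apply mul_left_cancel₀ (cpi_ne h)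
  have h1 := h.εdef
  have h2 := h.ys.arc
  have h3 := ci2 h
  linear_combination (2 * dd (Y 0) - C (π ^ 2) * ε - (dd (Y 0) + C ι * dd (W 0))) * h1
    - (dd (W 0)) ^ 2 * h3 + h2

theorem eeq4 (h : ESys π κ ι K p Y W ε E) :
    E 1 * (2 * dd (Y 0) - C (π ^ 2) * ε) + ε * (2 * Y 1 - C (π ^ 2) * E 1) = 0 := by
  have h1 := eeq1 h
  have h2 := h.ys.yy 0
  rw [zero_add] at h2
  have h3 := congrArg dd (eeq3 h)
  have e2 : dd (2 * dd (Y 0) - C (π ^ 2) * ε) = 2 * dd (dd (Y 0)) - C (π ^ 2) * dd ε := by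
    rw [dd_sub, dd_C_mul]
    congr 1
    have : (2 : PowerSeries (HahnSeries ℚ k)) * dd (Y 0) = dd (Y 0) + dd (Y 0) := by ring
    rw [this, dd_add]
    ring
  rw [dd_mul, e2, sq (Y 0), dd_mul] at h3
  have h4 : (Y 0) ^ 2 * (E 1 * (2 * dd (Y 0) - C (π ^ 2) * ε)
      + ε * (2 * Y 1 - C (π ^ 2) * E 1)) = 0 := by
    linear_combination -h3 + (2 * ε) * h2 + (2 * dd (Y 0) - C (π ^ 2) * ε) * h1
      - C (π ^ 2) * ε * h1
  exact (mul_eq_zero.mp h4).resolve_left (pow_ne_zero 2 (y0_ne h))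

theorem eeq5 (h : ESys π κ ι K p Y W ε E) (j : ℕ) (hj : 1 ≤ j) :
    ∑ i ∈ Finset.range (K + 1), C (p i * κ ^ (K - i)) * E (i + j) = 0 := by
  apply (mul_eq_zero.mp (?_ : C (π ^ 2) * ∑ i ∈ Finset.range (K + 1),
    C (p i * κ ^ (K - i)) * E (i + j) = 0)).resolve_left (cpi_ne h)
  rw [Finset.mul_sum]
  have h1 : ∀ i ∈ Finset.range (K + 1), C (π ^ 2) * (C (p i * κ ^ (K - i)) * E (i + j))
      = C (p i * κ ^ (K - i)) * Y (i + j) + C ι * (C (p i * κ ^ (K - i)) * W (i + j)) := by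
    intro i _
    have h2 := h.edef (i + j) (by omega)
    linear_combination C (p i * κ ^ (K - i)) * h2
  rw [Finset.sum_congr rfl h1, Finset.sum_add_distrib, ← Finset.mul_sum, h.ys.yp j, h.ys.wp j]
  ring

end Pool.Agent.Work.MP_abe657_gt.Rev
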