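import Pool.Agent.Work.MP_abe657_gt.Rev.Ode
import Pool.Agent.Work.MP_abe657_gt.Rev.EEq

/-!
Module LinInt (M). Integrality of the linearised system.

Proof. (1) `lin_int` with `N = K`, `Z j = C v * Y (j+1)`, `f = 0`, `μ = C (π^2)`, `a = (Y 0)^2 ∈ OP`;
`hZ` is `yy (j+1)` times `C v`; `hN` comes from `yp 1` times `C v`: `C v Y (K+1) = ∑_{i<K} C (-(p i κ^(K-i))) (C v Y (i+1))`.
This gives `C v * Y j ∈ OP` for `1 ≤ j ≤ K+1`; and `red (C v * Y (K+1)) = 0` because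
`rs (p i κ^(K-i)) = 0` for `i < K` (`κ ∈ OO`, `rs κ = 0`, `red_mul`, `red_C`).
(2) `lin_int` with `Z j = C v * E (j+1)`, `f j = C v * Y (j+1) ∈ OP` (for `j < K`, by (1)), `μ = 0`,
`a = (Y 0)^2`, by `eeq2 (j+1)`, `eeq5 1`.
-/

set_option autoImplicit false

namespace Pool.Agent.Work.MP_abe657_gt.Rev

open PowerSeries

private lemma LinInt_red_sum {k : Type} [Field k] {ι : Type} (s : Finset ι)
    (f : ι → PowerSeries (HahnSeries ℚ k)) : red (∑ i ∈ s, f i) = ∑ i ∈ s, red (f i) := by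
  classical
  induction s using Finset.induction_on with
  | empty => simp
  | insert i s hi ih => rw [Finset.sum_insert hi, Finset.sum_insert hi, red_add, ih]

private lemma LinInt_coeff {k : Type} [Field k] (v : HahnSeries ℚ k)
    (f : PowerSeries (HahnSeries ℚ k)) (n : ℕ) : coeff n (C v * f) = v * coeff n f :=
  PowerSeries.coeff_C_mul n f v

/-- the common part: the last term is integral and has reduction zero -/
private lemma LinInt_red {k : Type} [Field k] {κ : HahnSeries ℚ k} {K : ℕ}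
    {p : ℕ → HahnSeries ℚ k} (hp : ∀ i, p i ∈ OO k) (hκ : κ ∈ OO k) (hκr : rs κ = 0)
    (Z : ℕ → PowerSeries (HahnSeries ℚ k)) (hZ : ∀ i < K, Z i ∈ OP k)
    (hN : Z K = ∑ i ∈ Finset.range K, C (-(p i * κ ^ (K - i))) * Z i) : red (Z K) = 0 := by
  rw [hN, LinInt_red_sum]
  refine Finset.sum_eq_zero fun i hi => ?_
  have hiK : i < K := Finset.mem_range.1 hi
  have hq : -(p i * κ ^ (K - i)) ∈ OO k :=
    Subring.neg_mem _ (Subring.mul_mem _ (hp i) (Subring.pow_mem _ hκ _))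
  have hr : rs (-(p i * κ ^ (K - i))) = 0 := by
    obtain ⟨m, hm⟩ : ∃ m, K - i = m + 1 := ⟨K - i - 1, by omega⟩
    rw [hm, rs_neg, rs_mul (hp i) (Subring.pow_mem _ hκ _), pow_succ,
      rs_mul (Subring.pow_mem _ hκ _) hκ, hκr, mul_zero, mul_zero, neg_zero]
  rw [red_mul (C_mem_OP hq) (hZ i hiK), red_C, hr, map_zero, zero_mul]

/-- the last term in terms of the others -/
private lemma LinInt_last {k : Type} [Field k] {κ : HahnSeries ℚ k} {K : ℕ}
    {p : ℕ → HahnSeries ℚ k} (hpK : p K = 1) (v : HahnSeries ℚ k)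
    (Y : ℕ → PowerSeries (HahnSeries ℚ k))
    (h : ∑ i ∈ Finset.range (K + 1), C (p i * κ ^ (K - i)) * Y (i + 1) = 0) :
    C v * Y (K + 1) = ∑ i ∈ Finset.range K, C (-(p i * κ ^ (K - i))) * (C v * Y (i + 1)) := by
  rw [Finset.sum_range_succ, hpK, Nat.sub_self, pow_zero, one_mul, map_one, one_mul] at h
  have h1 : ∑ i ∈ Finset.range K, C (-(p i * κ ^ (K - i))) * (C v * Y (i + 1)) =
      -(C v * ∑ i ∈ Finset.range K, C (p i * κ ^ (K - i)) * Y (i + 1)) := by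
    rw [Finset.mul_sum, ← Finset.sum_neg_distrib]
    refine Finset.sum_congr rfl fun i _ => ?_
    rw [map_neg]
    ring
  rw [h1]
  linear_combination C v * h

theorem lin_y_int {k : Type} [Field k] [CharZero k] {π κ ι : HahnSeries ℚ k} {K : ℕ}
    {p : ℕ → HahnSeries ℚ k} {Y W : ℕ → PowerSeries (HahnSeries ℚ k)}
    {ε : PowerSeries (HahnSeries ℚ k)} {E : ℕ → PowerSeries (HahnSeries ℚ k)}
    (h : ESys π κ ι K p Y W ε E) (v : HahnSeries ℚ k)
    (hv : ∀ j, 1 ≤ j → j ≤ K → v * coeff 0 (Y j) ∈ OO k ∧ v * coeff 1 (Y j) ∈ OO k) :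
    (∀ j, 1 ≤ j → j ≤ K + 1 → C v * Y j ∈ OP k) ∧ red (C v * Y (K + 1)) = 0 := by
  have hlast := LinInt_last h.ys.pK v Y (h.ys.yp 1)
  have key := lin_int (k := k) K (fun j => C v * Y (j + 1)) (fun _ => 0) ((Y 0) ^ 2) (C (π ^ 2))
    (Subring.pow_mem _ (h.yO 0) 2) (C_mem_OP (Subring.pow_mem _ h.ys.πO 2))
    (fun _ _ => Subring.zero_mem _)
    (fun j _ => by
      show dd (dd (C v * Y (j + 1))) = C (π ^ 2) * (C v * Y (j + 1)) + 0 -
        (Y 0) ^ 2 * (C v * Y (j + 1 + 1))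
      rw [dd_C_mul, dd_C_mul, h.ys.yy (j + 1)]
      ring)
    (fun i => -(p i * κ ^ (K - i)))
    (fun i => Subring.neg_mem _ (Subring.mul_mem _ (h.ys.pO i) (Subring.pow_mem _ h.ys.κO _)))
    hlast
    (fun j hj => by
      show coeff 0 (C v * Y (j + 1)) ∈ OO k
      rw [LinInt_coeff]
      exact (hv (j + 1) (by omega) (by omega)).1)
    (fun j hj => by
      show coeff 1 (C v * Y (j + 1)) ∈ OO k
      rw [LinInt_coeff]
      exact (hv (j + 1) (by omega) (by omega)).2)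
  refine ⟨fun j hj hjK => ?_, ?_⟩
  · obtain ⟨i, rfl⟩ : ∃ i, j = i + 1 := ⟨j - 1, by omega⟩
    exact key i (by omega)
  · exact LinInt_red h.ys.pO h.ys.κO h.ys.κr (fun j => C v * Y (j + 1))
      (fun i hi => key i hi.le) hlast

theorem lin_e_int {k : Type} [Field k] [CharZero k] {π κ ι : HahnSeries ℚ k} {K : ℕ}
    {p : ℕ → HahnSeries ℚ k} {Y W : ℕ → PowerSeries (HahnSeries ℚ k)}
    {ε : PowerSeries (HahnSeries ℚ k)} {E : ℕ → PowerSeries (HahnSeries ℚ k)}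
    (h : ESys π κ ι K p Y W ε E) (v : HahnSeries ℚ k)
    (hY : ∀ j, 1 ≤ j → j ≤ K + 1 → C v * Y j ∈ OP k)
    (hv : ∀ j, 1 ≤ j → j ≤ K → v * coeff 0 (E j) ∈ OO k ∧ v * coeff 1 (E j) ∈ OO k) :
    (∀ j, 1 ≤ j → j ≤ K + 1 → C v * E j ∈ OP k) ∧ red (C v * E (K + 1)) = 0 := by
  have hlast := LinInt_last h.ys.pK v E (eeq5 h 1 le_rfl)
  have key := lin_int (k := k) K (fun j => C v * E (j + 1)) (fun j => C v * Y (j + 1))
    ((Y 0) ^ 2) 0
    (Subring.pow_mem _ (h.yO 0) 2) (Subring.zero_mem _)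
    (fun j hj => hY (j + 1) (by omega) (by omega))
    (fun j _ => by
      show dd (dd (C v * E (j + 1))) = 0 * (C v * E (j + 1)) + C v * Y (j + 1) -
        (Y 0) ^ 2 * (C v * E (j + 1 + 1))
      rw [dd_C_mul, dd_C_mul, eeq2 h (j + 1) (by omega)]
      ring)
    (fun i => -(p i * κ ^ (K - i)))
    (fun i => Subring.neg_mem _ (Subring.mul_mem _ (h.ys.pO i) (Subring.pow_mem _ h.ys.κO _)))
    hlast
    (fun j hj => by
      show coeff 0 (C v * E (j + 1)) ∈ OO k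
      rw [LinInt_coeff]
      exact (hv (j + 1) (by omega) (by omega)).1)
    (fun j hj => by
      show coeff 1 (C v * E (j + 1)) ∈ OO k
      rw [LinInt_coeff]
      exact (hv (j + 1) (by omega) (by omega)).2)
  refine ⟨fun j hj hjK => ?_, ?_⟩
  · obtain ⟨i, rfl⟩ : ∃ i, j = i + 1 := ⟨j - 1, by omega⟩
    exact key i (by omega)
  · exact LinInt_red h.ys.pO h.ys.κO h.ys.κr (fun j => C v * E (j + 1))
      (fun i hi => key i hi.le) hlast

end Pool.Agent.Work.MP_abe657_gt.Rev
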