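import Mathlib

/-!
Module LinOrd (M, Mathlib only). The order argument at the zero of the radius, for polynomials.

Notation: `c = w² ≠ 0`. Relations for `1 ≤ j ≤ K`: `c P_j'' = -X² P_{j+1}`, `c Q_j'' = P_j - X² Q_{j+1}`;
`2 c Q_1 = -X² P_1`; `P_{K+1} = 0`.
Proof. If `P_1 = 0`: then `Q_1 = 0`, and by induction `X² P_{j+1} = 0`, `X² Q_{j+1} = P_j - c Q_j'' = 0`, so all
`P_j = Q_j = 0` (`1 ≤ j ≤ K + 1`), which is the conclusion.
If `P_1 ≠ 0` we get a contradiction from the claim: for `1 ≤ j ≤ K+1`: `P_j ≠ 0`, and with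
`m = natTrailingDegree P_j`, `α = trailingCoeff P_j ≠ 0` there is a rational `θ < 0` such that the coefficients of
`Q_j` of index `< m + 2` vanish and `c * coeff_{m+2} Q_j = θ α`. For `j = 1`: `θ = -1/2`. Step: the coefficient
of `X^m` in `X² Q_{j+1} = P_j - c Q_j''` is `α (1 - (m+2)(m+1) θ) ≠ 0` and the lower ones vanish. So `m ≥ 2`.
The coefficient of `X^(m-2)` of `X² P_{j+1} = -c P_j''` is `-c m (m-1) α ≠ 0`, lower ones vanish: so
`P_{j+1} ≠ 0`, `m - 2 ≥ 2`, `natTrailingDegree P_{j+1} = m - 4`, `trailingCoeff P_{j+1} = -c m (m-1) α`; `Q_{j+1}`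
has no coefficients of index `< m - 2 = (m-4) + 2` and its coefficient at `m-2` is `α (1 - (m+2)(m+1) θ)`, so
`θ' = c α (1 - (m+2)(m+1)θ)/(-c m (m-1) α) = (1 - (m+2)(m+1)θ)/(-(m(m-1))) < 0`. At `j = K + 1`: `P_{K+1} ≠ 0`,
contradiction.
(It may be simpler to state the claim with: `∃ m α θ, α ≠ 0 ∧ θ < 0 ∧ (∀ i < m, P_j.coeff i = 0) ∧ P_j.coeff m = α ∧
(∀ i < m+2, Q_j.coeff i = 0) ∧ c * Q_j.coeff (m+2) = (θ : k) * α`.)
-/

set_option autoImplicit false

namespace Pool.Agent.Work.MP_abe657_gt.Rev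

open Polynomial

private lemma LinOrd_dd {k : Type} [Field k] (f : Polynomial k) (n : ℕ) :
    (derivative (derivative f)).coeff n = f.coeff (n + 2) * ((n : k) + 2) * ((n : k) + 1) := by
  rw [coeff_derivative, coeff_derivative]
  push_cast
  ring

private lemma LinOrd_X {k : Type} [Field k] (f : Polynomial k) (n : ℕ) :
    (X ^ 2 * f).coeff n = if 2 ≤ n then f.coeff (n - 2) else 0 := coeff_X_pow_mul' f 2 n

theorem lin_ord {k : Type} [Field k] [CharZero k] (c : k) (hc : c ≠ 0) (K : ℕ)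
    (P Q : ℕ → Polynomial k)
    (hP : ∀ j, 1 ≤ j → j ≤ K → C c * derivative (derivative (P j)) = -X ^ 2 * P (j + 1))
    (hQ : ∀ j, 1 ≤ j → j ≤ K → C c * derivative (derivative (Q j)) = P j - X ^ 2 * Q (j + 1))
    (h1 : 2 * C c * Q 1 = -X ^ 2 * P 1) (hPK : P (K + 1) = 0) :
    ∀ j, 1 ≤ j → j ≤ K + 1 → P j = 0 ∧ Q j = 0 := by
  classical
  have hX2 : (X ^ 2 : Polynomial k) ≠ 0 := pow_ne_zero 2 X_ne_zero
  have h2 : (2 : k) ≠ 0 := two_ne_zero
  -- coefficient forms
  have hA : ∀ j, 1 ≤ j → j ≤ K → ∀ n : ℕ, c * ((P j).coeff (n + 2) * ((n : k) + 2) * ((n : k) + 1)) =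
      -(if 2 ≤ n then (P (j + 1)).coeff (n - 2) else 0) := by
    intro j hj hjK n
    have h : (C c * derivative (derivative (P j))).coeff n = (-X ^ 2 * P (j + 1)).coeff n := by
      rw [hP j hj hjK]
    rw [coeff_C_mul, LinOrd_dd, neg_mul, coeff_neg, LinOrd_X] at h
    exact h
  have hB : ∀ j, 1 ≤ j → j ≤ K → ∀ n : ℕ, c * ((Q j).coeff (n + 2) * ((n : k) + 2) * ((n : k) + 1)) =
      (P j).coeff n - (if 2 ≤ n then (Q (j + 1)).coeff (n - 2) else 0) := by
    intro j hj hjK n
    have h : (C c * derivative (derivative (Q j))).coeff n =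
        (P j - X ^ 2 * Q (j + 1)).coeff n := by
      rw [hQ j hj hjK]
    rw [coeff_C_mul, LinOrd_dd, coeff_sub, LinOrd_X] at h
    exact h
  have hE : ∀ n : ℕ, 2 * (c * (Q 1).coeff n) = -(if 2 ≤ n then (P 1).coeff (n - 2) else 0) := by
    intro n
    have h : (2 * C c * Q 1).coeff n = (-X ^ 2 * P 1).coeff n := by rw [h1]
    have e : (2 * C c * Q 1 : Polynomial k) = C (2 * c) * Q 1 := by
      rw [C_mul, map_ofNat]
    rw [e, coeff_C_mul, neg_mul, coeff_neg, LinOrd_X] at h
    rw [← h]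
    ring
  by_cases hP1 : P 1 = 0
  · have hQ1 : Q 1 = 0 := by
      rw [hP1, mul_zero] at h1
      have h3 : (2 * C c : Polynomial k) ≠ 0 := mul_ne_zero two_ne_zero (C_ne_zero.2 hc)
      exact (mul_eq_zero.1 h1).resolve_left h3
    intro j hj
    induction j, hj using Nat.le_induction with
    | base => exact fun _ => ⟨hP1, hQ1⟩
    | succ j hj ih =>
      intro hjK
      obtain ⟨h3, h4⟩ := ih (by omega)
      have h5 := hP j hj (by omega)
      have h6 := hQ j hj (by omega)
      rw [h3, derivative_zero, derivative_zero, mul_zero] at h5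
      rw [h4, h3, derivative_zero, derivative_zero, mul_zero] at h6
      refine ⟨(mul_eq_zero.1 h5.symm).resolve_left (neg_ne_zero.2 hX2), ?_⟩
      have h7 : X ^ 2 * Q (j + 1) = 0 := by
        linear_combination h6
      exact (mul_eq_zero.1 h7).resolve_left hX2
  · exfalso
    have claim : ∀ j, 1 ≤ j → j ≤ K + 1 → ∃ (m : ℕ) (α : k) (θ : ℚ), α ≠ 0 ∧ θ < 0 ∧
        (∀ i < m, (P j).coeff i = 0) ∧ (P j).coeff m = α ∧ (∀ i < m + 2, (Q j).coeff i = 0) ∧
        c * (Q j).coeff (m + 2) = (θ : k) * α := by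
      intro j hj
      induction j, hj using Nat.le_induction with
      | base =>
        intro _
        have hlow : ∀ i < (P 1).natTrailingDegree, (P 1).coeff i = 0 :=
          fun i hi => coeff_eq_zero_of_lt_natTrailingDegree hi
        refine ⟨(P 1).natTrailingDegree, (P 1).trailingCoeff, -1 / 2,
          trailingCoeff_nonzero_iff_nonzero.2 hP1, by norm_num, hlow, rfl, ?_, ?_⟩
        · intro i hi
          have h3 := hE i
          have h4 : (if 2 ≤ i then (P 1).coeff (i - 2) else 0) = 0 := by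
            split_ifs with h5
            · exact hlow _ (by omega)
            · rfl
          rw [h4, neg_zero] at h3
          exact (mul_eq_zero.1 ((mul_eq_zero.1 h3).resolve_left h2)).resolve_left hc
        · have h3 := hE ((P 1).natTrailingDegree + 2)
          rw [if_pos (by omega), Nat.add_sub_cancel] at h3
          have h4 : (P 1).coeff (P 1).natTrailingDegree = (P 1).trailingCoeff := rfl
          rw [h4] at h3
          push_cast
          linear_combination h3 / 2
      | succ j hj ih =>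
        intro hjK
        obtain ⟨m, α, θ, hα, hθ, hPl, hPm, hQl, hQm⟩ := ih (by omega)
        have hjK' : j ≤ K := by omega
        have hpos : (0 : ℚ) < 1 - ((m : ℚ) + 2) * ((m : ℚ) + 1) * θ := by
          have h3 : (0 : ℚ) < ((m : ℚ) + 2) * ((m : ℚ) + 1) := by positivity
          nlinarith
        have hposk : ((1 - ((m : ℚ) + 2) * ((m : ℚ) + 1) * θ : ℚ) : k) ≠ 0 :=
          Rat.cast_ne_zero.2 hpos.ne'
        -- `X² Q_{j+1}` at `m`
        have h3 : (if 2 ≤ m then (Q (j + 1)).coeff (m - 2) else 0) =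
            α * ((1 - ((m : ℚ) + 2) * ((m : ℚ) + 1) * θ : ℚ) : k) := by
          have h4 := hB j hj hjK' m
          rw [hPm] at h4
          push_cast
          linear_combination h4 - ((m : k) + 2) * ((m : k) + 1) * hQm
        have hm2 : 2 ≤ m := by
          by_contra hcon
          rw [if_neg hcon] at h3
          exact mul_ne_zero hα hposk h3.symm
        rw [if_pos hm2] at h3
        obtain ⟨m₁, rfl⟩ : ∃ m₁, m = m₁ + 2 := ⟨m - 2, by omega⟩
        have hα' : -(c * (((m₁ + 2 : ℕ) : k) * ((m₁ : k) + 1)) * α) ≠ 0 := by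
          refine neg_ne_zero.2 (mul_ne_zero (mul_ne_zero hc (mul_ne_zero ?_ ?_)) hα)
          · exact Nat.cast_ne_zero.2 (by omega)
          · exact_mod_cast (Nat.succ_ne_zero m₁)
        have h5 : (if 2 ≤ m₁ then (P (j + 1)).coeff (m₁ - 2) else 0) =
            -(c * (((m₁ + 2 : ℕ) : k) * ((m₁ : k) + 1)) * α) := by
          have h6 := hA j hj hjK' m₁
          rw [hPm] at h6
          push_cast
          linear_combination h6
        have hm4 : 2 ≤ m₁ := by
          by_contra hcon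
          rw [if_neg hcon] at h5
          exact hα' h5.symm
        rw [if_pos hm4] at h5
        obtain ⟨m₂, rfl⟩ : ∃ m₂, m₁ = m₂ + 2 := ⟨m₁ - 2, by omega⟩
        rw [Nat.add_sub_cancel] at h5 h3
        refine ⟨m₂, _, (1 - (((m₂ + 2 + 2 : ℕ) : ℚ) + 2) * (((m₂ + 2 + 2 : ℕ) : ℚ) + 1) * θ) /
          (-(((m₂ + 2 + 2 : ℕ) : ℚ) * (((m₂ + 2 : ℕ) : ℚ) + 1))), hα', ?_, ?_, h5, ?_, ?_⟩
        · exact div_neg_of_pos_of_neg hpos (neg_neg_of_pos (by positivity))
        · intro i hi
          have h6 := hA j hj hjK' (i + 2)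
          rw [if_pos (by omega), Nat.add_sub_cancel, hPl (i + 2 + 2) (by omega)] at h6
          linear_combination h6
        · intro i hi
          have h6 := hB j hj hjK' (i + 2)
          rw [if_pos (by omega), Nat.add_sub_cancel, hPl (i + 2) (by omega),
            hQl (i + 2 + 2) (by omega)] at h6
          linear_combination h6
        · rw [h3, Rat.cast_div]
          have h7 : (((-(((m₂ + 2 + 2 : ℕ) : ℚ) * (((m₂ + 2 : ℕ) : ℚ) + 1)) : ℚ)) : k) =
              -(((m₂ + 2 + 2 : ℕ) : k) * (((m₂ + 2 : ℕ) : k) + 1)) := by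
            push_cast
            ring
          rw [h7]
          have h8 : ((m₂ + 2 + 2 : ℕ) : k) ≠ 0 := Nat.cast_ne_zero.2 (by omega)
          have h9 : (((m₂ + 2 : ℕ) : k) + 1) ≠ 0 := by exact_mod_cast (Nat.succ_ne_zero (m₂ + 2))
          field_simp
    obtain ⟨m, α, θ, hα, -, -, hPm, -, -⟩ := claim (K + 1) (by omega) le_rfl
    rw [hPK, coeff_zero] at hPm
    exact hα hPm.symm

end Pool.Agent.Work.MP_abe657_gt.Rev
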