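import Pool.Agent.Work.MP_abe657_gt.Rev.LinPoly
import Pool.Agent.Work.MP_abe657_gt.Rev.LinOrd

/-!
Module LinShift (S-M). The linearised limit system has only the zero solution.

Proof. By `lin_poly`, `η j = ↑(P j)`, `ζ j = ↑(Q j)`; the equations hold for the polynomials (coercion to power
series is injective; `dd ↑P = ↑(derivative P)`, compare coefficients). Substitute: `ℓ = C w⁻¹ * (X - 1)`
(polynomial), `P' j = (P j).comp ℓ`, `Q' j = (Q j).comp ℓ`. `derivative (p.comp ℓ) = C w⁻¹ * (derivative p).comp ℓ`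
(`Polynomial.derivative_comp`), and `(1 + C w * X).comp ℓ = X`. So with `c = w^2`:
`C c * derivative (derivative (P' j)) = (derivative (derivative (P j))).comp ℓ = -X^2 * P' (j+1)`, similarly for `Q'`;
`h1` becomes `2 * C c * Q' 1 = -X^2 * P' 1`. `lin_ord` gives `P' j = 0 = Q' j`; compose with `1 + C w * X`
(`ℓ.comp (1 + C w * X) = X`) to get `P j = 0 = Q j`.
-/

set_option autoImplicit false

namespace Pool.Agent.Work.MP_abe657_gt.Rev

open PowerSeries

private theorem dd_coe {k : Type} [Field k] (P : Polynomial k) :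
    dd (P : PowerSeries k) = ((Polynomial.derivative P : Polynomial k) : PowerSeries k) := by
  ext n
  rw [coeff_dd, Polynomial.coeff_coe, Polynomial.coeff_coe, Polynomial.coeff_derivative]

private theorem coe_g {k : Type} [Field k] (w : k) : (1 + C w * X : PowerSeries k)
      = ((1 + Polynomial.C w * Polynomial.X : Polynomial k) : PowerSeries k) := by
  rw [Polynomial.coe_add, Polynomial.coe_one, Polynomial.coe_mul, Polynomial.coe_C,
    Polynomial.coe_X]

private theorem der_comp {k : Type} [Field k] (w : k) (P : Polynomial k) :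
    Polynomial.derivative (P.comp (Polynomial.C w⁻¹ * (Polynomial.X - 1)))
      = Polynomial.C w⁻¹ * (Polynomial.derivative P).comp (Polynomial.C w⁻¹ * (Polynomial.X - 1)) := by
  rw [Polynomial.derivative_comp, Polynomial.derivative_C_mul, Polynomial.derivative_sub,
    Polynomial.derivative_X, Polynomial.derivative_one, sub_zero, mul_one]

private theorem der2_comp {k : Type} [Field k] (w : k) (hw : w ≠ 0) (P : Polynomial k) :
    Polynomial.C (w ^ 2) * Polynomial.derivative (Polynomial.derivative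
      (P.comp (Polynomial.C w⁻¹ * (Polynomial.X - 1))))
      = (Polynomial.derivative (Polynomial.derivative P)).comp
        (Polynomial.C w⁻¹ * (Polynomial.X - 1)) := by
  rw [der_comp, Polynomial.derivative_C_mul, der_comp, ← mul_assoc, ← mul_assoc, ← Polynomial.C_mul,
    ← Polynomial.C_mul]
  have h1 : w ^ 2 * w⁻¹ * w⁻¹ = 1 := by
    field_simp
  rw [h1, Polynomial.C_1, one_mul]

private theorem g_comp {k : Type} [Field k] (w : k) (hw : w ≠ 0) :
    (1 + Polynomial.C w * Polynomial.X : Polynomial k).comp (Polynomial.C w⁻¹ * (Polynomial.X - 1))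
      = Polynomial.X := by
  rw [Polynomial.add_comp, Polynomial.one_comp, Polynomial.mul_comp, Polynomial.C_comp,
    Polynomial.X_comp, ← mul_assoc, ← Polynomial.C_mul, mul_inv_cancel₀ hw, Polynomial.C_1, one_mul]
  ring

private theorem l_comp {k : Type} [Field k] (w : k) (hw : w ≠ 0) :
    (Polynomial.C w⁻¹ * (Polynomial.X - 1) : Polynomial k).comp
      (1 + Polynomial.C w * Polynomial.X) = Polynomial.X := by
  rw [Polynomial.mul_comp, Polynomial.C_comp, Polynomial.sub_comp, Polynomial.one_comp,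
    Polynomial.X_comp, add_sub_cancel_left, ← mul_assoc, ← Polynomial.C_mul, inv_mul_cancel₀ hw,
    Polynomial.C_1, one_mul]

private theorem zero_of_comp {k : Type} [Field k] (w : k) (hw : w ≠ 0) (P : Polynomial k)
    (h : P.comp (Polynomial.C w⁻¹ * (Polynomial.X - 1)) = 0) : P = 0 := by
  have h1 := congrArg (fun R : Polynomial k => R.comp (1 + Polynomial.C w * Polynomial.X)) h
  simp only [Polynomial.zero_comp] at h1
  rwa [Polynomial.comp_assoc, l_comp w hw, Polynomial.comp_X] at h1

theorem lin_contra {k : Type} [Field k] [CharZero k] (w : k) (hw : w ≠ 0) (K : ℕ)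
    (η ζ : ℕ → PowerSeries k)
    (hη : ∀ j, 1 ≤ j → j ≤ K → dd (dd (η j)) = -(1 + C w * X) ^ 2 * η (j + 1))
    (hζ : ∀ j, 1 ≤ j → j ≤ K → dd (dd (ζ j)) = η j - (1 + C w * X) ^ 2 * ζ (j + 1))
    (hηK : η (K + 1) = 0) (hζK : ζ (K + 1) = 0)
    (h1 : 2 * C (w ^ 2) * ζ 1 = -(1 + C w * X) ^ 2 * η 1) :
    ∀ j, 1 ≤ j → j ≤ K + 1 → η j = 0 ∧ ζ j = 0 := by
  obtain ⟨P, Q, hPQ⟩ := lin_poly w K η ζ hη hζ hηK hζK
  -- the equations for the polynomials
  have eP : ∀ j, 1 ≤ j → j ≤ K → Polynomial.derivative (Polynomial.derivative (P j))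
      = -(1 + Polynomial.C w * Polynomial.X) ^ 2 * P (j + 1) := by
    intro j hj1 hjK
    have h2 := hη j hj1 hjK
    rw [(hPQ j hj1 (by omega)).1, (hPQ (j + 1) (by omega) (by omega)).1, dd_coe, dd_coe, coe_g] at h2
    apply Polynomial.coe_injective k
    rw [h2, Polynomial.coe_mul, Polynomial.coe_neg, Polynomial.coe_pow]
  have eQ : ∀ j, 1 ≤ j → j ≤ K → Polynomial.derivative (Polynomial.derivative (Q j))
      = P j - (1 + Polynomial.C w * Polynomial.X) ^ 2 * Q (j + 1) := by
    intro j hj1 hjK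
    have h2 := hζ j hj1 hjK
    rw [(hPQ j hj1 (by omega)).1, (hPQ j hj1 (by omega)).2, (hPQ (j + 1) (by omega) (by omega)).2,
      dd_coe, dd_coe, coe_g] at h2
    apply Polynomial.coe_injective k
    rw [h2, Polynomial.coe_sub, Polynomial.coe_mul, Polynomial.coe_pow]
  have e1 : 2 * Polynomial.C (w ^ 2) * Q 1
      = -(1 + Polynomial.C w * Polynomial.X) ^ 2 * P 1 := by
    rw [(hPQ 1 (by omega) (by omega)).1, (hPQ 1 (by omega) (by omega)).2, coe_g] at h1
    apply Polynomial.coe_injective k
    have h3 : ((2 : Polynomial k) : PowerSeries k) = 2 := by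
      have h4 : (2 : Polynomial k) = 1 + 1 := one_add_one_eq_two.symm
      rw [h4, Polynomial.coe_add, Polynomial.coe_one, one_add_one_eq_two]
    rw [Polynomial.coe_mul, Polynomial.coe_mul, Polynomial.coe_C, h3, h1, Polynomial.coe_mul,
      Polynomial.coe_neg, Polynomial.coe_pow]
  have eK : P (K + 1) = 0 := by
    apply Polynomial.coe_injective k
    rw [← (hPQ (K + 1) (by omega) le_rfl).1, hηK, Polynomial.coe_zero]
  have hfin := lin_ord (w ^ 2) (pow_ne_zero 2 hw) K
    (fun j => (P j).comp (Polynomial.C w⁻¹ * (Polynomial.X - 1)))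
    (fun j => (Q j).comp (Polynomial.C w⁻¹ * (Polynomial.X - 1)))
    (by
      intro j hj1 hjK
      rw [der2_comp w hw, eP j hj1 hjK, Polynomial.mul_comp, Polynomial.neg_comp,
        Polynomial.pow_comp, g_comp w hw])
    (by
      intro j hj1 hjK
      rw [der2_comp w hw, eQ j hj1 hjK, Polynomial.sub_comp, Polynomial.mul_comp,
        Polynomial.pow_comp, g_comp w hw])
    (by
      have h2 := congrArg (fun R : Polynomial k => R.comp (Polynomial.C w⁻¹ * (Polynomial.X - 1))) e1
      simp only [Polynomial.mul_comp, Polynomial.C_comp, Polynomial.neg_comp,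
        Polynomial.pow_comp, g_comp w hw, Polynomial.ofNat_comp] at h2
      exact h2)
    (by
      rw [eK, Polynomial.zero_comp])
  intro j hj1 hjK
  obtain ⟨h2, h3⟩ := hfin j hj1 hjK
  rw [(hPQ j hj1 hjK).1, (hPQ j hj1 hjK).2, zero_of_comp w hw _ h2, zero_of_comp w hw _ h3,
    Polynomial.coe_zero]
  exact ⟨rfl, rfl⟩

end Pool.Agent.Work.MP_abe657_gt.Rev
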