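import Pool.Agent.Work.MP_abe657_gt.Rev.RecQ

/-!
Module RecK (S). The recursion over a field of characteristic zero.

Proof. Suppose `a ≠ 0`. Let `J + 1 ≤ K` be the first index `≥ 1` with `A (J+1) = 0` (exists because `A K = 0`;
`J ≥ 1` as `A 1 = a ≠ 0`). From the recursion for `A (J+1)` (index `j = J - 1`) and `A J ≠ 0`:
`4J + (2J+1) a = 0` or `4J - 1 + 2J a = 0` in `k`, so `a` is the image of the rational number
`-(4J)/(2J+1)` or `-(4J-1)/(2J)`. Define rational sequences `A', S'` by the same recursions starting from this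
rational number (for instance with `Nat.rec` on pairs); their images in `k` are `A, S` (induction on `j`,
`push_cast`). By `rec_case1` or `rec_case2`, `S' K ≠ 0` (as `J < K`), so `S K ≠ 0`, contradiction.
-/

set_option autoImplicit false

namespace Pool.Agent.Work.MP_abe657_gt.Rev

/-- pairs of the rational recursion -/
private def pr (a : ℚ) : ℕ → ℚ × ℚ
  | 0 => (a, -a / 2)
  | (j + 1) => (-((4 * ((j : ℚ) + 1) + (2 * (j + 1) + 1) * a)
      * (4 * (j + 1) - 1 + 2 * (j + 1) * a) * (pr a j).1),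
      (pr a j).1 - (4 * ((j : ℚ) + 1) - 2 + (2 * (j + 1) - 1) * a)
      * (4 * (j + 1) - 3 + (2 * (j + 1) - 2) * a) * (pr a j).2)

theorem rec_zero {k : Type} [Field k] [CharZero k] (a : k) (A S : ℕ → k) (hA1 : A 1 = a)
    (hA : ∀ j : ℕ, A (j + 2) = -((4 * (j + 1) + (2 * (j + 1) + 1) * a)
      * (4 * (j + 1) - 1 + 2 * (j + 1) * a) * A (j + 1)))
    (hS1 : S 1 = -a / 2)
    (hS : ∀ j : ℕ, S (j + 2) = A (j + 1) - (4 * (j + 1) - 2 + (2 * (j + 1) - 1) * a)
      * (4 * (j + 1) - 3 + (2 * (j + 1) - 2) * a) * S (j + 1))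
    (K : ℕ) (hK : 1 ≤ K) (hAK : A K = 0) (hSK : S K = 0) : a = 0 := by
  by_contra ha
  -- the first zero of A
  classical
  have hex : ∃ n, A (n + 1) = 0 := ⟨K - 1, by rw [Nat.sub_add_cancel hK]; exact hAK⟩
  set J := Nat.find hex with hJ
  have hJ0 : A (J + 1) = 0 := Nat.find_spec hex
  have hJmin : ∀ m, m < J → A (m + 1) ≠ 0 := fun m hm => Nat.find_min hex hm
  have hJpos : 1 ≤ J := by
    by_contra h
    have h0 : J = 0 := by omega
    rw [h0, zero_add, hA1] at hJ0
    exact ha hJ0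
  obtain ⟨I, hI⟩ : ∃ I, J = I + 1 := ⟨J - 1, by omega⟩
  have hAI : A (I + 1) ≠ 0 := hJmin I (by omega)
  have hJK : J < K := by
    by_contra h
    have h1 : K - 1 < J := by omega
    have h2 := hJmin (K - 1) h1
    rw [Nat.sub_add_cancel hK] at h2
    exact h2 hAK
  have hzero : (4 * ((I : k) + 1) + (2 * (I + 1) + 1) * a) * (4 * (I + 1) - 1 + 2 * (I + 1) * a) = 0 := by
    have h := hA I
    rw [hI] at hJ0
    have e : I + 1 + 1 = I + 2 := rfl
    rw [e] at hJ0
    rw [hJ0] at h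
    have h2 := neg_eq_zero.mp h.symm
    exact (mul_eq_zero.mp h2).resolve_right hAI
  -- reduction to rational numbers
  have main : ∀ b : ℚ, (b : k) = a → (∀ n, A (n + 1) = ((pr b n).1 : k) ∧ S (n + 1) = ((pr b n).2 : k)) := by
    intro b hb n
    induction n with
    | zero =>
      simp only [zero_add, hA1, hS1, pr]
      refine ⟨hb.symm, ?_⟩
      push_cast
      rw [hb]
    | succ n ih =>
      have e : n + 1 + 1 = n + 2 := rfl
      rw [e, hA n, hS n, ih.1, ih.2]
      simp only [pr]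
      push_cast
      rw [hb]
      exact ⟨rfl, rfl⟩
  have finish : ∀ b : ℚ, (b : k) = a → (∀ A' S' : ℕ → ℚ, A' 1 = b →
      (∀ j : ℕ, A' (j + 2) = -((4 * (j + 1) + (2 * (j + 1) + 1) * b)
      * (4 * (j + 1) - 1 + 2 * (j + 1) * b) * A' (j + 1))) → S' 1 = -b / 2 →
      (∀ j : ℕ, S' (j + 2) = A' (j + 1) - (4 * (j + 1) - 2 + (2 * (j + 1) - 1) * b)
      * (4 * (j + 1) - 3 + (2 * (j + 1) - 2) * b) * S' (j + 1)) → ∀ j, J < j → S' j ≠ 0) → False := by
    intro b hb h
    have h1 := h (fun n => (pr b (n - 1)).1) (fun n => (pr b (n - 1)).2) (by simp [pr])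
      (by intro j; simp only [Nat.add_sub_cancel]; have e : j + 2 - 1 = j + 1 := rfl; rw [e]; simp only [pr])
      (by simp [pr])
      (by intro j; simp only [Nat.add_sub_cancel]; have e : j + 2 - 1 = j + 1 := rfl; rw [e]; simp only [pr]) K hJK
    apply h1
    have h2 := (main b hb (K - 1)).2
    rw [Nat.sub_add_cancel hK, hSK] at h2
    exact_mod_cast h2.symm
  have hJk : ((J : ℕ) : k) = (I : k) + 1 := by rw [hI]; push_cast; ring
  have hJk0 : ((J : ℕ) : k) ≠ 0 := by
    exact_mod_cast (by omega : J ≠ 0)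
  rcases mul_eq_zero.mp hzero with h | h
  · rw [← hJk] at h
    refine finish (-(4 * J) / (2 * J + 1)) ?_ (fun A' S' h1 h2 h3 h4 =>
      (rec_case2 J hJpos _ rfl A' S' h1 h2 h3 h4).2)
    push_cast
    have hne : (2 * (J : k) + 1) ≠ 0 := by
      exact_mod_cast (by omega : 2 * J + 1 ≠ 0)
    rw [div_eq_iff hne]
    linear_combination -h
  · rw [← hJk] at h
    refine finish (-(4 * J - 1) / (2 * J)) ?_ (fun A' S' h1 h2 h3 h4 =>
      (rec_case1 J hJpos _ rfl A' S' h1 h2 h3 h4).2)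
    push_cast
    have hne : (2 * (J : k)) ≠ 0 := mul_ne_zero two_ne_zero hJk0
    rw [div_eq_iff hne]
    linear_combination -h

end Pool.Agent.Work.MP_abe657_gt.Rev
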