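import Pool.Agent.Work.MP_abe657_gt.Rev.FConst
import Pool.Agent.Work.MP_abe657_gt.Rev.RecK

/-!
Module FConstEnd (S). The limit system with constant `h₁ g³/g'²` is flat.

Proof. Define `A, S : ℕ → k` by the recursions (e.g. a sequence of pairs by `Nat.rec`; value at `0` arbitrary).
`f_const_h`, `f_const_e` at `j + 1 = max K 1 = N`: `h N = 0`, `e N = 0`, and `dd (h 0) ≠ 0` (`f_unit`) give `A N = 0`,
`S N = 0`. `rec_zero` gives `a = 0`, so `h 1 * (h 0)^3 = 0` and `h 1 = 0` as `h 0 ≠ 0`.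
-/

set_option autoImplicit false

namespace Pool.Agent.Work.MP_abe657_gt.Rev

open PowerSeries

/-- the two sequences, shifted by one -/
private def seqFC {k : Type} [Field k] (a : k) : ℕ → k × k
  | 0 => (a, -a / 2)
  | j + 1 => (-((4 * ((j : k) + 1) + (2 * ((j : k) + 1) + 1) * a)
      * (4 * ((j : k) + 1) - 1 + 2 * ((j : k) + 1) * a) * (seqFC a j).1),
      (seqFC a j).1 - (4 * ((j : k) + 1) - 2 + (2 * ((j : k) + 1) - 1) * a)
      * (4 * ((j : k) + 1) - 3 + (2 * ((j : k) + 1) - 2) * a) * (seqFC a j).2)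

theorem f_const_end {k : Type} [Field k] [CharZero k] {h : ℕ → PowerSeries k} {ε : PowerSeries k}
    {e : ℕ → PowerSeries k} {K : ℕ} (hF : FSys h ε e K) (a : k)
    (ha : h 1 * (h 0) ^ 3 = C a * (dd (h 0)) ^ 2) : h 1 = 0 := by
  have hg' : dd (h 0) ≠ 0 := by
    intro h0
    apply (f_unit hF).1
    rw [h0, map_zero]
  have hg : h 0 ≠ 0 := by
    intro h0
    apply hF.g0
    rw [h0, map_zero]
  let A : ℕ → k := fun n => (seqFC a (n - 1)).1
  let S : ℕ → k := fun n => (seqFC a (n - 1)).2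
  have hA1 : A 1 = a := rfl
  have hS1 : S 1 = -a / 2 := rfl
  have hA : ∀ j : ℕ, A (j + 2) = -((4 * (j + 1) + (2 * (j + 1) + 1) * a)
      * (4 * (j + 1) - 1 + 2 * (j + 1) * a) * A (j + 1)) := fun j => rfl
  have hS : ∀ j : ℕ, S (j + 2) = A (j + 1) - (4 * (j + 1) - 2 + (2 * (j + 1) - 1) * a)
      * (4 * (j + 1) - 3 + (2 * (j + 1) - 2) * a) * S (j + 1) := fun j => rfl
  have h1 := f_const_h hF a ha A hA1 hA K
  have h2 := f_const_e hF a ha A hA1 hA S hS1 hS K
  rw [hF.hK (K + 1) (by omega) (by omega), zero_mul] at h1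
  rw [hF.eK (K + 1) (by omega) (by omega), zero_mul] at h2
  have h3 : A (K + 1) = 0 := by
    have h4 := (mul_eq_zero.1 h1.symm).resolve_right (pow_ne_zero _ hg')
    have h5 := congrArg constantCoeff h4
    rwa [constantCoeff_C, map_zero] at h5
  have h4 : S (K + 1) = 0 := by
    have h4 := (mul_eq_zero.1 h2.symm).resolve_right (pow_ne_zero _ hg')
    have h5 := congrArg constantCoeff h4
    rwa [constantCoeff_C, map_zero] at h5
  have h5 := rec_zero a A S hA1 hA hS1 hS (K + 1) (by omega) h3 h4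
  rw [h5, map_zero, zero_mul] at ha
  exact (mul_eq_zero.1 ha).resolve_right (pow_ne_zero _ hg)

end Pool.Agent.Work.MP_abe657_gt.Rev
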