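import Pool.Agent.Work.MP_abe657_gt.Rev.FNon
import Pool.Agent.Work.MP_abe657_gt.Rev.FConstEnd

/-!
Assembly (helper77): rigidity of the limit system.
-/

set_option autoImplicit false

namespace Pool.Agent.Work.MP_abe657_gt.Rev

open PowerSeries

theorem prop_f {k : Type} [Field k] [CharZero k] [IsAlgClosed k] {h : ℕ → PowerSeries k}
    {ε : PowerSeries k} {e : ℕ → PowerSeries k} {K : ℕ} (hF : FSys h ε e K) : h 1 = 0 := by
  obtain ⟨a, ha⟩ := f_const hF
  exact f_const_end hF a ha

end Pool.Agent.Work.MP_abe657_gt.Rev
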