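import Pool.Agent.Work.MP_abe657_gt.Rev.LinV
import Pool.Agent.Work.MP_abe657_gt.Rev.LinInt
import Pool.Agent.Work.MP_abe657_gt.Rev.LinShift
import Pool.Agent.Work.MP_abe657_gt.Rev.Lim
import Pool.Agent.Work.MP_abe657_gt.Rev.PropF

/-!
Module LinEnd (M). The scaled system is contradictory.

Proof. `hF := limit_sys h`, `prop_f hF : red (Y 1) = 0`, `f_flat hF _`: with `w ≠ 0`: `dd (red (Y 0)) = C w`,
`red (Y 0) = C (constantCoeff (red (Y 0))) + C w * X = 1 + C w * X` (`y0`: the constant coefficient is `rs 1 = 1`).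
`v` from `exists_v`; `lin_y_int`, `lin_e_int`: `C v * Y j`, `C v * E j` in `OP` for `1 ≤ j ≤ K + 1`.
`η j = red (C v * Y j)`, `ζ j = red (C v * E j)`. Equations for `1 ≤ j ≤ K`: `C v` times `yy j`, reduced
(`C v` commutes with `dd` by `dd_C_mul`; `rs (π^2) = 0`); `C v` times `eeq2 j`, reduced. `η (K+1) = ζ (K+1) = 0`.
`C v` times `eeq4`: `(C v E 1)(2 dd (Y 0) - C (π^2) ε) + ε (2 (C v Y 1) - C (π^2) (C v E 1)) = 0`, reduced:
`2 ζ 1 dd g + 2 red ε η 1 = 0`, `g = red (Y 0)`; times `dd g`, with `ε1`: `2 red ε dd g = g²`: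
`2 ζ 1 (dd g)² = - g² η 1`, i.e. `2 * C (w^2) * ζ 1 = -(1 + C w X)^2 η 1`. `lin_contra`: all `η j = ζ j = 0`,
contradiction with the nonzero residue in `exists_v` (`coeff_red`, `coeff_C_mul`).
-/

set_option autoImplicit false

namespace Pool.Agent.Work.MP_abe657_gt.Rev

open PowerSeries

theorem esys_false {k : Type} [Field k] [CharZero k] [IsAlgClosed k] {π κ ι : HahnSeries ℚ k}
    {K : ℕ} {p : ℕ → HahnSeries ℚ k} {Y W : ℕ → PowerSeries (HahnSeries ℚ k)}
    {ε : PowerSeries (HahnSeries ℚ k)} {E : ℕ → PowerSeries (HahnSeries ℚ k)}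
    (h : ESys π κ ι K p Y W ε E) : False := by
  have hF := limit_sys h
  have hY1 : red (Y 1) = 0 := prop_f hF
  obtain ⟨-, -, w, hw, hdg, hg⟩ := f_flat hF hY1
  have hg0 : red (Y 0) = 1 + C w * X := by
    have h1 : constantCoeff (red (Y 0)) = 1 := by
      rw [← coeff_zero_eq_constantCoeff_apply, coeff_red, coeff_zero_eq_constantCoeff_apply,
        h.ys.y0, rs_one]
    rw [h1, map_one] at hg
    exact hg
  obtain ⟨v, -, hv, hvu⟩ := exists_v π κ K p Y W h.ys E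
  obtain ⟨hYI, hYK⟩ := lin_y_int h v (fun j h1 h2 => ⟨(hv j h1 h2).1, (hv j h1 h2).2.1⟩)
  obtain ⟨hEI, hEK⟩ := lin_e_int h v hYI
    (fun j h1 h2 => ⟨(hv j h1 h2).2.2.1, (hv j h1 h2).2.2.2⟩)
  have hK1 := h.ys.K1
  have hπO : π ^ 2 ∈ OO k := Subring.pow_mem _ h.ys.πO 2
  have hπr : rs (π ^ 2) = 0 := by
    rw [pow_two, rs_mul h.ys.πO h.ys.πO, h.ys.πr, mul_zero]
  have hη : ∀ j, 1 ≤ j → j ≤ K → dd (dd (red (C v * Y j))) =
      -(1 + C w * X) ^ 2 * red (C v * Y (j + 1)) := by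
    intro j h1 h2
    have e1 : dd (dd (C v * Y j)) =
        C (π ^ 2) * (C v * Y j) - Y 0 * Y 0 * (C v * Y (j + 1)) := by
      rw [dd_C_mul, dd_C_mul, h.ys.yy j]
      ring
    have e2 := congrArg red e1
    rw [red_dd, red_dd, red_sub, red_mul (C_mem_OP hπO) (hYI j h1 (by omega)),
      red_mul (Subring.mul_mem _ (h.yO 0) (h.yO 0)) (hYI (j + 1) (by omega) (by omega)),
      red_mul (h.yO 0) (h.yO 0), red_C, hπr, map_zero, zero_mul, hg0] at e2
    rw [e2]
    ring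
  have hζ : ∀ j, 1 ≤ j → j ≤ K → dd (dd (red (C v * E j))) =
      red (C v * Y j) - (1 + C w * X) ^ 2 * red (C v * E (j + 1)) := by
    intro j h1 h2
    have e1 : dd (dd (C v * E j)) = C v * Y j - Y 0 * Y 0 * (C v * E (j + 1)) := by
      rw [dd_C_mul, dd_C_mul, eeq2 h j h1]
      ring
    have e2 := congrArg red e1
    rw [red_dd, red_dd, red_sub,
      red_mul (Subring.mul_mem _ (h.yO 0) (h.yO 0)) (hEI (j + 1) (by omega) (by omega)),
      red_mul (h.yO 0) (h.yO 0), hg0] at e2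
    rw [e2]
    ring
  have h1 : 2 * C (w ^ 2) * red (C v * E 1) = -(1 + C w * X) ^ 2 * red (C v * Y 1) := by
    have e1 : C v * E 1 * (dd (Y 0) + dd (Y 0) - C (π ^ 2) * ε) +
        ε * (C v * Y 1 + C v * Y 1 - C (π ^ 2) * (C v * E 1)) = 0 := by
      linear_combination C v * eeq4 h
    have hdY : dd (Y 0) ∈ OP k := dd_mem_OP (h.yO 0)
    have hY1I := hYI 1 le_rfl (by omega)
    have hE1I := hEI 1 le_rfl (by omega)
    have hπI := C_mem_OP hπO
    have e2 := congrArg red e1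
    rw [red_add, red_mul hE1I (Subring.sub_mem _ (Subring.add_mem _ hdY hdY)
      (Subring.mul_mem _ hπI h.εO)), red_mul h.εO (Subring.sub_mem _
      (Subring.add_mem _ hY1I hY1I) (Subring.mul_mem _ hπI hE1I)), red_sub, red_sub, red_add,
      red_add, red_mul hπI h.εO, red_mul hπI hE1I, red_C, hπr, map_zero, zero_mul, zero_mul,
      red_zero, red_dd, hdg] at e2
    have e3 := hF.ε1
    rw [hdg, hg0] at e3
    rw [map_pow]
    linear_combination C w * e2 - red (C v * Y 1) * e3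
  have hfin := lin_contra w hw K (fun j => red (C v * Y j)) (fun j => red (C v * E j)) hη hζ
    hYK hEK h1
  obtain ⟨j, hj1, hj2, hj⟩ := hvu
  obtain ⟨hy, he⟩ := hfin j hj1 (by omega)
  have hc : ∀ (f : PowerSeries (HahnSeries ℚ k)) (n : ℕ), red (C v * f) = 0 →
      rs (v * coeff n f) = 0 := by
    intro f n hf
    have h2 := congrArg (coeff n) hf
    rwa [coeff_red, coeff_C_mul, map_zero] at h2
  rcases hj with h2 | h2 | h2 | h2
  · exact h2 (hc _ _ hy)
  · exact h2 (hc _ _ hy)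
  · exact h2 (hc _ _ he)
  · exact h2 (hc _ _ he)

end Pool.Agent.Work.MP_abe657_gt.Rev
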