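import Pool.Agent.Work.MP_abe657_gt.Rev.AlgA
import Pool.Agent.Work.MP_abe657_gt.Rev.AlgB
import Pool.Agent.Work.MP_abe657_gt.Rev.EmbC
import Pool.Agent.Work.MP_abe657_gt.Rev.ESysMk
import Pool.Agent.Work.MP_abe657_gt.Rev.LinEnd

/-!
Assembly (helper77): the algebraic core.
-/

set_option autoImplicit false

namespace Pool.Agent.Work.MP_abe657_gt.Rev

theorem alg_core {F : Type} [Field F] [Algebra ℂ F] (D : Derivation ℂ F F) (y w : ℕ → F)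
    (P : Polynomial ℂ) (hP : P.Monic) (hP0 : P.eval 0 ≠ 0) (hy0 : y 0 ≠ 0)
    (hy : ∀ j, D (D (y j)) = y j - (y 0) ^ 2 * y (j + 1))
    (hw : ∀ j, D (D (w j)) = -(y 0) ^ 2 * w (j + 1))
    (harc : (D (y 0)) ^ 2 + (D (w 0)) ^ 2 = (y 0) ^ 2)
    (hyP : ∀ j, ∑ i ∈ Finset.range (P.natDegree + 1), P.coeff i • y (i + j) = 0)
    (hwP : ∀ j, ∑ i ∈ Finset.range (P.natDegree + 1), P.coeff i • w (i + j) = 0) :
    ¬ AlgebraicIndependent ℂ ![y 0, w 0] := by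
  intro hind
  obtain ⟨j, hj, htr⟩ := exists_coord (y 0) w P hP0 hy0 (by simpa using hwP 0) hind
  obtain ⟨k₁, i1, i2, i3, σ, h1, h2, h3⟩ := exists_emb (y 0) _ htr
  obtain ⟨π, κ, p, Y, W, hY⟩ :=
    exists_ysys D y w P hP hP0 hy0 hy hw harc hyP hwP σ h1 h2 j hj h3
  obtain ⟨ι, ε, E, hE⟩ := exists_esys π κ P.natDegree p Y W hY
  exact esys_false hE

end Pool.Agent.Work.MP_abe657_gt.Rev
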