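import Mathlib

/-!
Definitions and the basic kit for the theorem on compact finite type surfaces of revolution
(MP_abe657_gt, helper77).

`L = HahnSeries ℚ k` is the coefficient field, `OO k` its valuation ring, `rs` the residue map
(coefficient of exponent `0`), `OP k` the ring of power series with coefficients in `OO k`, `red` the
coefficientwise residue map to `PowerSeries k`. `dd` is the formal derivative of power series.
-/

set_option autoImplicit false

namespace Pool.Agent.Work.MP_abe657_gt.Rev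

open PowerSeries

/-! ### the valuation ring of the field of Hahn series -/

section hahn

variable {k : Type} [Field k]

/-- the valuation ring: no negative exponents -/
def OO (k : Type) [Field k] : Subring (HahnSeries ℚ k) where
  carrier := {x | ∀ q : ℚ, q < 0 → x.coeff q = 0}
  mul_mem' := by
    intro x y hx hy q hq
    rw [HahnSeries.coeff_mul]
    refine Finset.sum_eq_zero fun ij hij => ?_
    have h : ij.1 + ij.2 = q := (Finset.mem_antidiagonal.mp hij).2.2
    by_cases h1 : ij.1 < 0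
    · rw [hx _ h1, zero_mul]
    · rw [hy _ (by linarith), mul_zero]
  one_mem' := by
    intro q hq
    rw [HahnSeries.coeff_one, if_neg hq.ne]
  add_mem' := by
    intro x y hx hy q hq
    rw [HahnSeries.coeff_add, hx q hq, hy q hq, add_zero]
  zero_mem' := fun q _ => HahnSeries.coeff_zero
  neg_mem' := by
    intro x hx q hq
    rw [HahnSeries.coeff_neg, hx q hq, neg_zero]

lemma mem_OO {x : HahnSeries ℚ k} : x ∈ OO k ↔ ∀ q : ℚ, q < 0 → x.coeff q = 0 := Iff.rfl

/-- residue: the coefficient of exponent `0` -/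
def rs (x : HahnSeries ℚ k) : k := x.coeff 0

@[simp] lemma rs_add (x y : HahnSeries ℚ k) : rs (x + y) = rs x + rs y := HahnSeries.coeff_add
@[simp] lemma rs_neg (x : HahnSeries ℚ k) : rs (-x) = -rs x := HahnSeries.coeff_neg
@[simp] lemma rs_sub (x y : HahnSeries ℚ k) : rs (x - y) = rs x - rs y := HahnSeries.coeff_sub
@[simp] lemma rs_zero : rs (0 : HahnSeries ℚ k) = 0 := HahnSeries.coeff_zero
@[simp] lemma rs_one : rs (1 : HahnSeries ℚ k) = 1 := by
  rw [rs, HahnSeries.coeff_one, if_pos rfl]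

lemma rs_mul {x y : HahnSeries ℚ k} (hx : x ∈ OO k) (hy : y ∈ OO k) :
    rs (x * y) = rs x * rs y := by
  rw [rs, HahnSeries.coeff_mul]
  by_cases h : x.coeff 0 = 0 ∨ y.coeff 0 = 0
  · have h0 : rs x * rs y = 0 := by
      rcases h with h | h
      · rw [rs, h, zero_mul]
      · rw [rs, rs, h, mul_zero]
    rw [h0]
    refine Finset.sum_eq_zero fun ij hij => ?_
    have hs : ij.1 + ij.2 = 0 := (Finset.mem_antidiagonal.mp hij).2.2
    rcases lt_trichotomy ij.1 0 with h1 | h1 | h1
    · rw [hx _ h1, zero_mul]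
    · have h2 : ij.2 = 0 := by rw [h1, zero_add] at hs; exact hs
      rw [h1, h2]
      exact h0
    · rw [hy _ (by linarith), mul_zero]
  · push Not at h
    rw [Finset.sum_eq_single (0, 0)]
    · rfl
    · intro ij hij hne
      have hs : ij.1 + ij.2 = 0 := (Finset.mem_antidiagonal.mp hij).2.2
      rcases lt_trichotomy ij.1 0 with h1 | h1 | h1
      · rw [hx _ h1, zero_mul]
      · exfalso
        apply hne
        have h2 : ij.2 = 0 := by rw [h1, zero_add] at hs; exact hs
        exact Prod.ext h1 h2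
      · rw [hy _ (by linarith), mul_zero]
    · intro hn
      exfalso
      exact hn (Finset.mem_antidiagonal.mpr
        ⟨h.1, h.2, add_zero 0⟩)

lemma C_mem_OO (c : k) : (HahnSeries.C c : HahnSeries ℚ k) ∈ OO k := by
  intro q hq
  rw [HahnSeries.C_apply, HahnSeries.coeff_single_of_ne hq.ne]

@[simp] lemma rs_C (c : k) : rs (HahnSeries.C c : HahnSeries ℚ k) = c := by
  rw [rs, HahnSeries.C_apply, HahnSeries.coeff_single_same]

/-- element of the valuation ring with residue different from zero have their inverse in the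
valuation ring -/
lemma inv_mem_OO {x : HahnSeries ℚ k} (hx : x ∈ OO k) (h0 : rs x ≠ 0) : x⁻¹ ∈ OO k := by
  have hx0 : x ≠ 0 := by
    rintro rfl
    exact h0 rs_zero
  have hord : x.order = 0 := by
    apply le_antisymm
    · exact HahnSeries.order_le_of_coeff_ne_zero h0
    · by_contra h
      push Not at h
      exact (HahnSeries.coeff_order_eq_zero.not.mpr hx0) (hx _ h)
  intro q hq
  by_contra hne
  have h1 : (x⁻¹).order ≤ q := HahnSeries.order_le_of_coeff_ne_zero hne
  have h2 : (x * x⁻¹).order = x.order + (x⁻¹).order :=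
    HahnSeries.order_mul hx0 (inv_ne_zero hx0)
  rw [mul_inv_cancel₀ hx0, HahnSeries.order_one, hord] at h2
  linarith

end hahn

/-! ### power series over Hahn series -/

/-- the formal derivative of power series -/
noncomputable def dd {R : Type} [CommRing R] (f : PowerSeries R) : PowerSeries R :=
  PowerSeries.derivative R f

section derivative

variable {R : Type} [CommRing R]

lemma coeff_dd (f : PowerSeries R) (n : ℕ) : coeff n (dd f) = coeff (n + 1) f * (n + 1) :=
  PowerSeries.coeff_derivative f n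

lemma dd_add (f g : PowerSeries R) : dd (f + g) = dd f + dd g := map_add _ f g

lemma dd_mul (f g : PowerSeries R) : dd (f * g) = f * dd g + g * dd f := by
  rw [dd, Derivation.leibniz]
  simp only [smul_eq_mul, dd]

@[simp] lemma dd_C (a : R) : dd (C a) = 0 := by
  rw [dd, PowerSeries.derivative_C]

@[simp] lemma dd_zero : dd (0 : PowerSeries R) = 0 := by
  have h := dd_C (0 : R)
  rwa [map_zero] at h

lemma dd_neg (f : PowerSeries R) : dd (-f) = -dd f := by
  have h := dd_add f (-f)
  rw [add_neg_cancel, dd_zero] at h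
  exact (neg_eq_of_add_eq_zero_right h.symm).symm

lemma dd_sub (f g : PowerSeries R) : dd (f - g) = dd f - dd g := by
  rw [sub_eq_add_neg, dd_add, dd_neg, ← sub_eq_add_neg]

lemma dd_C_mul (a : R) (f : PowerSeries R) : dd (C a * f) = C a * dd f := by
  rw [dd_mul, dd_C, mul_zero, add_zero]

lemma dd_sum {ι : Type} (s : Finset ι) (f : ι → PowerSeries R) :
    dd (∑ i ∈ s, f i) = ∑ i ∈ s, dd (f i) := by
  classical
  induction s using Finset.induction_on with
  | empty => simp
  | insert i s hi ih => rw [Finset.sum_insert hi, Finset.sum_insert hi, dd_add, ih]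

end derivative

section reduction

variable {k : Type} [Field k]

/-- power series with coefficients in the valuation ring -/
noncomputable def OP (k : Type) [Field k] : Subring (PowerSeries (HahnSeries ℚ k)) where
  carrier := {f | ∀ n, coeff n f ∈ OO k}
  mul_mem' := by
    intro f g hf hg n
    rw [coeff_mul]
    exact Subring.sum_mem _ fun ij _ => Subring.mul_mem _ (hf _) (hg _)
  one_mem' := by
    intro n
    rw [coeff_one]
    split_ifs
    · exact Subring.one_mem _
    · exact Subring.zero_mem _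
  add_mem' := by
    intro f g hf hg n
    rw [map_add]
    exact Subring.add_mem _ (hf n) (hg n)
  zero_mem' := by
    intro n
    rw [map_zero]
    exact Subring.zero_mem _
  neg_mem' := by
    intro f hf n
    rw [map_neg]
    exact Subring.neg_mem _ (hf n)

lemma mem_OP {f : PowerSeries (HahnSeries ℚ k)} : f ∈ OP k ↔ ∀ n, coeff n f ∈ OO k := Iff.rfl

lemma C_mem_OP {a : HahnSeries ℚ k} (ha : a ∈ OO k) : C a ∈ OP k := by
  intro n
  rw [coeff_C]
  split_ifs
  · exact ha
  · exact Subring.zero_mem _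

lemma dd_mem_OP {f : PowerSeries (HahnSeries ℚ k)} (hf : f ∈ OP k) : dd f ∈ OP k := by
  intro n
  rw [coeff_dd]
  refine Subring.mul_mem _ (hf _) ?_
  exact Subring.add_mem _ (natCast_mem _ n) (Subring.one_mem _)

/-- reduction of power series: coefficientwise residue -/
noncomputable def red (f : PowerSeries (HahnSeries ℚ k)) : PowerSeries k := PowerSeries.mk fun n => rs (coeff n f)

@[simp] lemma coeff_red (f : PowerSeries (HahnSeries ℚ k)) (n : ℕ) :
    coeff n (red f) = rs (coeff n f) := by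
  rw [red, coeff_mk]

lemma red_add (f g : PowerSeries (HahnSeries ℚ k)) : red (f + g) = red f + red g := by
  ext n
  simp

lemma red_neg (f : PowerSeries (HahnSeries ℚ k)) : red (-f) = -red f := by
  ext n
  simp

lemma red_sub (f g : PowerSeries (HahnSeries ℚ k)) : red (f - g) = red f - red g := by
  ext n
  simp

@[simp] lemma red_zero : red (0 : PowerSeries (HahnSeries ℚ k)) = 0 := by
  ext n
  simp

lemma rs_sum {ι : Type} (s : Finset ι) (f : ι → HahnSeries ℚ k) :
    rs (∑ i ∈ s, f i) = ∑ i ∈ s, rs (f i) := by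
  classical
  induction s using Finset.induction_on with
  | empty => simp
  | insert i s hi ih => rw [Finset.sum_insert hi, Finset.sum_insert hi, rs_add, ih]

lemma red_mul {f g : PowerSeries (HahnSeries ℚ k)} (hf : f ∈ OP k) (hg : g ∈ OP k) :
    red (f * g) = red f * red g := by
  ext n
  rw [coeff_red, coeff_mul, coeff_mul, rs_sum]
  refine Finset.sum_congr rfl fun ij _ => ?_
  rw [rs_mul (hf _) (hg _), coeff_red, coeff_red]

lemma red_C (a : HahnSeries ℚ k) : red (C a) = C (rs a) := by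
  ext n
  rw [coeff_red, coeff_C, coeff_C]
  split_ifs
  · rfl
  · exact rs_zero

lemma rs_mul_natCast (x : HahnSeries ℚ k) (n : ℕ) : rs (x * (n : HahnSeries ℚ k)) = rs x * n := by
  induction n with
  | zero => simp
  | succ n ih => rw [Nat.cast_succ, mul_add, rs_add, ih, mul_one, Nat.cast_succ, mul_add, mul_one]

lemma red_dd (f : PowerSeries (HahnSeries ℚ k)) : red (dd f) = dd (red f) := by
  ext n
  rw [coeff_red, coeff_dd, coeff_dd, coeff_red]
  have h : ((n : HahnSeries ℚ k) + 1) = ((n + 1 : ℕ) : HahnSeries ℚ k) := by push_cast; ring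
  rw [h, rs_mul_natCast]
  push_cast
  ring

end reduction

/-! ### the two systems -/

/-- The limit system (F): `h 0 = g` is the radius of the limit curve, `ε` and the `e j` belong to the
null coordinate. -/
structure FSys {k : Type} [Field k] (h : ℕ → PowerSeries k) (ε : PowerSeries k)
    (e : ℕ → PowerSeries k) (K : ℕ) : Prop where
  g0 : constantCoeff (h 0) ≠ 0
  hh : ∀ j, dd (dd (h j)) = -(h 0) ^ 2 * h (j + 1)
  ε1 : 2 * ε * dd (h 0) = (h 0) ^ 2
  ε2 : dd ε = h 0 - (h 0) ^ 2 * e 1
  ee : ∀ j, dd (dd (e (j + 1))) = h (j + 1) - (h 0) ^ 2 * e (j + 2)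
  hK : ∀ j, K ≤ j → 1 ≤ j → h j = 0
  eK : ∀ j, K ≤ j → 1 ≤ j → e j = 0

/-- The scaled system over the field of Hahn series: `Y 0` is the radius, `W 0` the height of the
profile curve, `Y j`, `W j` their iterated Laplacians. -/
structure YSys {k : Type} [Field k] (π κ : HahnSeries ℚ k) (K : ℕ) (p : ℕ → HahnSeries ℚ k)
    (Y W : ℕ → PowerSeries (HahnSeries ℚ k)) : Prop where
  π0 : π ≠ 0
  πO : π ∈ OO k
  πr : rs π = 0
  κO : κ ∈ OO k
  κr : rs κ = 0
  κ0 : κ ≠ 0
  pO : ∀ i, p i ∈ OO k
  pK : p K = 1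
  p0 : p 0 ≠ 0
  K1 : 1 ≤ K
  y0 : constantCoeff (Y 0) = 1
  yy : ∀ j, dd (dd (Y j)) = C (π ^ 2) * Y j - (Y 0) ^ 2 * Y (j + 1)
  ww : ∀ j, dd (dd (W j)) = -(Y 0) ^ 2 * W (j + 1)
  arc : (dd (Y 0)) ^ 2 + (dd (W 0)) ^ 2 = C (π ^ 2) * (Y 0) ^ 2
  yp : ∀ j, ∑ i ∈ Finset.range (K + 1), C (p i * κ ^ (K - i)) * Y (i + j) = 0
  wp : ∀ j, ∑ i ∈ Finset.range (K + 1), C (p i * κ ^ (K - i)) * W (i + j) = 0
  iy0 : coeff 1 (Y 0) ∈ OO k
  iw0 : coeff 1 (W 0) ∈ OO k
  iy : ∀ j, 1 ≤ j → j ≤ K → coeff 0 (Y j) ∈ OO k ∧ coeff 1 (Y j) ∈ OO k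
  iw : ∀ j, 1 ≤ j → j ≤ K → coeff 0 (W j) ∈ OO k ∧ coeff 1 (W j) ∈ OO k
  unit : rs (coeff 1 (Y 0)) ≠ 0 ∨ rs (coeff 1 (W 0)) ≠ 0 ∨
    ∃ j, 1 ≤ j ∧ j ≤ K ∧ (rs (coeff 0 (Y j)) ≠ 0 ∨ rs (coeff 1 (Y j)) ≠ 0 ∨
      rs (coeff 0 (W j)) ≠ 0 ∨ rs (coeff 1 (W j)) ≠ 0)

/-- the conclusion of the first reduction step: `ι² = -1`, and the power series
`ε = (Y₀' + ι W₀')/π²`, `E j = (Y j + ι W j)/π²` (`j ≥ 1`) have coefficients in the valuation ring -/
structure ESys {k : Type} [Field k] (π κ ι : HahnSeries ℚ k) (K : ℕ) (p : ℕ → HahnSeries ℚ k)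
    (Y W : ℕ → PowerSeries (HahnSeries ℚ k)) (ε : PowerSeries (HahnSeries ℚ k))
    (E : ℕ → PowerSeries (HahnSeries ℚ k)) : Prop where
  ys : YSys π κ K p Y W
  ι2 : ι ^ 2 = -1
  ιO : ι ∈ OO k
  εdef : C (π ^ 2) * ε = dd (Y 0) + C ι * dd (W 0)
  edef : ∀ j, 1 ≤ j → C (π ^ 2) * E j = Y j + C ι * W j
  yO : ∀ j, Y j ∈ OP k
  wO : ∀ j, 1 ≤ j → W j ∈ OP k
  w0O : dd (W 0) ∈ OP k
  εO : ε ∈ OP k
  eO : ∀ j, 1 ≤ j → E j ∈ OP k

end Pool.Agent.Work.MP_abe657_gt.Rev
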