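import Pool.Agent.Work.MP_abe657_gt.Rev.Defs

/-!
Module EmbA (M, Mathlib only). A large subfield over which a given element stays transcendental.

Proof. `{x}` is algebraically independent over `k`; extend it to a transcendence basis `B ∋ x` of `F`
over `k` (`exists_isTranscendenceBasis_superset` or similar). Put `E = k(B \ {x})`
(`IntermediateField.adjoin`). Then `x` is transcendental over `E` (`AlgebraicIndependent.transcendental_adjoin`
gives this over the subalgebra generated by `B \ {x}`; pass to its fraction field, e.g. because an element
algebraic over `Frac A` is algebraic over `A`), and `F` is algebraic over `k(B) = E(x)`.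
-/

set_option autoImplicit false

namespace Pool.Agent.Work.MP_abe657_gt.Rev

theorem exists_big_subfield {k F : Type} [Field k] [Field F] [Algebra k F] (x : F)
    (hx : Transcendental k x) :
    ∃ E : IntermediateField k F, Transcendental E x ∧
      Algebra.IsAlgebraic (IntermediateField.adjoin E {x}) F := by
  have hs : AlgebraicIndepOn k id ({x} : Set F) :=
    algebraicIndependent_unique_type_iff.2 hx
  obtain ⟨B, hxB, hB⟩ := exists_isTranscendenceBasis_superset hs
  have hx0 : x ∈ B := hxB rfl
  refine ⟨IntermediateField.adjoin k (B \ {x}), ?_, ?_⟩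
  · rw [IntermediateField.transcendental_adjoin_iff]
    have h1 := hB.1.transcendental_adjoin (s := {b : B | b.1 ≠ x}) (i := ⟨x, hx0⟩)
      (fun h => h rfl)
    have h2 : (fun b : B => (b : F)) '' {b : B | b.1 ≠ x} = B \ {x} := by
      ext a
      constructor
      · rintro ⟨b, hb, rfl⟩
        exact ⟨b.2, hb⟩
      · rintro ⟨h1, h2⟩
        exact ⟨⟨a, h1⟩, h2, rfl⟩
    rw [h2] at h1
    exact h1
  · have halg := hB.isAlgebraic_field
    have hle : IntermediateField.adjoin k (Set.range ((↑) : B → F)) ≤
        (IntermediateField.adjoin (IntermediateField.adjoin k (B \ {x})) {x}).restrictScalars k := by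
      rw [IntermediateField.adjoin_le_iff]
      rintro _ ⟨b, rfl⟩
      by_cases hb : b.1 = x
      · rw [hb]
        exact IntermediateField.subset_adjoin _ _ rfl
      · have h1 : b.1 ∈ IntermediateField.adjoin k (B \ {x}) :=
          IntermediateField.subset_adjoin _ _ ⟨b.2, hb⟩
        exact (IntermediateField.adjoin (IntermediateField.adjoin k (B \ {x})) {x}).algebraMap_mem
          ⟨b.1, h1⟩
    refine ⟨fun a => ?_⟩
    obtain ⟨p, hp, hpa⟩ := halg.isAlgebraic a
    refine ⟨p.map (IntermediateField.inclusion hle).toRingHom, ?_, ?_⟩
    · exact (Polynomial.map_ne_zero_iff (IntermediateField.inclusion hle).toRingHom.injective).2 hp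
    · rw [← hpa, Polynomial.aeval_def, Polynomial.aeval_def, Polynomial.eval₂_map]
      rfl

end Pool.Agent.Work.MP_abe657_gt.Rev
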