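import Pool.Agent.Work.MP_abe657_gt.Rev.Defs
import Pool.Agent.Work.MP_abe657_gt.Rev.Uniq

/-!
Module FBasic (S). First consequences of the limit system.

Proof. (1) `ε1` at the constant coefficient: `2 ε(0) g'(0) = g(0)² ≠ 0`. (2) Differentiate `ε1`:
`2 dd ε * dd g + 2 ε * dd dd g = 2 g dd g`; insert `ε2`: `-2 g² e1 dd g + 2 ε dd dd g = 0`; multiply by `dd g`
and use `ε1` again: `-2 g² e1 (dd g)² + g² dd dd g = 0`; cancel `g² ≠ 0`: `2 e1 (dd g)² = dd dd g`.
(3) If `h 1 = 0` then (induction, `hh`, cancel `g²`) all `h (j+1) = 0`; `dd (dd g) = 0` so `dd g = C w`,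
`w = constantCoeff (dd g) ≠ 0` (by `eq_C_of_dd`), `e 1 = 0` by (2) and the fact that `(dd g)² ≠ 0`, all
`e (j+1) = 0` by `ee`, and `g = C g(0) + C w * X` (`dd (g - C w * X) = 0`).
-/

set_option autoImplicit false

namespace Pool.Agent.Work.MP_abe657_gt.Rev

open PowerSeries

private theorem g_ne {k : Type} [Field k] {h : ℕ → PowerSeries k} {ε : PowerSeries k}
    {e : ℕ → PowerSeries k} {K : ℕ} (hF : FSys h ε e K) : h 0 ≠ 0 := by
  intro h0
  apply hF.g0
  rw [h0, map_zero]

theorem f_unit {k : Type} [Field k] [CharZero k] {h : ℕ → PowerSeries k} {ε : PowerSeries k}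
    {e : ℕ → PowerSeries k} {K : ℕ} (hF : FSys h ε e K) :
    constantCoeff (dd (h 0)) ≠ 0 ∧ constantCoeff ε ≠ 0 := by
  have h1 := congrArg constantCoeff hF.ε1
  rw [map_mul, map_mul, map_pow] at h1
  constructor
  · intro h0
    rw [h0, mul_zero] at h1
    exact hF.g0 (pow_eq_zero_iff (two_ne_zero) |>.1 h1.symm)
  · intro h0
    rw [h0, mul_zero, zero_mul] at h1
    exact hF.g0 (pow_eq_zero_iff (two_ne_zero) |>.1 h1.symm)

theorem f_e1 {k : Type} [Field k] [CharZero k] {h : ℕ → PowerSeries k} {ε : PowerSeries k}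
    {e : ℕ → PowerSeries k} {K : ℕ} (hF : FSys h ε e K) :
    2 * e 1 * (dd (h 0)) ^ 2 = dd (dd (h 0)) := by
  have H2 := hF.ε1
  have H1 : dd (ε * dd (h 0) + ε * dd (h 0)) = dd (h 0 * h 0) := by
    congr 1
    linear_combination H2
  rw [dd_add, dd_mul, dd_mul, hF.ε2] at H1
  apply mul_left_cancel₀ (pow_ne_zero 2 (g_ne hF))
  linear_combination (-dd (h 0)) * H1 + dd (dd (h 0)) * H2

theorem f_flat {k : Type} [Field k] [CharZero k] {h : ℕ → PowerSeries k} {ε : PowerSeries k}
    {e : ℕ → PowerSeries k} {K : ℕ} (hF : FSys h ε e K) (h1 : h 1 = 0) :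
    (∀ j, h (j + 1) = 0) ∧ (∀ j, e (j + 1) = 0) ∧
      ∃ w : k, w ≠ 0 ∧ dd (h 0) = C w ∧ h 0 = C (constantCoeff (h 0)) + C w * X := by
  have hg := g_ne hF
  have hh : ∀ j, h (j + 1) = 0 := by
    intro j
    induction j with
    | zero => exact h1
    | succ j ih =>
      have h2 := hF.hh (j + 1)
      rw [ih, dd_zero, dd_zero] at h2
      have h3 : (h 0) ^ 2 * h (j + 1 + 1) = 0 := by linear_combination h2
      exact (mul_eq_zero.1 h3).resolve_left (pow_ne_zero 2 hg)
  have hdd : dd (dd (h 0)) = 0 := by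
    rw [hF.hh 0, h1, mul_zero]
  have hu := (f_unit hF).1
  have hg' : dd (h 0) ≠ 0 := by
    intro h0
    apply hu
    rw [h0, map_zero]
  have he : ∀ j, e (j + 1) = 0 := by
    intro j
    induction j with
    | zero =>
      have h2 := f_e1 hF
      rw [hdd] at h2
      have h3 : (2 : PowerSeries k) ≠ 0 := by
        intro h0
        have h4 := congrArg (constantCoeff (R := k)) h0
        rw [map_zero, map_ofNat] at h4
        exact two_ne_zero h4
      rcases mul_eq_zero.1 h2 with h4 | h4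
      · exact (mul_eq_zero.1 h4).resolve_left h3
      · exact absurd h4 (pow_ne_zero 2 hg')
    | succ j ih =>
      have h2 := hF.ee j
      rw [ih, hh j, dd_zero, dd_zero] at h2
      have h3 : (h 0) ^ 2 * e (j + 1 + 1) = 0 := by linear_combination h2
      exact (mul_eq_zero.1 h3).resolve_left (pow_ne_zero 2 hg)
  refine ⟨hh, he, constantCoeff (dd (h 0)), hu, ?_, ?_⟩
  · exact eq_C_of_dd _ hdd
  · have h5 := eq_C_of_dd _ hdd
    ext n
    have h6 : ∀ m, coeff (m + 1) (h 0) * ((m : k) + 1) = coeff m (C (constantCoeff (dd (h 0)))) := by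
      intro m
      rw [← h5, coeff_dd]
    rcases n with _ | _ | n
    · simp
    · have h7 := h6 0
      rw [coeff_C, if_pos rfl] at h7
      have h9 : coeff 1 (h 0) = constantCoeff (dd (h 0)) := by
        rw [← h7]
        push_cast
        ring
      rw [map_add, coeff_C, if_neg (by norm_num), coeff_C_mul, coeff_X, if_pos rfl, mul_one, zero_add]
      rw [zero_add]
      exact h9
    · have h7 := h6 (n + 1)
      rw [coeff_C, if_neg (by omega)] at h7
      have h8 : coeff (n + 1 + 1) (h 0) = 0 := by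
        refine (mul_eq_zero.1 h7).resolve_right ?_
        exact_mod_cast Nat.succ_ne_zero (n + 1)
      rw [map_add, coeff_C, if_neg (by omega), coeff_C_mul, coeff_X, if_neg (by omega), mul_zero,
        add_zero]
      exact h8

end Pool.Agent.Work.MP_abe657_gt.Rev
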