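import Pool.Agent.Work.MP_abe657_gt.Rev.FBasic

/-!
Module FConst (M). The limit system when `h₁ g³ / g'²` is a constant `a`.

Proof. Write `g = h 0`, `g' = dd g`. Hypothesis: `h 1 * g^3 = C a * g'^2`. Hence (multiply `hh 0` by `g`)
(0) `g * dd g' = -C a * g'^2`.
Claim: for `j ≥ 1`: `h j * g^(4j-1) = C (A j) * g'^(2j)`. `j = 1` is the hypothesis. Step: differentiate,
multiply by `g` and use (0) and the claim for `j`:
`dd (h j) * g^(4j) = C (B j) * g'^(2j+1)`, `B j = -(4j - 1 + 2j a) A j`. Differentiate this one, multiply by `g`,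
use (0): `dd (dd (h j)) * g^(4j+1) = -(4j + (2j+1) a) C (B j) g'^(2j+2)`; with `hh j`:
`h (j+1) * g^(4j+3) = C ((4j + (2j+1)a) B j) g'^(2j+2)`, which is the claim for `j+1`.
Similarly for `j ≥ 1`: `e j * g^(4j-3) = C (S j) * g'^(2j-2)`. `j = 1`: `f_e1` times `g`, (0) and
cancel `g'^2`: `2 e 1 g = -C a`. Step: differentiate and multiply by `g`:
`dd (e j) * g^(4j-2) = C (T j) g'^(2j-1)`, `T j = -(4j - 3 + (2j-2) a) S j` (for `j = 1`: `e 1 g = C S1`,
`dd (e 1) g² = -e 1 g g' = -C S1 g'`); again: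
`dd (dd (e j)) * g^(4j-1) = -(4j - 2 + (2j-1) a) C (T j) g'^(2j)`, and `ee`: `dd dd e_j = h_j - g² e_{j+1}`, so
`e (j+1) g^(4j+1) = C (A j + (4j-2+(2j-1)a) T j) g'^(2j)`.
It is best to prove the statements for `j+1` (`j : ℕ`), with exponents `4*j+3`, `2*j+2`, `4*j+1`, `2*j`, as below.
The sequences `A, S` are defined by the recursions (`Nat.rec`), here they are given.
At the end: `h (j+1) = 0` for `j + 1 ≥ K` gives `A (j+1) = 0` (as `g'` is not zero), the same for `S`.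
-/

set_option autoImplicit false

namespace Pool.Agent.Work.MP_abe657_gt.Rev

open PowerSeries

private theorem dd_pow {k : Type} [Field k] (f : PowerSeries k) (n : ℕ) :
    dd (f ^ n) = (n : PowerSeries k) * f ^ (n - 1) * dd f := by
  rw [dd, PowerSeries.derivative_pow]
  rfl

/-- One step: if `F * g^m = C c * p^n` with `g * dd p = -C a * p^2`, `p = dd g`, then
`dd F * g^(m+1) = C (-(m + n a) c) * p^(n+1)`. -/
private theorem dstep {k : Type} [Field k] {g F : PowerSeries k} {a c : k} (m n : ℕ)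
    (h0 : g * dd (dd g) = -C a * (dd g) ^ 2)
    (hF : F * g ^ m = C c * (dd g) ^ n) :
    dd F * g ^ (m + 1) = C (-((m : k) + n * a) * c) * (dd g) ^ (n + 1) := by
  have h1 := congrArg dd hF
  rw [dd_mul, dd_C_mul, dd_pow, dd_pow] at h1
  have h2 : g ^ m * g = g ^ (m + 1) := (pow_succ g m).symm
  have hm : (m : PowerSeries k) * g ^ (m - 1) * g = (m : PowerSeries k) * g ^ m := by
    rcases m with _ | m
    · simp
    · rw [Nat.add_sub_cancel, mul_assoc, ← pow_succ]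
  have hn : (n : PowerSeries k) * (dd g) ^ (n - 1) * (dd g) ^ 2
      = (n : PowerSeries k) * (dd g) ^ (n + 1) := by
    rcases n with _ | n
    · simp
    · rw [Nat.add_sub_cancel, mul_assoc, ← pow_add]
  have hCm : (C (-((m : k) + n * a) * c) : PowerSeries k)
      = -((m : PowerSeries k) + (n : PowerSeries k) * C a) * C c := by
    rw [map_mul, map_neg, map_add, map_mul, map_natCast, map_natCast]
  rw [hCm]
  have h3 : (dd g) ^ n * dd g = (dd g) ^ (n + 1) := (pow_succ _ n).symm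
  linear_combination g * h1 - dd F * h2 - F * dd g * hm - (m : PowerSeries k) * dd g * hF
    + C c * (n : PowerSeries k) * (dd g) ^ (n - 1) * h0 - C c * C a * hn
    - (m : PowerSeries k) * C c * h3

theorem f_const_h {k : Type} [Field k] [CharZero k] {h : ℕ → PowerSeries k} {ε : PowerSeries k}
    {e : ℕ → PowerSeries k} {K : ℕ} (hF : FSys h ε e K) (a : k)
    (ha : h 1 * (h 0) ^ 3 = C a * (dd (h 0)) ^ 2) (A : ℕ → k) (hA1 : A 1 = a)
    (hA : ∀ j : ℕ, A (j + 2) = -((4 * (j + 1) + (2 * (j + 1) + 1) * a)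
      * (4 * (j + 1) - 1 + 2 * (j + 1) * a) * A (j + 1))) (j : ℕ) :
    h (j + 1) * (h 0) ^ (4 * j + 3) = C (A (j + 1)) * (dd (h 0)) ^ (2 * j + 2) := by
  have h0 : h 0 * dd (dd (h 0)) = -C a * (dd (h 0)) ^ 2 := by
    have h1 := hF.hh 0
    rw [h1, neg_mul (C a), ← ha]
    ring
  induction j with
  | zero => rw [hA1]; exact ha
  | succ j ih =>
    have h1 := dstep _ _ h0 ih
    have h2 := dstep _ _ h0 h1
    rw [hF.hh (j + 1)] at h2
    have h3 : (-((((4 * j + 3 + 1 : ℕ) : k)) + ((2 * j + 2 + 1 : ℕ) : k) * a)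
        * (-((((4 * j + 3 : ℕ) : k)) + ((2 * j + 2 : ℕ) : k) * a) * A (j + 1)))
        = -A (j + 1 + 1) := by
      rw [hA j]
      push_cast
      ring
    rw [h3, map_neg] at h2
    have h4 : h (j + 1 + 1) * (h 0) ^ (4 * (j + 1) + 3)
        = (h 0) ^ 2 * h (j + 1 + 1) * (h 0) ^ (4 * j + 3 + 1 + 1) := by
      ring
    rw [h4, show 2 * (j + 1) + 2 = 2 * j + 2 + 1 + 1 by ring]
    linear_combination (-1 : PowerSeries k) * h2

theorem f_const_e {k : Type} [Field k] [CharZero k] {h : ℕ → PowerSeries k} {ε : PowerSeries k}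
    {e : ℕ → PowerSeries k} {K : ℕ} (hF : FSys h ε e K) (a : k)
    (ha : h 1 * (h 0) ^ 3 = C a * (dd (h 0)) ^ 2) (A : ℕ → k) (hA1 : A 1 = a)
    (hA : ∀ j : ℕ, A (j + 2) = -((4 * (j + 1) + (2 * (j + 1) + 1) * a)
      * (4 * (j + 1) - 1 + 2 * (j + 1) * a) * A (j + 1)))
    (S : ℕ → k) (hS1 : S 1 = -a / 2)
    (hS : ∀ j : ℕ, S (j + 2) = A (j + 1) - (4 * (j + 1) - 2 + (2 * (j + 1) - 1) * a)
      * (4 * (j + 1) - 3 + (2 * (j + 1) - 2) * a) * S (j + 1)) (j : ℕ) :
    e (j + 1) * (h 0) ^ (4 * j + 1) = C (S (j + 1)) * (dd (h 0)) ^ (2 * j) := by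
  have h0 : h 0 * dd (dd (h 0)) = -C a * (dd (h 0)) ^ 2 := by
    have h1 := hF.hh 0
    rw [h1, neg_mul (C a), ← ha]
    ring
  have hg' : dd (h 0) ≠ 0 := by
    intro h0
    apply (f_unit hF).1
    rw [h0, map_zero]
  induction j with
  | zero =>
    rw [hS1]
    have h1 := f_e1 hF
    have h2 : (C (-a / 2) : PowerSeries k) * 2 = -C a := by
      have h3 : (2 : PowerSeries k) = C (2 : k) := by rw [map_ofNat]
      rw [h3, ← map_mul, div_mul_cancel₀ _ (two_ne_zero), map_neg]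
    have h4 : (dd (h 0)) ^ 2 * 2 ≠ 0 := by
      refine mul_ne_zero (pow_ne_zero 2 hg') ?_
      intro h5
      have h6 := congrArg (constantCoeff (R := k)) h5
      rw [map_zero, map_ofNat] at h6
      exact two_ne_zero h6
    apply mul_left_cancel₀ h4
    linear_combination h 0 * h1 + h0 - (dd (h 0)) ^ 2 * h2
  | succ j ih =>
    have h1 := dstep _ _ h0 ih
    have h2 := dstep _ _ h0 h1
    rw [hF.ee j] at h2
    have h5 := f_const_h hF a ha A hA1 hA j
    have h3 : (-((((4 * j + 1 + 1 : ℕ) : k)) + ((2 * j + 1 : ℕ) : k) * a)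
        * (-((((4 * j + 1 : ℕ) : k)) + ((2 * j : ℕ) : k) * a) * S (j + 1)))
        = A (j + 1) - S (j + 1 + 1) := by
      rw [hS j]
      push_cast
      ring
    rw [h3, map_sub] at h2
    rw [show 2 * (j + 1) = 2 * j + 1 + 1 by ring, show 4 * (j + 1) + 1 = 4 * j + 1 + 1 + 1 + 2 by ring]
    have h6 : (h 0) ^ (4 * j + 1 + 1 + 1 + 2) = (h 0) ^ (4 * j + 1 + 1 + 1) * (h 0) ^ 2 := pow_add _ _ _
    rw [h6]
    rw [show 4 * j + 3 = 4 * j + 1 + 1 + 1 by ring, show 2 * j + 2 = 2 * j + 1 + 1 by ring] at h5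
    linear_combination h5 - h2

end Pool.Agent.Work.MP_abe657_gt.Rev
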