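import Pool.Agent.Work.MP_abe657_gt.Rev.Ode
import Pool.Agent.Work.MP_abe657_gt.Rev.LemG
import Pool.Agent.Work.MP_abe657_gt.Rev.Bdd
import Pool.Agent.Work.MP_abe657_gt.Rev.Uniq

/-!
Module FContra (M). The limit system over the field of Hahn series, normalised so that `g(0) = 1`, `g'(0)` is
small and the data of the `h j` are integral and not all small, has no solution.

Proof. We may replace `K` by `N = max K 1` (`hK`, `eK` hold for it).
(a) `rad_int` with `Z = h`, `μ = 0`, `q = 0` (`h N = 0`) gives `h j ∈ OP` for `j ≤ N`, and `h j = 0` for `j ≥ N`.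
(b) `Bdd (e (j+1))` for all `j`: zero for `j + 1 ≥ N`, and downwards: `dd (dd (e (j+1))) = h (j+1) - (h 0)^2 e (j+2)`
is `Bdd`, apply `bdd_of_dd` twice. Likewise `Bdd ε` from `ε2`.
(c) `red (dd (h 0)) ≠ 0`: otherwise `red (h 0)` is constant `= 1`; reduce `hh`:
`dd (dd (red (h j))) = -(red (h 0))^2 * red (h (j+1)) = - red (h (j+1))`; for `j = 0`: `red (h 1) = 0`, and by induction
`red (h j) = 0` for all `j ≥ 1`, contradiction with `hu` (`coeff_red`).
(d) `lemma_g` with `c = ε`, `g = 2 * dd (h 0)`, `c * g = (h 0)^2 ∈ OP`: `ε ∈ OP`.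
(e) constant coefficients of `ε1`: `2 * ε(0) * coeff 1 (h 0) = 1`; apply `rs` (`rs_mul`, both factors in `OO`):
`2 * rs (ε(0)) * 0 = 1`, contradiction.
-/

set_option autoImplicit false

namespace Pool.Agent.Work.MP_abe657_gt.Rev

open PowerSeries

theorem f_contra {k : Type} [Field k] [CharZero k] {h : ℕ → PowerSeries (HahnSeries ℚ k)}
    {ε : PowerSeries (HahnSeries ℚ k)} {e : ℕ → PowerSeries (HahnSeries ℚ k)} {K : ℕ}
    (hF : FSys h ε e K) (h00 : constantCoeff (h 0) = 1) (h01 : coeff 1 (h 0) ∈ OO k)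
    (h01r : rs (coeff 1 (h 0)) = 0)
    (hi : ∀ j, 1 ≤ j → coeff 0 (h j) ∈ OO k ∧ coeff 1 (h j) ∈ OO k)
    (hu : ∃ j, 1 ≤ j ∧ (rs (coeff 0 (h j)) ≠ 0 ∨ rs (coeff 1 (h j)) ≠ 0)) : False := by
  obtain ⟨N, hN1, hNK⟩ : ∃ N : ℕ, 1 ≤ N ∧ K ≤ N := ⟨max K 1, le_max_right _ _, le_max_left _ _⟩
  have hz : ∀ j, N ≤ j → h j = 0 := fun j hj => hF.hK j (by omega) (by omega)
  have ez : ∀ j, N ≤ j → e j = 0 := fun j hj => hF.eK j (by omega) (by omega)
  have h0O : (0 : PowerSeries (HahnSeries ℚ k)) ∈ OP k := Subring.zero_mem _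
  -- the series `h j` are integral
  have hOle : ∀ j ≤ N, h j ∈ OP k := by
    refine rad_int N (by omega) h 0 h0O ?_ (fun _ => 0) (fun _ => Subring.zero_mem _) ?_ ?_ ?_
    · intro j _
      rw [hF.hh j]
      ring
    · rw [hz N le_rfl]
      symm
      refine Finset.sum_eq_zero fun j _ => ?_
      rw [map_zero, zero_mul]
    · intro j _
      rcases j with _ | j
      · rw [coeff_zero_eq_constantCoeff_apply, h00]
        exact Subring.one_mem _
      · exact (hi (j + 1) (by omega)).1
    · intro j _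
      rcases j with _ | j
      · exact h01
      · exact (hi (j + 1) (by omega)).2
  have hO : ∀ j, h j ∈ OP k := by
    intro j
    by_cases hj : j ≤ N
    · exact hOle j hj
    · rw [hz j (by omega)]
      exact h0O
  -- the series `e (j + 1)` and `ε` are bounded below
  have hB : ∀ n j, N ≤ j + 1 + n → Bdd (e (j + 1)) := by
    intro n
    induction n with
    | zero =>
      intro j hj
      rw [ez (j + 1) hj]
      exact bdd_of_OP h0O
    | succ n ih =>
      intro j hj
      have h1 := ih (j + 1) (by omega)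
      apply bdd_of_dd
      apply bdd_of_dd
      rw [hF.ee j]
      refine bdd_sub (bdd_of_OP (hO _)) (bdd_mul (bdd_of_OP ?_) h1)
      exact Subring.pow_mem _ (hO 0) 2
  have hε : Bdd ε := by
    apply bdd_of_dd
    rw [hF.ε2]
    refine bdd_sub (bdd_of_OP (hO _)) (bdd_mul (bdd_of_OP (Subring.pow_mem _ (hO 0) 2)) ?_)
    exact hB N 0 (by omega)
  -- the reduction of `dd (h 0)` is not zero
  have hr : red (dd (h 0)) ≠ 0 := by
    intro hr
    rw [red_dd] at hr
    have h1 : red (h 0) = 1 := by
      rw [eq_C_of_dd _ hr, ← coeff_zero_eq_constantCoeff_apply, coeff_red,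
        coeff_zero_eq_constantCoeff_apply, h00, rs_one, map_one]
    have h2 : ∀ j, dd (dd (red (h j))) = -red (h (j + 1)) := by
      intro j
      have h3 := congrArg red (hF.hh j)
      rw [red_dd, red_dd, red_mul (Subring.neg_mem _ (Subring.pow_mem _ (hO 0) 2)) (hO _), red_neg,
        sq, red_mul (hO 0) (hO 0), h1] at h3
      rw [h3]
      ring
    have h3 : ∀ j, red (h (j + 1)) = 0 := by
      intro j
      induction j with
      | zero =>
        have h4 := h2 0
        rw [hr, dd_zero] at h4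
        exact neg_eq_zero.1 h4.symm
      | succ j ih =>
        have h4 := h2 (j + 1)
        rw [ih, dd_zero, dd_zero] at h4
        exact neg_eq_zero.1 h4.symm
    obtain ⟨j, hj, hju⟩ := hu
    obtain ⟨i, rfl⟩ : ∃ i, j = i + 1 := ⟨j - 1, by omega⟩
    rcases hju with h4 | h4
    · apply h4
      rw [← coeff_red, h3, map_zero]
    · apply h4
      rw [← coeff_red, h3, map_zero]
  -- `ε` is integral
  have h2O : (2 : PowerSeries (HahnSeries ℚ k)) ∈ OP k := by
    have h1 := Subring.add_mem (OP k) (Subring.one_mem _) (Subring.one_mem _)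
    rwa [one_add_one_eq_two] at h1
  have hεO : ε ∈ OP k := by
    refine lemma_g ε (2 * dd (h 0)) hε (Subring.mul_mem _ h2O (dd_mem_OP (hO 0))) ?_ ?_
    · rw [two_mul, red_add]
      intro h1
      apply hr
      have h3 : (2 : PowerSeries k) ≠ 0 := by
        intro h0
        have h4 := congrArg (constantCoeff (R := k)) h0
        rw [map_zero, map_ofNat] at h4
        exact two_ne_zero h4
      rw [← two_mul] at h1
      exact (mul_eq_zero.1 h1).resolve_left h3
    · have h1 : ε * (2 * dd (h 0)) = (h 0) ^ 2 := by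
        rw [← hF.ε1]
        ring
      rw [h1]
      exact Subring.pow_mem _ (hO 0) 2
  -- constant coefficients
  have h1 := congrArg constantCoeff hF.ε1
  rw [map_mul, map_mul, map_pow, h00, one_pow, map_ofNat] at h1
  have h2 : constantCoeff (dd (h 0)) = coeff 1 (h 0) := by
    rw [← coeff_zero_eq_constantCoeff_apply, coeff_dd]
    push_cast
    ring
  rw [h2] at h1
  have h3 : (2 : HahnSeries ℚ k) ∈ OO k := by
    have h1 := Subring.add_mem (OO k) (Subring.one_mem _) (Subring.one_mem _)
    rwa [one_add_one_eq_two] at h1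
  have h4 : constantCoeff ε ∈ OO k := by
    rw [← coeff_zero_eq_constantCoeff_apply]
    exact hεO 0
  have h5 := congrArg rs h1
  rw [rs_mul (Subring.mul_mem _ h3 h4) h01, h01r, mul_zero, rs_one] at h5
  exact zero_ne_one h5

end Pool.Agent.Work.MP_abe657_gt.Rev
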