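import Pool.Agent.Work.MP_abe657_gt.Rev.EmbC

/-!
Module FSigma (S-M). A non-constant power series can be given a pole by an embedding.

Proof. Let `F = FractionRing (PowerSeries 𝕜)`, a field extension of `𝕜`. The image `f'` of `f` in `F` is
transcendental over `𝕜`: otherwise, `𝕜` being algebraically closed and `F` a domain, `f'` lies in the image
of `𝕜` (e.g. `IsAlgClosed.splits` of the minimal polynomial, or: a nonzero polynomial with root `f'` is a
product of linear factors over `𝕜`), so `f = C a` by injectivity. Then `f'` is transcendental over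
`IntermediateField.adjoin 𝕜 {1} = ⊥` (which is `𝕜`). Apply `exists_emb (k := 𝕜) (F := F) 1 f'` and compose `σ`
with `algebraMap (PowerSeries 𝕜) F`, which is injective.
-/

set_option autoImplicit false

namespace Pool.Agent.Work.MP_abe657_gt.Rev

open PowerSeries

theorem exists_sigma {k : Type} [Field k] [CharZero k] [IsAlgClosed k] (f : PowerSeries k)
    (hf : ∀ a : k, f ≠ C a) :
    ∃ (k₁ : Type) (_ : Field k₁) (_ : IsAlgClosed k₁) (_ : CharZero k₁)
      (σ : PowerSeries k →+* HahnSeries ℚ k₁), Function.Injective σ ∧ σ f ∉ OO k₁ := by
  have htr : Transcendental (IntermediateField.adjoin k {(1 : FractionRing (PowerSeries k))})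
      (algebraMap (PowerSeries k) (FractionRing (PowerSeries k)) f) := by
    intro hal
    have h1 : Algebra.IsAlgebraic k
        (IntermediateField.adjoin k {(1 : FractionRing (PowerSeries k))}) := by
      apply IntermediateField.isAlgebraic_adjoin
      intro x hx
      rw [Set.mem_singleton_iff] at hx
      rw [hx]
      exact isIntegral_one
    have h2 : IsAlgebraic k (algebraMap (PowerSeries k) (FractionRing (PowerSeries k)) f) :=
      hal.restrictScalars k
    have h3 := IsAlgClosed.degree_eq_one_of_irreducible k (minpoly.irreducible h2.isIntegral)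
    obtain ⟨a, ha⟩ := minpoly.mem_range_of_degree_eq_one k _ h3
    apply hf a
    apply IsFractionRing.injective (PowerSeries k) (FractionRing (PowerSeries k))
    rw [← ha, IsScalarTower.algebraMap_apply k (PowerSeries k) (FractionRing (PowerSeries k))]
    rfl
  obtain ⟨k₁, i1, i2, i3, σ, -, -, h3⟩ := exists_emb (k := k) 1 _ htr
  refine ⟨k₁, i1, i2, i3, σ.comp (algebraMap (PowerSeries k) (FractionRing (PowerSeries k))), ?_, h3⟩
  rw [RingHom.coe_comp]
  exact (RingHom.injective σ).comp
    (IsFractionRing.injective (PowerSeries k) (FractionRing (PowerSeries k)))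

end Pool.Agent.Work.MP_abe657_gt.Rev
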