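import Pool.Agent.Work.MP_abe657_gt.Rev.Defs

/-!
Module Tay (S-M, Mathlib only). The Taylor morphism of a ring with a derivation.

Proof. `T f = ∑ σ(Dⁿ f)/n! Xⁿ` (`PowerSeries.mk`). Additive: clear. Multiplicative: Leibniz formula
`Dⁿ(fg) = ∑ binom(n,i) Dⁱ f Dⁿ⁻ⁱ g` (induction on `n`, or: both `T (f g)` and `T f * T g` ... the coefficient `n`
is determined by the constant coefficient of the `n`-th derivative `dd^[n]`, and `dd (T f) = T (D f)`,
so by induction on `n` the constant coefficients of `dd^[n] (T (f*g))` and `dd^[n] (T f * T g)` agree for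
all `f, g`). `T 1 = 1` since `D 1 = 0`. `coeff n (dd (T f)) = coeff (n+1) (T f) * (n+1) = σ(Dⁿ⁺¹ f)/n!`.
If `D f = 0` all coefficients but the first vanish.
-/

set_option autoImplicit false

namespace Pool.Agent.Work.MP_abe657_gt.Rev

open PowerSeries

theorem exists_tay {R L : Type} [CommRing R] [Field L] [CharZero L] (D : R → R)
    (hadd : ∀ a b, D (a + b) = D a + D b) (hmul : ∀ a b, D (a * b) = a * D b + b * D a)
    (σ : R →+* L) :
    ∃ T : R →+* PowerSeries L, (∀ f, constantCoeff (T f) = σ f) ∧ (∀ f, T (D f) = dd (T f)) ∧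
      (∀ f, coeff 1 (T f) = σ (D f)) ∧ ∀ f, D f = 0 → T f = C (σ f) := by
  have h00 : D 0 = 0 := by
    have h := hadd 0 0
    rw [add_zero] at h
    exact left_eq_add.1 h
  have h10 : D 1 = 0 := by
    have h := hmul 1 1
    rw [mul_one, one_mul] at h
    exact left_eq_add.1 h
  have hit0 : ∀ n, D^[n] 0 = 0 := by
    intro n
    induction n with
    | zero => rfl
    | succ n ih => rw [Function.iterate_succ_apply, h00, ih]
  have hitadd : ∀ n a b, D^[n] (a + b) = D^[n] a + D^[n] b := by
    intro n
    induction n with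
    | zero => intro a b; rfl
    | succ n ih =>
      intro a b
      rw [Function.iterate_succ_apply, Function.iterate_succ_apply, Function.iterate_succ_apply,
        hadd, ih]
  obtain ⟨t, ht⟩ : ∃ t : R → PowerSeries L, ∀ f n, coeff n (t f) = σ (D^[n] f) / (n.factorial : L) :=
    ⟨fun f => PowerSeries.mk fun n => σ (D^[n] f) / (n.factorial : L), fun f n => coeff_mk _ _⟩
  have hdt : ∀ f, dd (t f) = t (D f) := by
    intro f
    ext n
    rw [coeff_dd, ht, ht, Function.iterate_succ_apply, Nat.factorial_succ]
    have h1 : ((n : L) + 1) ≠ 0 := by exact_mod_cast Nat.succ_ne_zero n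
    have h2 : (n.factorial : L) ≠ 0 := by exact_mod_cast Nat.factorial_ne_zero n
    push_cast
    field_simp
  have htadd : ∀ f g, t (f + g) = t f + t g := by
    intro f g
    ext n
    rw [map_add, ht, ht, ht, hitadd, map_add, add_div]
  have htmul : ∀ n f g, coeff n (t (f * g)) = coeff n (t f * t g) := by
    intro n
    induction n with
    | zero =>
      intro f g
      have h3 : coeff 0 (t f * t g) = coeff 0 (t f) * coeff 0 (t g) := by
        rw [coeff_zero_eq_constantCoeff_apply, coeff_zero_eq_constantCoeff_apply,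
          coeff_zero_eq_constantCoeff_apply, map_mul]
      rw [h3, ht, ht, ht]
      change σ (f * g) / _ = σ f / _ * (σ g / _)
      rw [map_mul]
      norm_num
    | succ n ih =>
      intro f g
      have h1 : ((n : L) + 1) ≠ 0 := by exact_mod_cast Nat.succ_ne_zero n
      have h2 : coeff (n + 1) (t (f * g)) * ((n : L) + 1) =
          coeff (n + 1) (t f * t g) * ((n : L) + 1) := by
        rw [← coeff_dd, ← coeff_dd, hdt, hmul, htadd, dd_mul, map_add, map_add, ih, ih, hdt, hdt]
      exact mul_right_cancel₀ h1 h2
  have ht1 : t 1 = 1 := by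
    ext n
    rw [ht, coeff_one]
    rcases n with _ | n
    · change σ 1 / _ = _
      rw [map_one]
      norm_num
    · rw [Function.iterate_succ_apply, h10, hit0, map_zero, zero_div, if_neg (Nat.succ_ne_zero n)]
  have ht0 : t 0 = 0 := by
    ext n
    rw [ht, hit0, map_zero, map_zero, zero_div]
  refine ⟨{ toFun := t, map_one' := ht1, map_mul' := fun f g => ?_, map_zero' := ht0,
            map_add' := htadd }, ?_, ?_, ?_, ?_⟩
  · ext n
    exact htmul n f g
  · intro f
    change constantCoeff (t f) = σ f
    rw [← coeff_zero_eq_constantCoeff_apply, ht]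
    change σ f / _ = _
    norm_num
  · intro f
    exact (hdt f).symm
  · intro f
    change coeff 1 (t f) = σ (D f)
    rw [ht]
    change σ (D f) / _ = _
    norm_num
  · intro f hf
    change t f = C (σ f)
    ext n
    rw [ht, coeff_C]
    rcases n with _ | n
    · change σ f / _ = _
      norm_num
    · rw [Function.iterate_succ_apply, hf, hit0, map_zero, zero_div, if_neg (Nat.succ_ne_zero n)]

end Pool.Agent.Work.MP_abe657_gt.Rev
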