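import Pool.Agent.Work.MP_abe657_gt.Rev.FBasic
import Pool.Agent.Work.MP_abe657_gt.Rev.FScale
import Pool.Agent.Work.MP_abe657_gt.Rev.FSigma
import Pool.Agent.Work.MP_abe657_gt.Rev.FContra
import Pool.Agent.Work.MP_abe657_gt.Rev.Tay
import Pool.Agent.Work.MP_abe657_gt.Rev.Scale
import Pool.Agent.Work.MP_abe657_gt.Rev.Small

/-!
Module FNon (M). In a solution of the limit system `h₁ g³/g'²` is constant.

Proof. By `f_unit`, `dd (h 0)` is a unit of `PowerSeries k`: `f = h 1 * (h 0)^3 * ((dd (h 0))^2)⁻¹` satisfies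
`f * (dd (h 0))^2 = h 1 * (h 0)^3` (`PowerSeries.mul_inv_cancel`). If `f = C a` we are done. Otherwise `exists_sigma`
gives `σ : PowerSeries k →+* L = HahnSeries ℚ k₁`, injective, `σ f ∉ OO`. Let `T` be the Taylor morphism of
`exists_tay` for `D = dd` and `σ`. `A = σ (h 0) ≠ 0`, `u = σ (dd (h 0)) / A ≠ 0`. `A * σ (h 1) = σ f * u^2`.
Apply `exists_scale` to the finite family indexed by `Option (Fin (K+1) × Bool)`: `none ↦ u` with weight `1`;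
`(j, false) ↦ A⁻¹ (A^2)^(j+1) σ (h (j+1))` with weight `2(j+1)`; `(j, true) ↦ A⁻¹ (A^2)^(j+1) σ (dd (h (j+1)))`,
weight `2(j+1)+1`. We get `c ≠ 0`. From the member `(0, false)`: `c^2 A σ(h 1) = (c u)^2 σ f ∈ OO`, and
`σ f ∉ OO`, so `c u ∈ OO`, `rs (c u) = 0` by `small_of_mul`; hence the index with nonzero residue is
not `none`. The system `f_scale (f_map hF T _ _) A c` satisfies the hypotheses of `f_contra`:
`constantCoeff (h' 0) = A⁻¹ * σ (h 0) = 1`, `coeff 1 (h' 0) = A⁻¹ c σ (dd (h 0)) = c u`,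
`coeff 0 (h' j) = A⁻¹ (A² c²)^j σ (h j) = c^(2j) * (A⁻¹ (A²)^j σ (h j))`,
`coeff 1 (h' j) = c^(2j+1) * (A⁻¹ (A²)^j σ (dd (h j)))` (`coeff_rescale`; `exists_tay` gives `coeff 1 (T f)`); for
`j > K` they are zero because `h j = 0`.
-/

set_option autoImplicit false

namespace Pool.Agent.Work.MP_abe657_gt.Rev

open PowerSeries

theorem f_const {k : Type} [Field k] [CharZero k] [IsAlgClosed k] {h : ℕ → PowerSeries k}
    {ε : PowerSeries k} {e : ℕ → PowerSeries k} {K : ℕ} (hF : FSys h ε e K) :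
    ∃ a : k, h 1 * (h 0) ^ 3 = C a * (dd (h 0)) ^ 2 := by
  have hu := (f_unit hF).1
  have hu2 : constantCoeff ((dd (h 0)) ^ 2) ≠ 0 := by
    rw [map_pow]
    exact pow_ne_zero 2 hu
  obtain ⟨f, hf⟩ : ∃ f : PowerSeries k, f * (dd (h 0)) ^ 2 = h 1 * (h 0) ^ 3 := by
    refine ⟨h 1 * (h 0) ^ 3 * ((dd (h 0)) ^ 2)⁻¹, ?_⟩
    rw [mul_assoc, PowerSeries.inv_mul_cancel _ hu2, mul_one]
  by_cases hc : ∃ a : k, f = C a
  · obtain ⟨a, rfl⟩ := hc
    exact ⟨a, hf.symm⟩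
  exfalso
  obtain ⟨k₁, _, _, _, σ, hσ, hσf⟩ := exists_sigma f (fun a ha => hc ⟨a, ha⟩)
  have hchar : CharZero (HahnSeries ℚ k₁) :=
    (RingHom.charZero_iff (ϕ := (HahnSeries.C : k₁ →+* HahnSeries ℚ k₁)) HahnSeries.C_injective).1
      inferInstance
  obtain ⟨T, hT0, hTD, hT1, -⟩ := exists_tay dd dd_add dd_mul σ
  have hg : h 0 ≠ 0 := by
    intro h0
    apply hF.g0
    rw [h0, map_zero]
  have hg' : dd (h 0) ≠ 0 := by
    intro h0
    apply hu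
    rw [h0, map_zero]
  obtain ⟨A, hAdef⟩ : ∃ A, A = σ (h 0) := ⟨_, rfl⟩
  have hA : A ≠ 0 := by
    rw [hAdef]
    intro h0
    exact hg (hσ (h0.trans (map_zero σ).symm))
  obtain ⟨u, hudef⟩ : ∃ u, u = A⁻¹ * σ (dd (h 0)) := ⟨_, rfl⟩
  have hune : u ≠ 0 := by
    rw [hudef]
    refine mul_ne_zero (inv_ne_zero hA) ?_
    intro h0
    exact hg' (hσ (h0.trans (map_zero σ).symm))
  have hAu : A * σ (h 1) = σ f * u ^ 2 := by
    have h1 := congrArg σ hf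
    rw [map_mul, map_mul, map_pow, map_pow, ← hAdef] at h1
    have h2 : A⁻¹ * A = 1 := inv_mul_cancel₀ hA
    rw [hudef]
    have h3 : σ f * (A⁻¹ * σ (dd (h 0))) ^ 2 = A⁻¹ ^ 2 * (σ f * σ (dd (h 0)) ^ 2) := by ring
    rw [h3, h1]
    have h4 : A⁻¹ ^ 2 * (σ (h 1) * A ^ 3) = (A⁻¹ * A) ^ 2 * (A * σ (h 1)) := by ring
    rw [h4, h2, one_pow, one_mul]
  let x : Option (Fin (K + 1) × Bool) → HahnSeries ℚ k₁ := fun o =>
    match o with
    | none => u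
    | some (j, false) => A⁻¹ * (A ^ 2) ^ ((j : ℕ) + 1) * σ (h ((j : ℕ) + 1))
    | some (j, true) => A⁻¹ * (A ^ 2) ^ ((j : ℕ) + 1) * σ (dd (h ((j : ℕ) + 1)))
  let n : Option (Fin (K + 1) × Bool) → ℕ := fun o =>
    match o with
    | none => 1
    | some (j, false) => 2 * ((j : ℕ) + 1)
    | some (j, true) => 2 * ((j : ℕ) + 1) + 1
  obtain ⟨c, hc0, hc1, hc2⟩ := exists_scale x n (by
    intro o
    rcases o with _ | ⟨j, b⟩
    · exact Nat.one_pos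
    · rcases b with _ | _
      · show 0 < 2 * ((j : ℕ) + 1)
        omega
      · show 0 < 2 * ((j : ℕ) + 1) + 1
        omega) none hune
  have hcu : c * u ∈ OO k₁ ∧ rs (c * u) = 0 := by
    refine small_of_mul 2 (by norm_num) hσf ?_
    have h1 : c ^ (2 * (0 + 1)) * (A⁻¹ * (A ^ 2) ^ (0 + 1) * σ (h (0 + 1))) ∈ OO k₁ :=
      hc1 (some (0, false))
    have h2 : (c * u) ^ 2 * σ f = c ^ (2 * (0 + 1)) * (A⁻¹ * (A ^ 2) ^ (0 + 1) * σ (h (0 + 1))) := by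
      have h3 : A⁻¹ * A = 1 := inv_mul_cancel₀ hA
      linear_combination (-c ^ 2) * hAu - c ^ 2 * A * σ (h 1) * h3
    rw [h2]
    exact h1
  have h00 : constantCoeff (T (h 0)) ≠ 0 := by
    rw [hT0, ← hAdef]
    exact hA
  have hF' := f_scale (f_map hF T hTD h00) A c hA hc0
  have hc0' : ∀ j, coeff 0 (C (A⁻¹ * (A ^ 2 * c ^ 2) ^ j) * rescale c (T (h j)))
      = c ^ (2 * j) * (A⁻¹ * (A ^ 2) ^ j * σ (h j)) := by
    intro j
    rw [coeff_C_mul, coeff_rescale, coeff_zero_eq_constantCoeff_apply, hT0]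
    ring
  have hc1' : ∀ j, coeff 1 (C (A⁻¹ * (A ^ 2 * c ^ 2) ^ j) * rescale c (T (h j)))
      = c ^ (2 * j + 1) * (A⁻¹ * (A ^ 2) ^ j * σ (dd (h j))) := by
    intro j
    rw [coeff_C_mul, coeff_rescale, hT1]
    ring
  have hcu' : c ^ (2 * 0 + 1) * (A⁻¹ * (A ^ 2) ^ 0 * σ (dd (h 0))) = c * u := by
    rw [hudef]
    ring
  refine f_contra hF' ?_ ?_ ?_ ?_ ?_
  · show constantCoeff (C (A⁻¹ * (A ^ 2 * c ^ 2) ^ 0) * rescale c (T (h 0))) = 1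
    rw [← coeff_zero_eq_constantCoeff_apply, hc0' 0, ← hAdef, mul_zero, pow_zero, pow_zero, mul_one,
      one_mul, inv_mul_cancel₀ hA]
  · show coeff 1 (C (A⁻¹ * (A ^ 2 * c ^ 2) ^ 0) * rescale c (T (h 0))) ∈ OO k₁
    rw [hc1' 0, hcu']
    exact hcu.1
  · show rs (coeff 1 (C (A⁻¹ * (A ^ 2 * c ^ 2) ^ 0) * rescale c (T (h 0)))) = 0
    rw [hc1' 0, hcu']
    exact hcu.2
  · intro j hj
    show coeff 0 (C (A⁻¹ * (A ^ 2 * c ^ 2) ^ j) * rescale c (T (h j))) ∈ OO k₁ ∧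
      coeff 1 (C (A⁻¹ * (A ^ 2 * c ^ 2) ^ j) * rescale c (T (h j))) ∈ OO k₁
    rw [hc0', hc1']
    by_cases hjK : j ≤ K
    · obtain ⟨i, rfl⟩ : ∃ i, j = i + 1 := ⟨j - 1, by omega⟩
      exact ⟨hc1 (some (⟨i, by omega⟩, false)), hc1 (some (⟨i, by omega⟩, true))⟩
    · rw [hF.hK j (by omega) hj, dd_zero, map_zero, mul_zero, mul_zero, mul_zero]
      exact ⟨Subring.zero_mem _, Subring.zero_mem _⟩
  · obtain ⟨o, ho⟩ := hc2
    rcases o with _ | ⟨j, b⟩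
    · exfalso
      apply ho
      show rs (c ^ 1 * u) = 0
      rw [pow_one]
      exact hcu.2
    · refine ⟨(j : ℕ) + 1, by omega, ?_⟩
      show rs (coeff 0 (C (A⁻¹ * (A ^ 2 * c ^ 2) ^ ((j : ℕ) + 1)) * rescale c (T (h ((j : ℕ) + 1))))) ≠ 0
        ∨ rs (coeff 1 (C (A⁻¹ * (A ^ 2 * c ^ 2) ^ ((j : ℕ) + 1)) * rescale c (T (h ((j : ℕ) + 1))))) ≠ 0
      rw [hc0', hc1']
      rcases b with _ | _
      · exact Or.inl ho
      · exact Or.inr ho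

end Pool.Agent.Work.MP_abe657_gt.Rev
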