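import Pool.Agent.Work.MP_abe657_gt.Two.Defs
import Pool.Agent.Work.MP_abe657_gt.SurfDefs2

/-!
Definitions for the geometric part of the theorem on compact finite type surfaces of revolution
(MP_abe657_gt, helper77).
-/

set_option autoImplicit false

namespace Pool.Agent.Work.MP_abe657_gt.Rev

open Pool.Agent.Work.MP_abe657_gt

/-- the rotation field about the third coordinate axis -/
def xi3 {R : Type} [CommRing R] (Y : Fin 3 → R) : Fin 3 → R := ![-Y 1, Y 0, 0]

/-- A rotational frame for the surface `Y` with commuting derivations `d, e`: `T = a d + b e` is the rotation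
field, `D = a' d + b' e` is orthogonal to it, of the same length. -/
structure RotFrame {Ω : Type} [Field Ω] [Algebra ℂ Ω] (d e T D : Derivation ℂ Ω Ω)
    (Y : Fin 3 → Ω) (a b a' b' : Ω) : Prop where
  hT : ∀ f, T f = a * d f + b * e f
  hD : ∀ f, D f = a' * d f + b' * e f
  t0 : T (Y 0) = -Y 1
  t1 : T (Y 1) = Y 0
  t2 : T (Y 2) = 0
  orth : D (Y 0) * (-Y 1) + D (Y 1) * Y 0 = 0
  len : D (Y 0) ^ 2 + D (Y 1) ^ 2 + D (Y 2) ^ 2 = Y 0 ^ 2 + Y 1 ^ 2
  indep : a * b' - a' * b ≠ 0

/-- rotation by the angle `θ` about the line through `a` with direction `f 2`, where `f` is an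
orthonormal basis of `E3` -/
noncomputable def rotAbout (f : OrthonormalBasis (Fin 3) ℝ E3) (a : E3) (θ : ℝ) (v : E3) : E3 :=
  a + (Real.cos θ * inner ℝ (f 0) (v - a) - Real.sin θ * inner ℝ (f 1) (v - a)) • f 0
    + (Real.sin θ * inner ℝ (f 0) (v - a) + Real.cos θ * inner ℝ (f 1) (v - a)) • f 1
    + inner ℝ (f 2) (v - a) • f 2

/-- the image of `x` is a surface of revolution: it is invariant under all rotations about some
line -/
def IsRevolution {M : Type*} (x : M → E3) : Prop :=
  ∃ (f : OrthonormalBasis (Fin 3) ℝ E3) (a : E3), ∀ (θ : ℝ) (p : M),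
    rotAbout f a θ (x p) ∈ Set.range x

/-- velocity field of the rotations `rotAbout f a` -/
noncomputable def rotField (f : OrthonormalBasis (Fin 3) ℝ E3) (a v : E3) : E3 :=
  (-inner ℝ (f 1) (v - a)) • f 0 + inner ℝ (f 0) (v - a) • f 1

end Pool.Agent.Work.MP_abe657_gt.Rev
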