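import Pool.Agent.Work.MP_abe657_gt.Rev.GDefs

/-!
Module GeoA (S-M, identities in a field). Linear algebra of the tangent plane.

Proof. `u = dY`, `v = eY`, `ν = u × v`, so `dot ν ν = detM = g11 g22 - g12²` (Lagrange identity, `ring`).
`tan_comb`: let `α = (g22 ⟨ξ,u⟩ - g12 ⟨ξ,v⟩)/Δ`, `β = (g11 ⟨ξ,v⟩ - g12 ⟨ξ,u⟩)/Δ`, `Δ = detM ≠ 0`. Then
`Δ (ξ - α u - β v) = ⟨ξ,ν⟩ ν`, coordinatewise an identity (`ring` after `field_simp`; it is the expansion of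
`ξ` in the basis `u, v, ν`), and `⟨ξ,ν⟩ = det3 u v ξ = 0`.
`tan_zero`: if `γ u + δ v = 0` then pairing with `u` and `v`: `γ g11 + δ g12 = 0`, `γ g12 + δ g22 = 0`, so
`γ Δ = δ Δ = 0`.
`rad_ne`: suppose `R = Y0² + Y1² = 0`. Applying `d`, `e`: `Y0 dY0 + Y1 dY1 = 0` and the same for `e`.
If `Y0 = 0` then `Y1 = 0` and `g11 = dZ²`, `g12 = dZ eZ`, `g22 = eZ²`, `Z = Y 2`, so `Δ = 0`. If `Y0 ≠ 0`:
`Y0² (dY0² + dY1²) = Y1² dY1² + Y0² dY1² = 0`, so `dY0² + dY1² = 0`; similarly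
`Y0² (dY0 eY0 + dY1 eY1) = Y1² dY1 eY1 + Y0² dY1 eY1 = 0`, and for `e, e`. Again `Δ = 0`, contradiction.
-/

set_option autoImplicit false

namespace Pool.Agent.Work.MP_abe657_gt.Rev

open Pool.Agent.Work.MP_abe657_gt Pool.Agent.Work.MP_abe657_gt.Two

theorem tan_comb {Ω : Type} [Field Ω] [Algebra ℂ Ω] (d e : Derivation ℂ Ω Ω) (Y : Fin 3 → Ω)
    (hdet : detM d e Y ≠ 0) (ξ : Fin 3 → Ω) (hξ : det3 (ap d Y) (ap e Y) ξ = 0) :
    ∃ α β : Ω, ∀ i, ξ i = α * d (Y i) + β * e (Y i) := by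
  have hΔ := hdet
  simp only [detM, met, Fin.sum_univ_three] at hΔ
  simp only [det3, ap] at hξ
  set u0 := d (Y 0)
  set u1 := d (Y 1)
  set u2 := d (Y 2)
  set v0 := e (Y 0)
  set v1 := e (Y 1)
  set v2 := e (Y 2)
  set Δ := (u0 * u0 + u1 * u1 + u2 * u2) * (v0 * v0 + v1 * v1 + v2 * v2)
    - (u0 * v0 + u1 * v1 + u2 * v2) ^ 2 with hΔdef
  refine ⟨((v0 * v0 + v1 * v1 + v2 * v2) * (ξ 0 * u0 + ξ 1 * u1 + ξ 2 * u2)
      - (u0 * v0 + u1 * v1 + u2 * v2) * (ξ 0 * v0 + ξ 1 * v1 + ξ 2 * v2)) / Δ,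
    ((u0 * u0 + u1 * u1 + u2 * u2) * (ξ 0 * v0 + ξ 1 * v1 + ξ 2 * v2)
      - (u0 * v0 + u1 * v1 + u2 * v2) * (ξ 0 * u0 + ξ 1 * u1 + ξ 2 * u2)) / Δ, ?_⟩
  intro i
  rw [div_mul_eq_mul_div, div_mul_eq_mul_div, ← add_div, eq_div_iff hΔ, hΔdef]
  fin_cases i
  · show ξ 0 * _ = _ * u0 + _ * v0
    linear_combination (u1 * v2 - u2 * v1) * hξ
  · show ξ 1 * _ = _ * u1 + _ * v1
    linear_combination (u2 * v0 - u0 * v2) * hξ
  · show ξ 2 * _ = _ * u2 + _ * v2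
    linear_combination (u0 * v1 - u1 * v0) * hξ

theorem tan_zero {Ω : Type} [Field Ω] [Algebra ℂ Ω] (d e : Derivation ℂ Ω Ω) (Y : Fin 3 → Ω)
    (hdet : detM d e Y ≠ 0) (γ δ : Ω) (h : ∀ i, γ * d (Y i) + δ * e (Y i) = 0) :
    γ = 0 ∧ δ = 0 := by
  have hΔ := hdet
  simp only [detM, met, Fin.sum_univ_three] at hΔ
  have h0 := h 0
  have h1 := h 1
  have h2 := h 2
  set u0 := d (Y 0)
  set u1 := d (Y 1)
  set u2 := d (Y 2)
  set v0 := e (Y 0)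
  set v1 := e (Y 1)
  set v2 := e (Y 2)
  constructor
  · apply (mul_eq_zero.mp (?_ : γ * ((u0 * u0 + u1 * u1 + u2 * u2) * (v0 * v0 + v1 * v1 + v2 * v2)
      - (u0 * v0 + u1 * v1 + u2 * v2) ^ 2) = 0)).resolve_right hΔ
    linear_combination ((v0 * v0 + v1 * v1 + v2 * v2) * u0 - (u0 * v0 + u1 * v1 + u2 * v2) * v0) * h0
      + ((v0 * v0 + v1 * v1 + v2 * v2) * u1 - (u0 * v0 + u1 * v1 + u2 * v2) * v1) * h1
      + ((v0 * v0 + v1 * v1 + v2 * v2) * u2 - (u0 * v0 + u1 * v1 + u2 * v2) * v2) * h2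
  · apply (mul_eq_zero.mp (?_ : δ * ((u0 * u0 + u1 * u1 + u2 * u2) * (v0 * v0 + v1 * v1 + v2 * v2)
      - (u0 * v0 + u1 * v1 + u2 * v2) ^ 2) = 0)).resolve_right hΔ
    linear_combination ((u0 * u0 + u1 * u1 + u2 * u2) * v0 - (u0 * v0 + u1 * v1 + u2 * v2) * u0) * h0
      + ((u0 * u0 + u1 * u1 + u2 * u2) * v1 - (u0 * v0 + u1 * v1 + u2 * v2) * u1) * h1
      + ((u0 * u0 + u1 * u1 + u2 * u2) * v2 - (u0 * v0 + u1 * v1 + u2 * v2) * u2) * h2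

theorem rad_ne {Ω : Type} [Field Ω] [CharZero Ω] [Algebra ℂ Ω] (d e : Derivation ℂ Ω Ω)
    (Y : Fin 3 → Ω) (hdet : detM d e Y ≠ 0) : Y 0 ^ 2 + Y 1 ^ 2 ≠ 0 := by
  intro hR
  apply hdet
  have hd : Y 0 * d (Y 0) + Y 1 * d (Y 1) = 0 := by
    have h := congrArg d hR
    simp only [map_add, map_zero, sq, Derivation.leibniz, smul_eq_mul] at h
    have h2 : (2 : Ω) * (Y 0 * d (Y 0) + Y 1 * d (Y 1)) = 0 := by linear_combination h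
    exact (mul_eq_zero.mp h2).resolve_left two_ne_zero
  have he : Y 0 * e (Y 0) + Y 1 * e (Y 1) = 0 := by
    have h := congrArg e hR
    simp only [map_add, map_zero, sq, Derivation.leibniz, smul_eq_mul] at h
    have h2 : (2 : Ω) * (Y 0 * e (Y 0) + Y 1 * e (Y 1)) = 0 := by linear_combination h
    exact (mul_eq_zero.mp h2).resolve_left two_ne_zero
  simp only [detM, met, Fin.sum_univ_three]
  by_cases h0 : Y 0 = 0
  · have h1 : Y 1 = 0 := by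
      rw [h0] at hR
      have h2 : Y 1 ^ 2 = 0 := by linear_combination hR
      exact pow_eq_zero_iff two_ne_zero |>.mp h2
    rw [h0, h1]
    simp only [map_zero]
    ring
  · have hY : Y 0 ^ 2 ≠ 0 := pow_ne_zero 2 h0
    have a1 : d (Y 0) * d (Y 0) + d (Y 1) * d (Y 1) = 0 := by
      apply (mul_eq_zero.mp (?_ : Y 0 ^ 2 * (d (Y 0) * d (Y 0) + d (Y 1) * d (Y 1)) = 0)).resolve_left hY
      linear_combination (Y 0 * d (Y 0) - Y 1 * d (Y 1)) * hd + d (Y 1) * d (Y 1) * hR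
    have a2 : d (Y 0) * e (Y 0) + d (Y 1) * e (Y 1) = 0 := by
      apply (mul_eq_zero.mp (?_ : Y 0 ^ 2 * (d (Y 0) * e (Y 0) + d (Y 1) * e (Y 1)) = 0)).resolve_left hY
      linear_combination (Y 0 * e (Y 0)) * hd - Y 1 * d (Y 1) * he + d (Y 1) * e (Y 1) * hR
    have a3 : e (Y 0) * e (Y 0) + e (Y 1) * e (Y 1) = 0 := by
      apply (mul_eq_zero.mp (?_ : Y 0 ^ 2 * (e (Y 0) * e (Y 0) + e (Y 1) * e (Y 1)) = 0)).resolve_left hY
      linear_combination (Y 0 * e (Y 0) - Y 1 * e (Y 1)) * he + e (Y 1) * e (Y 1) * hR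
    rw [a1, a2, a3]
    ring

end Pool.Agent.Work.MP_abe657_gt.Rev
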