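import Pool.Agent.Work.MP_abe657_gt.Rev.GeoA

/-!
Module GeoC (M). Existence of the rotational frame.

Proof. `tan_comb` with `ξ = xi3 Y`: `a, b` with `a dY_i + b eY_i = ξ_i`; `T = a • d + b • e` (derivations form a
module over `Ω`). `R = Y0² + Y1² ≠ 0` by `rad_ne`. Let `g11 = met d d Y` etc., `Δ = detM ≠ 0`, `w^2 = Δ`
(algebraically closed: `IsAlgClosed.exists_pow_nat_eq`), `w ≠ 0`. `S1 = a g11 + b g12 = ⟨TY, dY⟩`,
`S2 = a g12 + b g22 = ⟨TY, eY⟩`, `a' = S2/w`, `b' = -S1/w`, `D = a' • d + b' • e`. Then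
`⟨DY, TY⟩ = (S2 S1 - S1 S2)/w = 0`, and as `TY = ξ`, `⟨DY, TY⟩ = D Y0 (-Y1) + D Y1 Y0`; 
`⟨DY, DY⟩ = (S2² g11 - 2 S1 S2 g12 + S1² g22)/Δ = (a² g11 + 2ab g12 + b² g22) = ⟨TY, TY⟩ = R` (the middle equality is
an identity, `ring`); `a b' - a' b = -(a S1 + b S2)/w = -R/w ≠ 0`.
-/

set_option autoImplicit false

namespace Pool.Agent.Work.MP_abe657_gt.Rev

open Pool.Agent.Work.MP_abe657_gt Pool.Agent.Work.MP_abe657_gt.Two

theorem exists_rotFrame {Ω : Type} [Field Ω] [CharZero Ω] [IsAlgClosed Ω] [Algebra ℂ Ω]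
    (d e : Derivation ℂ Ω Ω) (Y : Fin 3 → Ω) (hdet : detM d e Y ≠ 0)
    (htan : det3 (ap d Y) (ap e Y) (xi3 Y) = 0) :
    ∃ (T D : Derivation ℂ Ω Ω) (a b a' b' : Ω), RotFrame d e T D Y a b a' b' := by
  obtain ⟨a, b, hab⟩ := tan_comb d e Y hdet (xi3 Y) htan
  have x0 : -Y 1 = a * d (Y 0) + b * e (Y 0) := hab 0
  have x1 : Y 0 = a * d (Y 1) + b * e (Y 1) := hab 1
  have x2 : 0 = a * d (Y 2) + b * e (Y 2) := hab 2
  have hR := rad_ne d e Y hdet
  obtain ⟨w, hw⟩ := IsAlgClosed.exists_pow_nat_eq (detM d e Y) (n := 2) (by norm_num)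
  have hw0 : w ≠ 0 := by
    rintro rfl
    apply hdet
    rw [← hw]
    ring
  obtain ⟨g11, hg11⟩ : ∃ g : Ω, g = met d d Y := ⟨_, rfl⟩
  obtain ⟨g12, hg12⟩ : ∃ g : Ω, g = met d e Y := ⟨_, rfl⟩
  obtain ⟨g22, hg22⟩ : ∃ g : Ω, g = met e e Y := ⟨_, rfl⟩
  have hw' : w ^ 2 = g11 * g22 - g12 ^ 2 := by
    rw [hw, hg11, hg12, hg22]
    rfl
  simp only [met, Fin.sum_univ_three] at hg11 hg12 hg22
  have hTT : a ^ 2 * g11 + 2 * a * b * g12 + b ^ 2 * g22 = Y 0 ^ 2 + Y 1 ^ 2 := by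
    have e0 : Y 0 ^ 2 = (a * d (Y 1) + b * e (Y 1)) ^ 2 := by rw [← x1]
    have e1 : Y 1 ^ 2 = (a * d (Y 0) + b * e (Y 0)) ^ 2 := by
      rw [← x0]
      ring
    have e2 : (0 : Ω) = (a * d (Y 2) + b * e (Y 2)) ^ 2 := by
      rw [← x2]
      ring
    rw [e0, e1, hg11, hg12, hg22]
    linear_combination (-1 : Ω) * e2
  refine ⟨a • d + b • e, ((a * g12 + b * g22) / w) • d + (-(a * g11 + b * g12) / w) • e, a, b,
    (a * g12 + b * g22) / w, -(a * g11 + b * g12) / w, ?_, ?_, ?_, ?_, ?_, ?_, ?_, ?_⟩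
  · intro f
    simp only [Derivation.add_apply, Derivation.smul_apply, smul_eq_mul]
  · intro f
    simp only [Derivation.add_apply, Derivation.smul_apply, smul_eq_mul]
  · simp only [Derivation.add_apply, Derivation.smul_apply, smul_eq_mul]
    exact x0.symm
  · simp only [Derivation.add_apply, Derivation.smul_apply, smul_eq_mul]
    exact x1.symm
  · simp only [Derivation.add_apply, Derivation.smul_apply, smul_eq_mul]
    exact x2.symm
  · simp only [Derivation.add_apply, Derivation.smul_apply, smul_eq_mul]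
    have key : ((a * g12 + b * g22) / w * d (Y 0) + -(a * g11 + b * g12) / w * e (Y 0)) *
        (a * d (Y 0) + b * e (Y 0)) +
      ((a * g12 + b * g22) / w * d (Y 1) + -(a * g11 + b * g12) / w * e (Y 1)) *
        (a * d (Y 1) + b * e (Y 1)) +
      ((a * g12 + b * g22) / w * d (Y 2) + -(a * g11 + b * g12) / w * e (Y 2)) *
        (a * d (Y 2) + b * e (Y 2)) = 0 := by
      have h1 : ∀ p q : Ω, (p * d (Y 0) + q * e (Y 0)) * (a * d (Y 0) + b * e (Y 0)) +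
        (p * d (Y 1) + q * e (Y 1)) * (a * d (Y 1) + b * e (Y 1)) +
        (p * d (Y 2) + q * e (Y 2)) * (a * d (Y 2) + b * e (Y 2)) =
          p * (a * g11 + b * g12) + q * (a * g12 + b * g22) := by
        intro p q
        rw [hg11, hg12, hg22]
        ring
      rw [h1]
      ring
    rw [← x0, ← x1, ← x2, mul_zero, add_zero] at key
    exact key
  · simp only [Derivation.add_apply, Derivation.smul_apply, smul_eq_mul]
    have h1 : ∀ p q : Ω, (p * d (Y 0) + q * e (Y 0)) ^ 2 + (p * d (Y 1) + q * e (Y 1)) ^ 2 +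
        (p * d (Y 2) + q * e (Y 2)) ^ 2 = p ^ 2 * g11 + 2 * p * q * g12 + q ^ 2 * g22 := by
      intro p q
      rw [hg11, hg12, hg22]
      ring
    rw [h1, ← hTT]
    have h2 : ((a * g12 + b * g22) / w) ^ 2 * g11 +
        2 * ((a * g12 + b * g22) / w) * (-(a * g11 + b * g12) / w) * g12 +
        (-(a * g11 + b * g12) / w) ^ 2 * g22 =
        ((a * g12 + b * g22) ^ 2 * g11 - 2 * (a * g12 + b * g22) * (a * g11 + b * g12) * g12 +
          (a * g11 + b * g12) ^ 2 * g22) / w ^ 2 := by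
      field_simp
      ring
    rw [h2, div_eq_iff (pow_ne_zero 2 hw0), hw']
    ring
  · have h1 : a * (-(a * g11 + b * g12) / w) - (a * g12 + b * g22) / w * b =
        -(Y 0 ^ 2 + Y 1 ^ 2) / w := by
      rw [← hTT]
      field_simp
      ring
    rw [h1]
    exact div_ne_zero (neg_ne_zero.2 hR) hw0

end Pool.Agent.Work.MP_abe657_gt.Rev
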