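import Pool.Agent.Work.MP_abe657_gt.Rev.GeoA

/-!
Module GeoD (M). The two derivations of a rotational frame commute.

Proof. Put `γ = T a' - D a`, `δ = T b' - D b`. By Leibniz and `d e = e d`: for all `f`:
`T (D f) - D (T f) = γ d f + δ e f` (the terms with second derivatives cancel: both are
`a a' d d f + (a b' + b a') d e f + b b' e e f`). Let `U i = T (D (Y i)) - D (T (Y i)) = γ d(Y i) + δ e(Y i)`.
With `T Y = (-Y1, Y0, 0)`: `U 0 = T (D Y0) + D Y1`, `U 1 = T (D Y1) - D Y0`, `U 2 = T (D Y2)`.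
(i) `⟨U, TY⟩ = U 0 (-Y1) + U 1 Y0 = 0`: apply `T` to `orth`:
`T(DY0)(-Y1) + DY0 (-Y0) + T(DY1) Y0 + DY1 (-Y1) = 0`, and this is `U0 (-Y1) + U1 Y0` by expanding.
(ii) `⟨U, DY⟩ = T(DY0) DY0 + T(DY1) DY1 + T(DY2) DY2 + (DY1 DY0 - DY0 DY1) = 0`: apply `T` to `len`; `T (Y0² + Y1²) = 0`.
Let `R = Y0² + Y1² ≠ 0` (`rad_ne`). As `a b' - a' b ≠ 0`, `U = λ TY + μ DY` with `λ, μ ∈ Ω` (solve
`γ = λ a + μ a'`, `δ = λ b + μ b'`). `⟨U,TY⟩ = λ R`, `⟨U,DY⟩ = μ R` (`orth`, `len`, `⟨TY,TY⟩ = R`), so `λ = μ = 0`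
and `γ = δ = 0`.
-/

set_option autoImplicit false

namespace Pool.Agent.Work.MP_abe657_gt.Rev

open Pool.Agent.Work.MP_abe657_gt Pool.Agent.Work.MP_abe657_gt.Two

theorem rotFrame_comm {Ω : Type} [Field Ω] [CharZero Ω] [Algebra ℂ Ω]
    (d e T D : Derivation ℂ Ω Ω) (hde : ∀ f, d (e f) = e (d f)) (Y : Fin 3 → Ω)
    (hdet : detM d e Y ≠ 0) (a b a' b' : Ω) (h : RotFrame d e T D Y a b a' b') :
    T a' = D a ∧ T b' = D b ∧ ∀ f, T (D f) = D (T f) := by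
  have hR := rad_ne d e Y hdet
  have comm : ∀ f, T (D f) - D (T f) = (T a' - D a) * d f + (T b' - D b) * e f := by
    intro f
    have c1 : T (D f) = T a' * d f + a' * T (d f) + T b' * e f + b' * T (e f) := by
      rw [h.hD f, map_add, Derivation.leibniz, Derivation.leibniz]
      simp only [smul_eq_mul]
      ring
    have c2 : D (T f) = D a * d f + a * D (d f) + D b * e f + b * D (e f) := by
      rw [h.hT f, map_add, Derivation.leibniz, Derivation.leibniz]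
      simp only [smul_eq_mul]
      ring
    rw [c1, c2, h.hT (d f), h.hT (e f), h.hD (d f), h.hD (e f), hde f]
    ring
  obtain ⟨γ, hγ⟩ : ∃ γ : Ω, γ = T a' - D a := ⟨_, rfl⟩
  obtain ⟨δ, hδ⟩ : ∃ δ : Ω, δ = T b' - D b := ⟨_, rfl⟩
  rw [← hγ, ← hδ] at comm
  have u0 : T (D (Y 0)) + D (Y 1) = γ * d (Y 0) + δ * e (Y 0) := by
    have h1 := comm (Y 0)
    rw [h.t0, map_neg] at h1
    linear_combination h1
  have u1 : T (D (Y 1)) - D (Y 0) = γ * d (Y 1) + δ * e (Y 1) := by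
    have h1 := comm (Y 1)
    rw [h.t1] at h1
    exact h1
  have u2 : T (D (Y 2)) = γ * d (Y 2) + δ * e (Y 2) := by
    have h1 := comm (Y 2)
    rw [h.t2, map_zero, sub_zero] at h1
    exact h1
  have i1 : T (D (Y 0)) * (-Y 1) - D (Y 0) * Y 0 + T (D (Y 1)) * Y 0 - D (Y 1) * Y 1 = 0 := by
    have h1 : T (D (Y 0) * (-Y 1) + D (Y 1) * Y 0) = 0 := by rw [h.orth, map_zero]
    rw [map_add, Derivation.leibniz, Derivation.leibniz, map_neg, h.t0, h.t1] at h1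
    simp only [smul_eq_mul] at h1
    linear_combination h1
  have i2 : T (D (Y 0)) * D (Y 0) + T (D (Y 1)) * D (Y 1) + T (D (Y 2)) * D (Y 2) = 0 := by
    have h1 : T (D (Y 0) ^ 2 + D (Y 1) ^ 2 + D (Y 2) ^ 2) = T (Y 0 ^ 2 + Y 1 ^ 2) := by rw [h.len]
    simp only [pow_two, map_add, Derivation.leibniz, smul_eq_mul, h.t0, h.t1] at h1
    have h2 : (2 : Ω) * (T (D (Y 0)) * D (Y 0) + T (D (Y 1)) * D (Y 1) +
        T (D (Y 2)) * D (Y 2)) = 0 := by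
      linear_combination h1
    rcases mul_eq_zero.1 h2 with h3 | h3
    · exact absurd h3 two_ne_zero
    · exact h3
  have j1 : (γ * d (Y 0) + δ * e (Y 0)) * (-Y 1) + (γ * d (Y 1) + δ * e (Y 1)) * Y 0 = 0 := by
    rw [← u0, ← u1]
    linear_combination i1
  have j2 : (γ * d (Y 0) + δ * e (Y 0)) * D (Y 0) + (γ * d (Y 1) + δ * e (Y 1)) * D (Y 1) +
      (γ * d (Y 2) + δ * e (Y 2)) * D (Y 2) = 0 := by
    rw [← u0, ← u1, ← u2]
    linear_combination i2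
  obtain ⟨Δ, hΔ⟩ : ∃ Δ : Ω, Δ = a * b' - a' * b := ⟨_, rfl⟩
  have hΔ0 : Δ ≠ 0 := by
    rw [hΔ]
    exact h.indep
  have t0 : a * d (Y 0) + b * e (Y 0) = -Y 1 := by rw [← h.hT, h.t0]
  have t1 : a * d (Y 1) + b * e (Y 1) = Y 0 := by rw [← h.hT, h.t1]
  have t2 : a * d (Y 2) + b * e (Y 2) = 0 := by rw [← h.hT, h.t2]
  have s0 : Δ * (γ * d (Y 0) + δ * e (Y 0)) =
      (γ * b' - δ * a') * (-Y 1) + (a * δ - b * γ) * D (Y 0) := by
    rw [h.hD, ← t0, hΔ]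
    ring
  have s1 : Δ * (γ * d (Y 1) + δ * e (Y 1)) =
      (γ * b' - δ * a') * Y 0 + (a * δ - b * γ) * D (Y 1) := by
    rw [h.hD, ← t1, hΔ]
    ring
  have s2 : Δ * (γ * d (Y 2) + δ * e (Y 2)) = (a * δ - b * γ) * D (Y 2) := by
    have h1 : Δ * (γ * d (Y 2) + δ * e (Y 2)) =
      (γ * b' - δ * a') * (a * d (Y 2) + b * e (Y 2)) + (a * δ - b * γ) * D (Y 2) := by
      rw [h.hD, hΔ]
      ring
    rw [h1, t2]
    ring
  have k1 : (γ * b' - δ * a') * (Y 0 ^ 2 + Y 1 ^ 2) = 0 := by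
    linear_combination Δ * j1 + Y 1 * s0 - Y 0 * s1 - (a * δ - b * γ) * h.orth
  have k2 : (a * δ - b * γ) * (Y 0 ^ 2 + Y 1 ^ 2) = 0 := by
    linear_combination Δ * j2 - D (Y 0) * s0 - D (Y 1) * s1 - D (Y 2) * s2 -
      (γ * b' - δ * a') * h.orth - (a * δ - b * γ) * h.len
  have l1 : γ * b' - δ * a' = 0 := (mul_eq_zero.1 k1).resolve_right hR
  have l2 : a * δ - b * γ = 0 := (mul_eq_zero.1 k2).resolve_right hR
  have m1 : γ = 0 := by
    have h1 : Δ * γ = 0 := by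
      rw [hΔ]
      linear_combination a * l1 + a' * l2
    exact (mul_eq_zero.1 h1).resolve_left hΔ0
  have m2 : δ = 0 := by
    have h1 : Δ * δ = 0 := by
      rw [hΔ]
      linear_combination b * l1 + b' * l2
    exact (mul_eq_zero.1 h1).resolve_left hΔ0
  refine ⟨sub_eq_zero.1 (hγ.symm.trans m1), sub_eq_zero.1 (hδ.symm.trans m2), fun f => ?_⟩
  have h1 := comm f
  rw [m1, m2, zero_mul, zero_mul, add_zero] at h1
  exact sub_eq_zero.1 h1

end Pool.Agent.Work.MP_abe657_gt.Rev
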