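import Pool.Agent.Work.MP_abe657_gt.Rev.GeoA
import Pool.Agent.Work.MP_abe657_gt.Two.FrLap

/-!
Module GeoE (M). The Laplacian in a rotational frame.

Proof. Let `r^2 = R = Y0² + Y1²`, `r ≠ 0`; `T r = 0` since `2 r T r = T R = 0`. Put `E1 = r⁻¹ • T`, `E2 = r⁻¹ • D`,
`p1 = a/r, q1 = b/r, p2 = a'/r, q2 = b'/r`, `c1 = D r/r²`, `c2 = 0`, and apply `Two.lap_frame`
(file `Two/FrLap.lean`). `n1`: `⟨TY,TY⟩ = R` expanded: `met d d Y a² + 2 met d e Y a b + met e e Y b² = R`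
(`TY_i = a dY_i + b eY_i`, and `TY = (-Y1, Y0, 0)`); `n12`: `orth`; `n2`: `len`. `hp`: `E1 p2 - E2 p1 = c1 p1`:
`r⁻¹ T (a'/r) - r⁻¹ D (a/r) = r⁻² (T a' - D a) + r⁻³ (D r) a` (`T r = 0`), and `T a' = D a`. `hq` the same with `b`.
The conclusion: `lapX f = -(E1 (E1 f) + E2 (E2 f) + c1 E2 f)`, `E1 (E1 f) = r⁻² T (T f)`,
`E2 (E2 f) = r⁻² D (D f) - r⁻³ (D r) D f`, `c1 E2 f = r⁻³ (D r) D f`.
-/

set_option autoImplicit false

namespace Pool.Agent.Work.MP_abe657_gt.Rev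

open Pool.Agent.Work.MP_abe657_gt Pool.Agent.Work.MP_abe657_gt.Two

theorem lap_rotFrame {Ω : Type} [Field Ω] [CharZero Ω] [Algebra ℂ Ω]
    (d e T D : Derivation ℂ Ω Ω) (Y : Fin 3 → Ω)
    (hdet : detM d e Y ≠ 0) (a b a' b' : Ω) (h : RotFrame d e T D Y a b a' b')
    (ha : T a' = D a) (hb : T b' = D b) (r : Ω) (hr : r ^ 2 = Y 0 ^ 2 + Y 1 ^ 2) (f : Ω) :
    lapX d e Y f = -((D (D f) + T (T f)) / r ^ 2) := by
  have hR := rad_ne d e Y hdet
  have hr0 : r ≠ 0 := by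
    rintro rfl
    apply hR
    rw [← hr]
    ring
  have hTr : T r = 0 := by
    have h1 : T (r ^ 2) = T (Y 0 ^ 2 + Y 1 ^ 2) := by rw [hr]
    simp only [pow_two, map_add, Derivation.leibniz, smul_eq_mul, h.t0, h.t1] at h1
    have h2 : (2 * r) * T r = 0 := by linear_combination h1
    rcases mul_eq_zero.1 h2 with h3 | h3
    · exact absurd h3 (mul_ne_zero two_ne_zero hr0)
    · exact h3
  obtain ⟨s, hs⟩ : ∃ s : Ω, s = r⁻¹ := ⟨_, rfl⟩
  have hrs : s * r = 1 := by rw [hs, inv_mul_cancel₀ hr0]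
  have hTs : T s = 0 := by
    rw [hs, Derivation.leibniz_inv, hTr, smul_zero]
  have hDs : D s = -(s ^ 2 * D r) := by
    rw [hs, Derivation.leibniz_inv, smul_eq_mul]
    ring
  have hsR : s ^ 2 * (Y 0 ^ 2 + Y 1 ^ 2) = 1 := by
    rw [← hr, ← mul_pow, hrs, one_pow]
  have t0 : a * d (Y 0) + b * e (Y 0) = -Y 1 := by rw [← h.hT, h.t0]
  have t1 : a * d (Y 1) + b * e (Y 1) = Y 0 := by rw [← h.hT, h.t1]
  have t2 : a * d (Y 2) + b * e (Y 2) = 0 := by rw [← h.hT, h.t2]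
  have g1 : met d d Y * a ^ 2 + 2 * met d e Y * a * b + met e e Y * b ^ 2 =
      Y 0 ^ 2 + Y 1 ^ 2 := by
    simp only [met, Fin.sum_univ_three]
    have e1 : Y 0 ^ 2 + Y 1 ^ 2 = (-Y 1) ^ 2 + Y 0 ^ 2 + (0 : Ω) ^ 2 := by ring
    rw [e1, ← t0, ← t1, ← t2]
    ring
  have g12 : met d d Y * a * a' + met d e Y * (a * b' + b * a') + met e e Y * b * b' = 0 := by
    have e1 : met d d Y * a * a' + met d e Y * (a * b' + b * a') + met e e Y * b * b' =
        (a' * d (Y 0) + b' * e (Y 0)) * (a * d (Y 0) + b * e (Y 0)) +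
        (a' * d (Y 1) + b' * e (Y 1)) * (a * d (Y 1) + b * e (Y 1)) +
        (a' * d (Y 2) + b' * e (Y 2)) * (a * d (Y 2) + b * e (Y 2)) := by
      simp only [met, Fin.sum_univ_three]
      ring
    rw [e1, t0, t1, t2, ← h.hD, ← h.hD, mul_zero, add_zero]
    exact h.orth
  have g2 : met d d Y * a' ^ 2 + 2 * met d e Y * a' * b' + met e e Y * b' ^ 2 =
      Y 0 ^ 2 + Y 1 ^ 2 := by
    rw [← h.len, h.hD, h.hD, h.hD]
    simp only [met, Fin.sum_univ_three]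
    ring
  have main := lap_frame d e (s • T) (s • D) Y hdet (s * a) (s * b) (s * a') (s * b')
    (fun f => by
      rw [Derivation.smul_apply, smul_eq_mul, h.hT]
      ring)
    (fun f => by
      rw [Derivation.smul_apply, smul_eq_mul, h.hD]
      ring)
    (by linear_combination s ^ 2 * g1 + hsR)
    (by linear_combination s ^ 2 * g12)
    (by linear_combination s ^ 2 * g2 + hsR)
    (s ^ 2 * D r) 0
    (by
      simp only [Derivation.smul_apply, Derivation.leibniz, smul_eq_mul, hTs, hDs, ha]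
      ring)
    (by
      simp only [Derivation.smul_apply, Derivation.leibniz, smul_eq_mul, hTs, hDs, hb]
      ring) f
  rw [main]
  simp only [Derivation.smul_apply, Derivation.leibniz, smul_eq_mul, hTs, hDs]
  have e2 : (D (D f) + T (T f)) / r ^ 2 = s ^ 2 * (D (D f) + T (T f)) := by
    rw [hs, div_eq_mul_inv, inv_pow, mul_comm]
  rw [e2]
  ring

end Pool.Agent.Work.MP_abe657_gt.Rev
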