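import Pool.Agent.Work.MP_abe657_gt.Rev.GDefs

/-!
Module GeoF (M). The profile curve: the sequences `y, w`.

Here `L : Module.End ℂ Ω` is the Laplacian, `L f = -(D D f + T T f)/r²`, `T, D` commute.
Proof. `T r = 0` (`2 r T r = T (Y0² + Y1²) = 2 (Y0 (-Y1) + Y1 Y0) = 0`). Let `i = algebraMap ℂ Ω Complex.I`,
`ω = (Y0 + i Y1)/r`, `ω' = (Y0 - i Y1)/r`: `ω ω' = 1`, `T ω = i ω` (from `t0, t1`, `T r = 0`, `i² = -1`).
`D ω = 0`: `D (rω) (r ω') = (DY0 + i DY1)(Y0 - i Y1) = (Y0 DY0 + Y1 DY1) + i (Y0 DY1 - Y1 DY0) = r D r + 0` by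
`orth`; and `D (rω) r ω' = r D r + r² ω' D ω`; so `D ω = 0`. Likewise `D ω' = 0`. Arc length:
`(DY0)² + (DY1)² = D(rω) D(rω') = (D r)²`, so `len` reads `(D r)² + (D (Y 2))² = r²`.
Sequences: `y 0 = r`, `y (j+1) = (y j - D D (y j))/r²`, `w 0 = Y 2 - c2`, `w (j+1) = -D D (w j)/r²` (`Nat.rec`).
Then `hy`, `hw` hold by definition (`r ≠ 0`). By induction `T (y j) = 0`, `T (w j) = 0` (`T` commutes with `D`),
`L (y j ω) = -(D D (y j) ω + y j T T ω)/r² = -(D D (y j) - y j) ω/r² = y (j+1) ω` (`T T ω = -ω`), `L (w j) = w (j+1)`.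
So `L^i (y j ω) = y (i+j) ω`, `L^i (w j) = w (i+j)`.
Relations. `P(L)(Y a - c a) = 0` for `a = 0, 1` gives, with `γ = c 0 + I c 1`:
`P(L)(r ω) = P(L)(γ)`, and `P(L)(γ) = P.coeff 0 • γ` because `L γ = 0` for constants. So
`(∑ P.coeff i • y i) ω = constant`; applying `T`: `i (∑ P.coeff i • y i) ω = 0`, so `∑ P.coeff i • y i = 0` (`ω ≠ 0`).
Applying `L^j` to `∑ P.coeff i • (y i ω) = 0`: `∑ P.coeff i • y (i+j) ω = 0`. For `w` directly: `P(L) (w 0) = 0`,
apply `L^j`. (`Polynomial.aeval L P = ∑ coeff • L^i`: `Polynomial.aeval_eq_sum_range`.)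
-/

set_option autoImplicit false

namespace Pool.Agent.Work.MP_abe657_gt.Rev

open Pool.Agent.Work.MP_abe657_gt Pool.Agent.Work.MP_abe657_gt.Two

private theorem sum_shift {Ω : Type} [Field Ω] [Algebra ℂ Ω] (L : Module.End ℂ Ω)
    (P : Polynomial ℂ) (v : ℕ → Ω) (hv : ∀ i j, (L ^ i) (v j) = v (i + j))
    (h : ∑ i ∈ Finset.range (P.natDegree + 1), P.coeff i • v i = 0) (j : ℕ) :
    ∑ i ∈ Finset.range (P.natDegree + 1), P.coeff i • v (i + j) = 0 := by
  have h1 := congrArg (L ^ j) h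
  rw [map_zero, map_sum] at h1
  rw [← h1]
  refine Finset.sum_congr rfl fun i _ => ?_
  rw [map_smul, hv, add_comm]

private theorem aeval_sum {Ω : Type} [Field Ω] [Algebra ℂ Ω] (L : Module.End ℂ Ω)
    (P : Polynomial ℂ) (v : ℕ → Ω) (hv : ∀ i j, (L ^ i) (v j) = v (i + j)) :
    Polynomial.aeval L P (v 0) = ∑ i ∈ Finset.range (P.natDegree + 1), P.coeff i • v i := by
  rw [Polynomial.aeval_eq_sum_range, LinearMap.sum_apply]
  refine Finset.sum_congr rfl fun i _ => ?_
  rw [LinearMap.smul_apply, hv, add_zero]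

private theorem aeval_const {Ω : Type} [Field Ω] [Algebra ℂ Ω] (L : Module.End ℂ Ω)
    (P : Polynomial ℂ) (x : Ω) (hx : L x = 0) :
    Polynomial.aeval L P x = P.coeff 0 • x := by
  rw [Polynomial.aeval_eq_sum_range, LinearMap.sum_apply, Finset.sum_range_succ']
  rw [Finset.sum_eq_zero, zero_add]
  · simp
  · intro i _
    rw [LinearMap.smul_apply, pow_succ, Module.End.mul_apply, hx, map_zero, smul_zero]

theorem exists_profile {Ω : Type} [Field Ω] [CharZero Ω] [Algebra ℂ Ω]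
    (d e T D : Derivation ℂ Ω Ω) (Y : Fin 3 → Ω) (a b a' b' : Ω)
    (h : RotFrame d e T D Y a b a' b') (hcomm : ∀ f, T (D f) = D (T f)) (r : Ω)
    (hr : r ^ 2 = Y 0 ^ 2 + Y 1 ^ 2) (hr0 : r ≠ 0) (L : Module.End ℂ Ω)
    (hL : ∀ f, L f = -((D (D f) + T (T f)) / r ^ 2)) (P : Polynomial ℂ) (c : Fin 3 → ℂ)
    (hP : ∀ i, Polynomial.aeval L P (Y i - algebraMap ℂ Ω (c i)) = 0) :
    ∃ y w : ℕ → Ω, y 0 = r ∧ w 0 = Y 2 - algebraMap ℂ Ω (c 2) ∧
      (∀ j, D (D (y j)) = y j - (y 0) ^ 2 * y (j + 1)) ∧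
      (∀ j, D (D (w j)) = -(y 0) ^ 2 * w (j + 1)) ∧
      (D (y 0)) ^ 2 + (D (w 0)) ^ 2 = (y 0) ^ 2 ∧
      (∀ j, ∑ i ∈ Finset.range (P.natDegree + 1), P.coeff i • y (i + j) = 0) ∧
      (∀ j, ∑ i ∈ Finset.range (P.natDegree + 1), P.coeff i • w (i + j) = 0) := by
  have hI : (algebraMap ℂ Ω Complex.I) * (algebraMap ℂ Ω Complex.I) = -1 := by
    rw [← map_mul, Complex.I_mul_I, map_neg, map_one]
  set I : Ω := algebraMap ℂ Ω Complex.I with hIdef
  have hTI : T I = 0 := T.map_algebraMap _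
  have hDI : D I = 0 := D.map_algebraMap _
  have hI0 : I ≠ 0 := by
    intro h0
    rw [h0, mul_zero] at hI
    exact one_ne_zero (neg_eq_zero.1 hI.symm)
  have hTm : ∀ x z, T (x * z) = x * T z + z * T x := fun x z => T.leibniz x z
  have hDm : ∀ x z, D (x * z) = x * D z + z * D x := fun x z => D.leibniz x z
  have h2 : (2 : Ω) ≠ 0 := two_ne_zero
  have hr' : r * r = Y 0 * Y 0 + Y 1 * Y 1 := by rw [← pow_two, hr]; ring
  have hr2 : r ^ 2 ≠ 0 := pow_ne_zero 2 hr0
  -- `T r = 0`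
  have hTr : T r = 0 := by
    have h1 := congrArg T hr'
    rw [map_add, hTm, hTm, hTm, h.t0, h.t1] at h1
    have h3 : (2 : Ω) * (r * T r) = 0 := by linear_combination h1
    exact ((mul_eq_zero.1 ((mul_eq_zero.1 h3).resolve_left h2)).resolve_left hr0)
  have hDr : r * D r = Y 0 * D (Y 0) + Y 1 * D (Y 1) := by
    have h1 := congrArg D hr'
    rw [map_add, hDm, hDm, hDm] at h1
    have h3 : (2 : Ω) * (r * D r - (Y 0 * D (Y 0) + Y 1 * D (Y 1))) = 0 := by
      linear_combination h1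
    exact sub_eq_zero.1 ((mul_eq_zero.1 h3).resolve_left h2)
  obtain ⟨ω, hω⟩ : ∃ ω, r * ω = Y 0 + I * Y 1 := ⟨(Y 0 + I * Y 1) / r, by field_simp⟩
  obtain ⟨ω', hω'⟩ : ∃ ω', r * ω' = Y 0 - I * Y 1 := ⟨(Y 0 - I * Y 1) / r, by field_simp⟩
  have hωω : ω * ω' = 1 := by
    have h1 : r ^ 2 * (ω * ω' - 1) = 0 := by
      linear_combination (r * ω') * hω + (Y 0 + I * Y 1) * hω' - hr - (Y 1) ^ 2 * hI
    exact sub_eq_zero.1 ((mul_eq_zero.1 h1).resolve_left hr2)
  have hω0 : ω ≠ 0 := left_ne_zero_of_mul_eq_one hωω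
  have hω'0 : ω' ≠ 0 := right_ne_zero_of_mul_eq_one hωω
  have hTω : T ω = I * ω := by
    have h1 := congrArg T hω
    rw [map_add, hTm, hTm, hTI, hTr, h.t0, h.t1] at h1
    have h3 : r * (T ω - I * ω) = 0 := by
      linear_combination h1 - I * hω - (Y 1) * hI
    exact sub_eq_zero.1 ((mul_eq_zero.1 h3).resolve_left hr0)
  have hDω : D ω = 0 := by
    have h1 := congrArg D hω
    rw [map_add, hDm, hDm, hDI] at h1
    have h3 : r ^ 2 * ω' * D ω = 0 := by
      linear_combination (r * ω') * h1 + (D (Y 0) + I * D (Y 1)) * hω' - (r * D r) * hωω - hDr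
        - (Y 1 * D (Y 1)) * hI + I * h.orth
    rcases mul_eq_zero.1 h3 with h4 | h4
    · exact absurd h4 (mul_ne_zero hr2 hω'0)
    · exact h4
  have hDω' : D ω' = 0 := by
    have h1 := congrArg D hωω
    rw [hDm, hDω, mul_zero, add_zero, D.map_one_eq_zero] at h1
    exact (mul_eq_zero.1 h1).resolve_left hω0
  -- arc length
  have hlen : (D r) ^ 2 + (D (Y 2)) ^ 2 = r ^ 2 := by
    have h1 := congrArg D hω
    have h3 := congrArg D hω'
    rw [map_add, hDm, hDm, hDI, hDω] at h1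
    rw [map_sub, hDm, hDm, hDI, hDω'] at h3
    linear_combination h.len - hr + (ω' * D r) * h1 + (D (Y 0) + I * D (Y 1)) * h3
      - (D r) ^ 2 * hωω - (D (Y 1)) ^ 2 * hI
  -- the sequences
  obtain ⟨y, hy0, hys⟩ : ∃ y : ℕ → Ω, y 0 = r ∧ ∀ j, y (j + 1) = (y j - D (D (y j))) / r ^ 2 :=
    ⟨fun j => Nat.rec r (fun _ z => (z - D (D z)) / r ^ 2) j, rfl, fun j => rfl⟩
  obtain ⟨w, hw0, hws⟩ : ∃ w : ℕ → Ω, w 0 = Y 2 - algebraMap ℂ Ω (c 2) ∧
      ∀ j, w (j + 1) = -(D (D (w j))) / r ^ 2 :=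
    ⟨fun j => Nat.rec (Y 2 - algebraMap ℂ Ω (c 2)) (fun _ z => -(D (D z)) / r ^ 2) j, rfl,
      fun j => rfl⟩
  have hys' : ∀ j, r * r * y (j + 1) = y j - D (D (y j)) := by
    intro j
    rw [hys]
    field_simp
  have hws' : ∀ j, r * r * w (j + 1) = -(D (D (w j))) := by
    intro j
    rw [hws]
    field_simp
  have hTrr : T (r * r) = 0 := by rw [hTm, hTr, mul_zero, add_zero]
  have hrr : r * r ≠ 0 := mul_ne_zero hr0 hr0
  have hTy : ∀ j, T (y j) = 0 := by
    intro j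
    induction j with
    | zero => rw [hy0]; exact hTr
    | succ j ih =>
      have h1 := congrArg T (hys' j)
      rw [hTm, hTrr, mul_zero, add_zero, map_sub, hcomm, hcomm, ih, map_zero, map_zero,
        sub_zero] at h1
      exact (mul_eq_zero.1 h1).resolve_left hrr
  have hTw : ∀ j, T (w j) = 0 := by
    intro j
    induction j with
    | zero => rw [hw0, map_sub, h.t2, T.map_algebraMap, sub_zero]
    | succ j ih =>
      have h1 := congrArg T (hws' j)
      rw [hTm, hTrr, mul_zero, add_zero, map_neg, hcomm, hcomm, ih, map_zero, map_zero,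
        neg_zero] at h1
      exact (mul_eq_zero.1 h1).resolve_left hrr
  have hLy : ∀ j, L (y j * ω) = y (j + 1) * ω := by
    intro j
    have a1 : D (D (y j * ω)) = ω * D (D (y j)) := by
      rw [hDm, hDω, mul_zero, zero_add, hDm, hDω, mul_zero, add_zero]
    have a2 : T (T (y j * ω)) = y j * (I * (I * ω)) := by
      rw [hTm, hTω, hTy, mul_zero, add_zero, hTm, hTm, hTI, hTω, hTy, mul_zero, add_zero, mul_zero,
        add_zero]
    have a3 : I * (I * ω) = -ω := by rw [← mul_assoc, hI]; ring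
    rw [hL, a1, a2, a3, hys]
    ring
  have hLw : ∀ j, L (w j) = w (j + 1) := by
    intro j
    rw [hL, hTw, map_zero, add_zero, hws, neg_div]
  have hLyp : ∀ i j, (L ^ i) (y j * ω) = y (i + j) * ω := by
    intro i
    induction i with
    | zero => intro j; simp
    | succ i ih =>
      intro j
      rw [pow_succ', Module.End.mul_apply, ih, hLy]
      congr 2
      ring
  have hLwp : ∀ i j, (L ^ i) (w j) = w (i + j) := by
    intro i
    induction i with
    | zero => intro j; simp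
    | succ i ih =>
      intro j
      rw [pow_succ', Module.End.mul_apply, ih, hLw]
      congr 1
      ring
  have hLc : ∀ z : ℂ, L (algebraMap ℂ Ω z) = 0 := by
    intro z
    rw [hL, D.map_algebraMap, T.map_algebraMap, map_zero, map_zero, add_zero, zero_div, neg_zero]
  -- relations
  have hy1 : ∑ i ∈ Finset.range (P.natDegree + 1), P.coeff i • (y i * ω) =
      P.coeff 0 • algebraMap ℂ Ω (c 0 + Complex.I * c 1) := by
    rw [← aeval_sum L P (fun j => y j * ω) hLyp, ← aeval_const L P _ (hLc _)]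
    have e : y 0 * ω = (Y 0 - algebraMap ℂ Ω (c 0)) +
        Complex.I • (Y 1 - algebraMap ℂ Ω (c 1)) +
        algebraMap ℂ Ω (c 0 + Complex.I * c 1) := by
      rw [hy0, hω, Algebra.smul_def, map_add, map_mul]
      ring
    show Polynomial.aeval L P (y 0 * ω) = _
    rw [e, map_add, map_add, map_smul, hP, hP, smul_zero, add_zero, zero_add]
  have hS : ∑ i ∈ Finset.range (P.natDegree + 1), P.coeff i • y i = 0 := by
    have e : (∑ i ∈ Finset.range (P.natDegree + 1), P.coeff i • y i) * ω =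
        algebraMap ℂ Ω (P.coeff 0 * (c 0 + Complex.I * c 1)) := by
      rw [Finset.sum_mul]
      simp only [smul_mul_assoc]
      rw [hy1, Algebra.smul_def, map_mul]
    have h1 := congrArg T e
    have hTS : T (∑ i ∈ Finset.range (P.natDegree + 1), P.coeff i • y i) = 0 := by
      rw [map_sum]
      refine Finset.sum_eq_zero fun i _ => ?_
      rw [T.map_smul, hTy, smul_zero]
    rw [hTm, hTS, mul_zero, add_zero, hTω, T.map_algebraMap] at h1
    exact (mul_eq_zero.1 h1).resolve_right (mul_ne_zero hI0 hω0)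
  refine ⟨y, w, hy0, hw0, ?_, ?_, ?_, ?_, ?_⟩
  · intro j
    rw [hy0]
    linear_combination hys' j
  · intro j
    rw [hy0]
    linear_combination hws' j
  · rw [hy0, hw0, map_sub, D.map_algebraMap, sub_zero]
    exact hlen
  · intro j
    have h1 : ∑ i ∈ Finset.range (P.natDegree + 1), P.coeff i • (y i * ω) = 0 := by
      have : ∑ i ∈ Finset.range (P.natDegree + 1), P.coeff i • (y i * ω) =
          (∑ i ∈ Finset.range (P.natDegree + 1), P.coeff i • y i) * ω := by
        rw [Finset.sum_mul]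
        simp only [smul_mul_assoc]
      rw [this, hS, zero_mul]
    have h3 := sum_shift L P (fun j => y j * ω) hLyp h1 j
    have h4 : (∑ i ∈ Finset.range (P.natDegree + 1), P.coeff i • y (i + j)) * ω = 0 := by
      rw [Finset.sum_mul]
      simp only [smul_mul_assoc]
      exact h3
    exact (mul_eq_zero.1 h4).resolve_right hω0
  · intro j
    apply sum_shift L P w hLwp
    rw [← aeval_sum L P w hLwp, hw0]
    exact hP 2

end Pool.Agent.Work.MP_abe657_gt.Rev
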