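import Mathlib

/-!
Module GeoG (S-M, Mathlib only). From the profile curve to the surface.

Proof. There is a nonzero `q ∈ ℂ[x, z]` (`MvPolynomial (Fin 2) ℂ`) with `q(r, Z - c) = 0`. Let
`p(x,z) = q(x, z - c)`, nonzero, `p(r, Z) = 0`. The polynomial `p(x,z) p(-x,z)` is nonzero and even in `x`,
so it is `s(x², z)` with `s ≠ 0`, and `s(r², Z) = 0`. Put `G(x0,x1,x2) = s(x0² + x1², x2)`; `G(Y) = 0`, and `G ≠ 0`:
substituting `x1 = 0` gives `s(x0², x2) = p(x0,x2) p(-x0,x2) ≠ 0`.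
Alternative without even polynomials (transcendence degree): if `Y 0, Y 1, Y 2` were algebraically independent
over `ℂ`, so would be `Y0² + Y1², Y2` (e.g. `Y2` is transcendental over `ℂ` and `Y0² + Y1²` is transcendental
over `ℂ(Y2)`, otherwise `Y0` would be algebraic over `ℂ(Y1, Y2)`), hence `r, Z`: contradiction. A family which is
not algebraically independent satisfies a nonzero polynomial (`algebraicIndependent_iff`).
-/

set_option autoImplicit false

namespace Pool.Agent.Work.MP_abe657_gt.Rev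

open MvPolynomial in
private theorem split_even (q : MvPolynomial (Fin 2) ℂ) : ∃ a b : MvPolynomial (Fin 2) ℂ,
    q = aeval ![(X 0 : MvPolynomial (Fin 2) ℂ) ^ 2, X 1] a +
      X 0 * aeval ![(X 0 : MvPolynomial (Fin 2) ℂ) ^ 2, X 1] b := by
  induction q using MvPolynomial.induction_on with
  | C z => exact ⟨C z, 0, by simp⟩
  | add p q hp hq =>
    obtain ⟨a, b, h1⟩ := hp
    obtain ⟨a', b', h2⟩ := hq
    refine ⟨a + a', b + b', ?_⟩
    rw [h1, h2, map_add, map_add]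
    ring
  | mul_X p n hp =>
    obtain ⟨a, b, h1⟩ := hp
    fin_cases n
    · refine ⟨X 0 * b, a, ?_⟩
      conv_lhs => rw [h1]
      simp only [map_mul, aeval_X]
      simp
      ring
    · refine ⟨a * X 1, b * X 1, ?_⟩
      conv_lhs => rw [h1]
      simp only [map_mul, aeval_X]
      simp
      ring

theorem exists_poly {Ω : Type} [Field Ω] [Algebra ℂ Ω] (Y : Fin 3 → Ω) (r : Ω) (c : ℂ)
    (hr : r ^ 2 = Y 0 ^ 2 + Y 1 ^ 2)
    (h : ¬ AlgebraicIndependent ℂ ![r, Y 2 - algebraMap ℂ Ω c]) :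
    ∃ G : MvPolynomial (Fin 3) ℂ, G ≠ 0 ∧ MvPolynomial.aeval Y G = 0 := by
  classical
  have h1 : ∃ q : MvPolynomial (Fin 2) ℂ,
      MvPolynomial.aeval ![r, Y 2 - algebraMap ℂ Ω c] q = 0 ∧ q ≠ 0 := by
    by_contra hcon
    push Not at hcon
    exact h (algebraicIndependent_iff.2 hcon)
  obtain ⟨q, hq0, hq⟩ := h1
  obtain ⟨a, b, hab⟩ := split_even q
  let f : MvPolynomial (Fin 2) ℂ →ₐ[ℂ] MvPolynomial (Fin 3) ℂ :=
    MvPolynomial.aeval ![(MvPolynomial.X 0 : MvPolynomial (Fin 3) ℂ) ^ 2 + MvPolynomial.X 1 ^ 2,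
      MvPolynomial.X 2 - MvPolynomial.C c]
  let sq : MvPolynomial (Fin 2) ℂ →ₐ[ℂ] MvPolynomial (Fin 2) ℂ :=
    MvPolynomial.aeval ![(MvPolynomial.X 0 : MvPolynomial (Fin 2) ℂ) ^ 2, MvPolynomial.X 1]
  let ng : MvPolynomial (Fin 2) ℂ →ₐ[ℂ] MvPolynomial (Fin 2) ℂ :=
    MvPolynomial.aeval ![-(MvPolynomial.X 0 : MvPolynomial (Fin 2) ℂ), MvPolynomial.X 1]
  have hab' : q = sq a + MvPolynomial.X 0 * sq b := hab
  have hng : ng.comp ng = AlgHom.id ℂ _ := by
    apply MvPolynomial.algHom_ext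
    intro i
    fin_cases i <;> simp [ng]
  have hsq : ng.comp sq = sq := by
    apply MvPolynomial.algHom_ext
    intro i
    fin_cases i <;> simp [ng, sq]
  have hngq : ng q = sq a - MvPolynomial.X 0 * sq b := by
    have e1 : ∀ z, ng (sq z) = sq z := fun z => DFunLike.congr_fun hsq z
    rw [hab', map_add, map_mul, e1, e1]
    have : ng (MvPolynomial.X 0) = - MvPolynomial.X 0 := by simp [ng]
    rw [this]
    ring
  have hngq0 : ng q ≠ 0 := by
    intro h0
    apply hq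
    have := DFunLike.congr_fun hng q
    rw [AlgHom.comp_apply, h0, map_zero] at this
    exact this.symm
  refine ⟨f a ^ 2 - (MvPolynomial.X 0 ^ 2 + MvPolynomial.X 1 ^ 2) * f b ^ 2, ?_, ?_⟩
  · intro h0
    let ψ : MvPolynomial (Fin 3) ℂ →ₐ[ℂ] MvPolynomial (Fin 2) ℂ :=
      MvPolynomial.aeval ![(MvPolynomial.X 0 : MvPolynomial (Fin 2) ℂ), 0,
        MvPolynomial.X 1 + MvPolynomial.C c]
    have hψ : ψ.comp f = sq := by
      apply MvPolynomial.algHom_ext
      intro i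
      fin_cases i <;> simp [ψ, sq, f, MvPolynomial.algebraMap_eq]
    have e1 : ∀ z, ψ (f z) = sq z := fun z => DFunLike.congr_fun hψ z
    have h2 := congrArg ψ h0
    rw [map_zero, map_sub, map_mul, map_pow, map_pow, e1, e1] at h2
    have e2 : ψ (MvPolynomial.X 0 ^ 2 + MvPolynomial.X 1 ^ 2) = MvPolynomial.X 0 ^ 2 := by
      simp [ψ]
    rw [e2] at h2
    have h3 : q * ng q = 0 := by
      rw [hngq, ← h2]
      conv_lhs => rw [hab']
      ring
    exact mul_ne_zero hq hngq0 h3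
  · have e1 : ∀ z, MvPolynomial.aeval Y (f z) =
        MvPolynomial.aeval ![Y 0 ^ 2 + Y 1 ^ 2, Y 2 - algebraMap ℂ Ω c] z := by
      intro z
      have : (MvPolynomial.aeval Y).comp f =
          MvPolynomial.aeval ![Y 0 ^ 2 + Y 1 ^ 2, Y 2 - algebraMap ℂ Ω c] := by
        apply MvPolynomial.algHom_ext
        intro i
        fin_cases i <;> simp [f]
      exact DFunLike.congr_fun this z
    have e2 : ∀ z, MvPolynomial.aeval ![r, Y 2 - algebraMap ℂ Ω c] (sq z) =
        MvPolynomial.aeval ![Y 0 ^ 2 + Y 1 ^ 2, Y 2 - algebraMap ℂ Ω c] z := by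
      intro z
      have : (MvPolynomial.aeval ![r, Y 2 - algebraMap ℂ Ω c]).comp sq =
          MvPolynomial.aeval ![Y 0 ^ 2 + Y 1 ^ 2, Y 2 - algebraMap ℂ Ω c] := by
        apply MvPolynomial.algHom_ext
        intro i
        fin_cases i <;> simp [sq, hr]
      exact DFunLike.congr_fun this z
    have h4 := hq0
    rw [hab', map_add, map_mul, e2, e2] at h4
    simp only [MvPolynomial.aeval_X, Matrix.cons_val_zero] at h4
    rw [map_sub, map_mul, map_pow, map_pow, e1, e1]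
    simp only [map_add, map_pow, MvPolynomial.aeval_X]
    linear_combination (MvPolynomial.aeval ![Y 0 ^ 2 + Y 1 ^ 2, Y 2 - algebraMap ℂ Ω c] a -
      r * MvPolynomial.aeval ![Y 0 ^ 2 + Y 1 ^ 2, Y 2 - algebraMap ℂ Ω c] b) * h4 +
      (MvPolynomial.aeval ![Y 0 ^ 2 + Y 1 ^ 2, Y 2 - algebraMap ℂ Ω c] b) ^ 2 * hr

end Pool.Agent.Work.MP_abe657_gt.Rev
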