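import Pool.Agent.Work.MP_abe657_gt.Rev.GeoC
import Pool.Agent.Work.MP_abe657_gt.Rev.GeoD
import Pool.Agent.Work.MP_abe657_gt.Rev.GeoE
import Pool.Agent.Work.MP_abe657_gt.Rev.GeoF
import Pool.Agent.Work.MP_abe657_gt.Rev.GeoG
import Pool.Agent.Work.MP_abe657_gt.Rev.AlgCore

/-!
Assembly (helper77): a finite type surface with tangential rotation field about the third axis is
algebraic.
-/

set_option autoImplicit false

namespace Pool.Agent.Work.MP_abe657_gt.Rev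

open Pool.Agent.Work.MP_abe657_gt Pool.Agent.Work.MP_abe657_gt.Two

theorem rev_alg3 {Ω : Type} [Field Ω] [CharZero Ω] [IsAlgClosed Ω] [Algebra ℂ Ω]
    (d e : Derivation ℂ Ω Ω) (hde : ∀ f, d (e f) = e (d f)) (Y : Fin 3 → Ω)
    (hdet : detM d e Y ≠ 0) (htan : det3 (ap d Y) (ap e Y) (xi3 Y) = 0)
    (P : Polynomial ℂ) (hP : P.Monic) (hP0 : P.eval 0 ≠ 0) (c : Fin 3 → ℂ)
    (hPY : ∀ a, Polynomial.aeval (lapX d e Y) P (Y a - algebraMap ℂ Ω (c a)) = 0) :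
    ∃ G : MvPolynomial (Fin 3) ℂ, G ≠ 0 ∧ MvPolynomial.aeval Y G = 0 := by
  obtain ⟨T, D, a, b, a', b', hf⟩ := exists_rotFrame d e Y hdet htan
  obtain ⟨ha, hb, hc⟩ := rotFrame_comm d e T D hde Y hdet a b a' b' hf
  obtain ⟨r, hr⟩ := IsAlgClosed.exists_pow_nat_eq (Y 0 ^ 2 + Y 1 ^ 2) (n := 2) (by norm_num)
  have hr0 : r ≠ 0 := by
    rintro rfl
    apply rad_ne d e Y hdet
    rw [← hr]
    ring
  obtain ⟨y, w, hy0, hw0, hy, hw, harc, hyP, hwP⟩ :=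
    exists_profile d e T D Y a b a' b' hf hc r hr hr0 (lapX d e Y)
      (lap_rotFrame d e T D Y hdet a b a' b' hf ha hb r hr) P c hPY
  have hnot := alg_core D y w P hP hP0 (by rw [hy0]; exact hr0) hy hw harc hyP hwP
  rw [hy0, hw0] at hnot
  exact exists_poly Y r (c 2) hr hnot

end Pool.Agent.Work.MP_abe657_gt.Rev
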