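import Pool.Agent.Work.MP_abe657_gt.Rev.GeoH

/-!
Module GeoI (M). The same for a rotation field about an arbitrary line, by an orthogonal change of
coordinates.

Proof. `Y i = ∑ j, O i j (X j - b j)` (with `O i j`, `b j` mapped to `Ω`). `d (Y i) = ∑ j O i j d (X j)`; as
`Oᵀ O = 1`: `met d d Y = met d d X`, `met d e Y = met d e X`, `met e e Y = met e e X` (expand the sums,
or use `Matrix` algebra), so `detM d e Y = detM d e X`, `lapX d e Y = lapX d e X`. `Y i - c' i = ∑ j O i j (X j - c j)` with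
`c' i = ∑ j O i j (c j - b j)`, so `hPY` follows by linearity (`aeval (lapX ..) P` is `ℂ`-linear).
Tangency: `ξ = (Y 0) O_1 - (Y 1) O_0` (rows of `O`), so `O ξ = (-Y 1, Y 0, 0) = xi3 Y` because `O Oᵀ = 1`, and
`det3 (O u) (O v) (O ξ) = det O * det3 u v ξ = 0` (`Matrix.det_mul`; or expand). `rev_alg3` gives `G ≠ 0` with
`G(Y) = 0`. `G' = aeval (fun i => ∑ j, C (O i j) * (X j - C (b j))) G`: `aeval X G' = aeval Y G = 0`, and `G' ≠ 0`
because the substitution has an inverse (`X j = b j + ∑ i, O i j Y i`).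
-/

set_option autoImplicit false

namespace Pool.Agent.Work.MP_abe657_gt.Rev

open Pool.Agent.Work.MP_abe657_gt Pool.Agent.Work.MP_abe657_gt.Two

private lemma gi_der {Ω : Type} [Field Ω] [Algebra ℂ Ω] (d : Derivation ℂ Ω Ω) (c : ℂ) (f : Ω) :
    d (algebraMap ℂ Ω c * f) = algebraMap ℂ Ω c * d f := by
  rw [← Algebra.smul_def, Derivation.map_smul, Algebra.smul_def]

private lemma gi_row {Ω : Type} [Field Ω] [Algebra ℂ Ω] (O : Matrix (Fin 3) (Fin 3) ℂ)
    (hO : O * O.transpose = 1) (i k : Fin 3) :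
    algebraMap ℂ Ω (O i 0) * algebraMap ℂ Ω (O k 0) +
      algebraMap ℂ Ω (O i 1) * algebraMap ℂ Ω (O k 1) +
      algebraMap ℂ Ω (O i 2) * algebraMap ℂ Ω (O k 2) = if i = k then 1 else 0 := by
  have h1 : (O * O.transpose) i k = (1 : Matrix (Fin 3) (Fin 3) ℂ) i k := by rw [hO]
  rw [Matrix.mul_apply, Fin.sum_univ_three, Matrix.one_apply] at h1
  simp only [Matrix.transpose_apply] at h1
  rw [← map_mul, ← map_mul, ← map_mul, ← map_add, ← map_add, h1]
  split_ifs
  · exact map_one _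
  · exact map_zero _

private lemma gi_col {Ω : Type} [Field Ω] [Algebra ℂ Ω] (O : Matrix (Fin 3) (Fin 3) ℂ)
    (hO : O * O.transpose = 1) (i k : Fin 3) :
    algebraMap ℂ Ω (O 0 i) * algebraMap ℂ Ω (O 0 k) +
      algebraMap ℂ Ω (O 1 i) * algebraMap ℂ Ω (O 1 k) +
      algebraMap ℂ Ω (O 2 i) * algebraMap ℂ Ω (O 2 k) = if i = k then 1 else 0 := by
  have hO' : O.transpose * O.transpose.transpose = 1 := by
    rw [Matrix.transpose_transpose]
    exact mul_eq_one_comm.1 hO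
  exact gi_row O.transpose hO' i k

private lemma gi_dot {Ω : Type} [Field Ω] [Algebra ℂ Ω] (O : Matrix (Fin 3) (Fin 3) ℂ)
    (hO : O * O.transpose = 1) (u v : Fin 3 → Ω) :
    ∑ i, (∑ j, algebraMap ℂ Ω (O i j) * u j) * (∑ j, algebraMap ℂ Ω (O i j) * v j) =
      ∑ i, u i * v i := by
  simp only [Fin.sum_univ_three]
  have h00 := gi_col (Ω := Ω) O hO 0 0
  have h01 := gi_col (Ω := Ω) O hO 0 1
  have h02 := gi_col (Ω := Ω) O hO 0 2
  have h11 := gi_col (Ω := Ω) O hO 1 1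
  have h12 := gi_col (Ω := Ω) O hO 1 2
  have h22 := gi_col (Ω := Ω) O hO 2 2
  rw [if_pos rfl] at h00 h11 h22
  rw [if_neg (by decide)] at h01 h02 h12
  linear_combination u 0 * v 0 * h00 + (u 0 * v 1 + u 1 * v 0) * h01 +
    (u 0 * v 2 + u 2 * v 0) * h02 + u 1 * v 1 * h11 + (u 1 * v 2 + u 2 * v 1) * h12 +
    u 2 * v 2 * h22

theorem rev_alg {Ω : Type} [Field Ω] [CharZero Ω] [IsAlgClosed Ω] [Algebra ℂ Ω]
    (d e : Derivation ℂ Ω Ω) (hde : ∀ f, d (e f) = e (d f)) (X : Fin 3 → Ω)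
    (hdet : detM d e X ≠ 0) (O : Matrix (Fin 3) (Fin 3) ℂ) (hO : O * O.transpose = 1)
    (b : Fin 3 → ℂ)
    (htan : det3 (ap d X) (ap e X) (fun i =>
      (∑ j, algebraMap ℂ Ω (O 0 j) * (X j - algebraMap ℂ Ω (b j))) * algebraMap ℂ Ω (O 1 i)
      - (∑ j, algebraMap ℂ Ω (O 1 j) * (X j - algebraMap ℂ Ω (b j))) * algebraMap ℂ Ω (O 0 i)) = 0)
    (P : Polynomial ℂ) (hP : P.Monic) (hP0 : P.eval 0 ≠ 0) (c : Fin 3 → ℂ)
    (hPX : ∀ a, Polynomial.aeval (lapX d e X) P (X a - algebraMap ℂ Ω (c a)) = 0) :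
    ∃ G : MvPolynomial (Fin 3) ℂ, G ≠ 0 ∧ MvPolynomial.aeval X G = 0 := by
  obtain ⟨Y, hY⟩ : ∃ Y : Fin 3 → Ω, Y = fun i =>
    ∑ j, algebraMap ℂ Ω (O i j) * (X j - algebraMap ℂ Ω (b j)) := ⟨_, rfl⟩
  have hdY : ∀ (δ : Derivation ℂ Ω Ω) (i : Fin 3),
      δ (Y i) = ∑ j, algebraMap ℂ Ω (O i j) * δ (X j) := by
    intro δ i
    rw [hY, map_sum]
    refine Finset.sum_congr rfl fun j _ => ?_
    rw [gi_der, map_sub, Derivation.map_algebraMap, sub_zero]
  have hmet : ∀ δ ε : Derivation ℂ Ω Ω, met δ ε Y = met δ ε X := by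
    intro δ ε
    have h1 := gi_dot O hO (fun j => δ (X j)) (fun j => ε (X j))
    unfold met
    rw [← h1]
    refine Finset.sum_congr rfl fun i _ => ?_
    rw [hdY, hdY]
  have hdetY : detM d e Y ≠ 0 := by
    unfold detM
    rw [hmet, hmet, hmet]
    exact hdet
  have hlap : lapX d e Y = lapX d e X := by
    unfold lapX
    rw [hmet, hmet, hmet]
  have htanY : det3 (ap d Y) (ap e Y) (xi3 Y) = 0 := by
    have hξ : ∀ i, xi3 Y i = ∑ j, algebraMap ℂ Ω (O i j) *
        (Y 0 * algebraMap ℂ Ω (O 1 j) - Y 1 * algebraMap ℂ Ω (O 0 j)) := by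
      intro i
      have r0 := gi_row (Ω := Ω) O hO i 0
      have r1 := gi_row (Ω := Ω) O hO i 1
      rw [Fin.sum_univ_three]
      have e1 : algebraMap ℂ Ω (O i 0) *
            (Y 0 * algebraMap ℂ Ω (O 1 0) - Y 1 * algebraMap ℂ Ω (O 0 0)) +
          algebraMap ℂ Ω (O i 1) *
            (Y 0 * algebraMap ℂ Ω (O 1 1) - Y 1 * algebraMap ℂ Ω (O 0 1)) +
          algebraMap ℂ Ω (O i 2) *
            (Y 0 * algebraMap ℂ Ω (O 1 2) - Y 1 * algebraMap ℂ Ω (O 0 2)) =
          Y 0 * (if i = 1 then 1 else 0) - Y 1 * (if i = 0 then 1 else 0) := by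
        rw [← r0, ← r1]
        ring
      rw [e1]
      fin_cases i
      · simp [xi3]
      · simp [xi3]
      · simp [xi3]
    have h1 : det3 (ap d Y) (ap e Y) (xi3 Y) =
        (algebraMap ℂ Ω (O 0 0) * (algebraMap ℂ Ω (O 1 1) * algebraMap ℂ Ω (O 2 2) -
          algebraMap ℂ Ω (O 1 2) * algebraMap ℂ Ω (O 2 1)) +
        algebraMap ℂ Ω (O 0 1) * (algebraMap ℂ Ω (O 1 2) * algebraMap ℂ Ω (O 2 0) -
          algebraMap ℂ Ω (O 1 0) * algebraMap ℂ Ω (O 2 2)) +
        algebraMap ℂ Ω (O 0 2) * (algebraMap ℂ Ω (O 1 0) * algebraMap ℂ Ω (O 2 1) -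
          algebraMap ℂ Ω (O 1 1) * algebraMap ℂ Ω (O 2 0))) *
        det3 (ap d X) (ap e X) (fun i => Y 0 * algebraMap ℂ Ω (O 1 i) -
          Y 1 * algebraMap ℂ Ω (O 0 i)) := by
      unfold det3 ap
      rw [hξ, hξ, hξ]
      simp only [hdY, Fin.sum_univ_three]
      ring
    rw [h1]
    have h2 : det3 (ap d X) (ap e X) (fun i => Y 0 * algebraMap ℂ Ω (O 1 i) -
          Y 1 * algebraMap ℂ Ω (O 0 i)) = 0 := by
      rw [hY]
      exact htan
    rw [h2, mul_zero]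
  have hPY : ∀ a, Polynomial.aeval (lapX d e Y) P
      (Y a - algebraMap ℂ Ω (∑ j, O a j * (c j - b j))) = 0 := by
    intro a
    have h1 : Y a - algebraMap ℂ Ω (∑ j, O a j * (c j - b j)) =
        ∑ j, O a j • (X j - algebraMap ℂ Ω (c j)) := by
      rw [hY, map_sum, ← Finset.sum_sub_distrib]
      refine Finset.sum_congr rfl fun j _ => ?_
      rw [Algebra.smul_def, map_mul, map_sub]
      ring
    rw [h1, hlap, map_sum]
    refine Finset.sum_eq_zero fun j _ => ?_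
    rw [map_smul, hPX, smul_zero]
  obtain ⟨G, hG, hGY⟩ := rev_alg3 d e hde Y hdetY htanY P hP hP0 _ hPY
  obtain ⟨φ, hφ⟩ : ∃ φ : MvPolynomial (Fin 3) ℂ →ₐ[ℂ] MvPolynomial (Fin 3) ℂ,
      φ = MvPolynomial.aeval (fun i => ∑ j, MvPolynomial.C (O i j) *
        (MvPolynomial.X j - MvPolynomial.C (b j))) := ⟨_, rfl⟩
  obtain ⟨ψ, hψ⟩ : ∃ ψ : MvPolynomial (Fin 3) ℂ →ₐ[ℂ] MvPolynomial (Fin 3) ℂ,
      ψ = MvPolynomial.aeval (fun j => MvPolynomial.C (b j) + ∑ i, MvPolynomial.C (O i j) *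
        MvPolynomial.X i) := ⟨_, rfl⟩
  have hcomp : ψ.comp φ = AlgHom.id ℂ _ := by
    apply MvPolynomial.algHom_ext
    intro i
    rw [AlgHom.comp_apply, hφ, MvPolynomial.aeval_X, map_sum, AlgHom.id_apply]
    have h1 : ∀ j, ψ (MvPolynomial.C (O i j) * (MvPolynomial.X j - MvPolynomial.C (b j))) =
        MvPolynomial.C (O i j) * ∑ k, MvPolynomial.C (O k j) * MvPolynomial.X k := by
      intro j
      have hC : ∀ z : ℂ, ψ (MvPolynomial.C z) = MvPolynomial.C z := fun z => ψ.commutes z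
      rw [map_mul, map_sub, hC, hC, hψ, MvPolynomial.aeval_X]
      ring
    rw [Finset.sum_congr rfl fun j _ => h1 j]
    have h2 : ∀ k : Fin 3, (MvPolynomial.C (O i 0) * MvPolynomial.C (O k 0) +
        MvPolynomial.C (O i 1) * MvPolynomial.C (O k 1) +
        MvPolynomial.C (O i 2) * MvPolynomial.C (O k 2) : MvPolynomial (Fin 3) ℂ) =
          if i = k then 1 else 0 := by
      intro k
      have h3 : (O * O.transpose) i k = (1 : Matrix (Fin 3) (Fin 3) ℂ) i k := by rw [hO]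
      rw [Matrix.mul_apply, Fin.sum_univ_three, Matrix.one_apply] at h3
      simp only [Matrix.transpose_apply] at h3
      rw [← map_mul, ← map_mul, ← map_mul, ← map_add, ← map_add, h3]
      split_ifs
      · exact map_one _
      · exact map_zero _
    simp only [Fin.sum_univ_three]
    have e0 := h2 0
    have e1 := h2 1
    have e2 := h2 2
    have h4 : MvPolynomial.C (O i 0) * (MvPolynomial.C (O 0 0) * MvPolynomial.X 0 +
          MvPolynomial.C (O 1 0) * MvPolynomial.X 1 + MvPolynomial.C (O 2 0) * MvPolynomial.X 2) +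
        MvPolynomial.C (O i 1) * (MvPolynomial.C (O 0 1) * MvPolynomial.X 0 +
          MvPolynomial.C (O 1 1) * MvPolynomial.X 1 + MvPolynomial.C (O 2 1) * MvPolynomial.X 2) +
        MvPolynomial.C (O i 2) * (MvPolynomial.C (O 0 2) * MvPolynomial.X 0 +
          MvPolynomial.C (O 1 2) * MvPolynomial.X 1 + MvPolynomial.C (O 2 2) * MvPolynomial.X 2) =
        (if i = 0 then (1 : MvPolynomial (Fin 3) ℂ) else 0) * MvPolynomial.X 0 +
          (if i = 1 then 1 else 0) * MvPolynomial.X 1 +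
          (if i = 2 then 1 else 0) * MvPolynomial.X 2 := by
      rw [← e0, ← e1, ← e2]
      ring
    rw [h4]
    fin_cases i
    · simp
    · simp
    · simp
  refine ⟨φ G, ?_, ?_⟩
  · intro h0
    apply hG
    have h1 : ψ (φ G) = G := by
      have h2 := AlgHom.congr_fun hcomp G
      rw [AlgHom.comp_apply, AlgHom.id_apply] at h2
      exact h2
    rw [← h1, h0, map_zero]
  · have h1 : (MvPolynomial.aeval X).comp φ = MvPolynomial.aeval (R := ℂ) Y := by
      apply MvPolynomial.algHom_ext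
      intro i
      rw [AlgHom.comp_apply, hφ, MvPolynomial.aeval_X, MvPolynomial.aeval_X, map_sum, hY]
      refine Finset.sum_congr rfl fun j _ => ?_
      rw [map_mul, map_sub, MvPolynomial.aeval_X, MvPolynomial.aeval_C, MvPolynomial.aeval_C]
    have h2 := AlgHom.congr_fun h1 G
    rw [AlgHom.comp_apply, hGY] at h2
    exact h2

end Pool.Agent.Work.MP_abe657_gt.Rev
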