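import Pool.Agent.Work.MP_abe657_gt.Rev.Defs
import Pool.Agent.Work.MP_abe657_gt.Rev.Uniq

/-!
Module LinPoly (S-M). The solutions of the linearised limit system are polynomials.

Proof. `poly_of_dd`: if `dd f = ↑P` then `f = ↑Q`: the coefficients of `f` of index `> deg P + 1` vanish
(`coeff_dd`, char 0); or take `Q = C f(0) + ∑ (P.coeff n/(n+1)) X^(n+1)`.
Main statement: downward induction on `j`: `η (K+1) = 0`, `ζ (K+1) = 0`; `dd (dd (η j)) = -g² η (j+1)` is a
polynomial if `η (j+1)` is, with `g = 1 + C w * X`; similarly `ζ j` (first all `η j`, then all `ζ j`).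
Choose the polynomials (for `1 ≤ j ≤ K+1`).
-/

set_option autoImplicit false

namespace Pool.Agent.Work.MP_abe657_gt.Rev

open PowerSeries

theorem poly_of_dd {k : Type} [Field k] [CharZero k] (f : PowerSeries k)
    (P : Polynomial k) (h : dd f = (P : PowerSeries k)) : ∃ Q : Polynomial k, f = (Q : PowerSeries k) := by
  refine ⟨trunc (P.natDegree + 2) f, ?_⟩
  ext m
  rw [Polynomial.coeff_coe, coeff_trunc]
  split_ifs with hm
  · rfl
  · obtain ⟨i, rfl⟩ : ∃ i, m = i + 1 := ⟨m - 1, by omega⟩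
    have h1 := congrArg (coeff i) h
    rw [coeff_dd, Polynomial.coeff_coe, Polynomial.coeff_eq_zero_of_natDegree_lt (by omega)] at h1
    refine (mul_eq_zero.1 h1).resolve_right ?_
    exact_mod_cast Nat.succ_ne_zero i

theorem lin_poly {k : Type} [Field k] [CharZero k] (w : k) (K : ℕ) (η ζ : ℕ → PowerSeries k)
    (hη : ∀ j, 1 ≤ j → j ≤ K → dd (dd (η j)) = -(1 + C w * X) ^ 2 * η (j + 1))
    (hζ : ∀ j, 1 ≤ j → j ≤ K → dd (dd (ζ j)) = η j - (1 + C w * X) ^ 2 * ζ (j + 1))
    (hηK : η (K + 1) = 0) (hζK : ζ (K + 1) = 0) :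
    ∃ P Q : ℕ → Polynomial k, ∀ j, 1 ≤ j → j ≤ K + 1 →
      η j = (P j : PowerSeries k) ∧ ζ j = (Q j : PowerSeries k) := by
  have hg : (1 + C w * X : PowerSeries k)
      = ((1 + Polynomial.C w * Polynomial.X : Polynomial k) : PowerSeries k) := by
    rw [Polynomial.coe_add, Polynomial.coe_one, Polynomial.coe_mul, Polynomial.coe_C,
      Polynomial.coe_X]
  have h1 : ∀ n j, 1 ≤ j → j ≤ K + 1 → K + 1 ≤ j + n →
      ∃ P : Polynomial k, η j = (P : PowerSeries k) := by
    intro n
    induction n with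
    | zero =>
      intro j h1 h2 h3
      obtain rfl : j = K + 1 := by omega
      exact ⟨0, by rw [hηK, Polynomial.coe_zero]⟩
    | succ n ih =>
      intro j h1 h2 h3
      by_cases hj : j = K + 1
      · subst hj
        exact ⟨0, by rw [hηK, Polynomial.coe_zero]⟩
      · obtain ⟨P, hP⟩ := ih (j + 1) (by omega) (by omega) (by omega)
        have h4 : dd (dd (η j))
            = ((-(1 + Polynomial.C w * Polynomial.X) ^ 2 * P : Polynomial k) : PowerSeries k) := by
          rw [hη j h1 (by omega), hP, hg, Polynomial.coe_mul, Polynomial.coe_neg, Polynomial.coe_pow]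
        obtain ⟨Q, hQ⟩ := poly_of_dd _ _ h4
        exact poly_of_dd _ _ hQ
  have h2 : ∀ n j, 1 ≤ j → j ≤ K + 1 → K + 1 ≤ j + n →
      ∃ P : Polynomial k, ζ j = (P : PowerSeries k) := by
    intro n
    induction n with
    | zero =>
      intro j h1 h2 h3
      obtain rfl : j = K + 1 := by omega
      exact ⟨0, by rw [hζK, Polynomial.coe_zero]⟩
    | succ n ih =>
      intro j hj1 h2 h3
      by_cases hj : j = K + 1
      · subst hj
        exact ⟨0, by rw [hζK, Polynomial.coe_zero]⟩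
      · obtain ⟨P, hP⟩ := ih (j + 1) (by omega) (by omega) (by omega)
        obtain ⟨P', hP'⟩ := h1 (K + 1) j hj1 h2 (by omega)
        have h4 : dd (dd (ζ j))
            = ((P' - (1 + Polynomial.C w * Polynomial.X) ^ 2 * P : Polynomial k) : PowerSeries k) := by
          rw [hζ j hj1 (by omega), hP, hP', hg, Polynomial.coe_sub, Polynomial.coe_mul,
            Polynomial.coe_pow]
        obtain ⟨Q, hQ⟩ := poly_of_dd _ _ h4
        exact poly_of_dd _ _ hQ
  have h3 : ∀ j, ∃ P : Polynomial k × Polynomial k, 1 ≤ j → j ≤ K + 1 →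
      η j = (P.1 : PowerSeries k) ∧ ζ j = (P.2 : PowerSeries k) := by
    intro j
    by_cases hj : 1 ≤ j ∧ j ≤ K + 1
    · obtain ⟨P, hP⟩ := h1 (K + 1) j hj.1 hj.2 (by omega)
      obtain ⟨Q, hQ⟩ := h2 (K + 1) j hj.1 hj.2 (by omega)
      exact ⟨(P, Q), fun _ _ => ⟨hP, hQ⟩⟩
    · exact ⟨(0, 0), fun a b => absurd ⟨a, b⟩ hj⟩
  choose R hR using h3
  exact ⟨fun j => (R j).1, fun j => (R j).2, hR⟩

end Pool.Agent.Work.MP_abe657_gt.Rev
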