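import Pool.Agent.Work.MP_abe657_gt.Rev.Scale
import Pool.Agent.Work.MP_abe657_gt.Rev.Uniq

/-!
Module LinV (S-M). Normalisation of the linearised system.

Proof. (1) `data_ne`: suppose `coeff 0 (Y j) = coeff 1 (Y j) = 0` for all `1 ≤ j ≤ K`. `lin_zero` with `N = K`,
`Z j = Y (j+1)`, `a = (Y 0)^2`, `μ = C (π^2)` and the relation `yp 1` (term `i = K` is `Y (K+1)`, so
`Y (K+1) = ∑_{i<K} C (-(p i κ^(K-i))) Y (i+1)`) gives `Y j = 0` for `1 ≤ j ≤ K + 1`. Then `yp 0` becomes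
`C (p 0 κ^K) * Y 0 = 0`; but `p 0 ≠ 0`, `κ ≠ 0`, and `Y 0 ≠ 0` by `y0`.
(2) `exists_v`: `exists_min` for the finite family indexed by `Fin K × Fin 4` (or similar) of the elements
`coeff 0 (Y j)`, `coeff 1 (Y j)`, `coeff 0 (E j)`, `coeff 1 (E j)`, `j = 1, ..., K`.
-/

set_option autoImplicit false

namespace Pool.Agent.Work.MP_abe657_gt.Rev

open PowerSeries

theorem data_ne {k : Type} [Field k] [CharZero k] (π κ : HahnSeries ℚ k) (K : ℕ)
    (p : ℕ → HahnSeries ℚ k) (Y W : ℕ → PowerSeries (HahnSeries ℚ k)) (h : YSys π κ K p Y W) :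
    ∃ j, 1 ≤ j ∧ j ≤ K ∧ (coeff 0 (Y j) ≠ 0 ∨ coeff 1 (Y j) ≠ 0) := by
  by_contra hcon
  push Not at hcon
  have hchar : CharZero (HahnSeries ℚ k) :=
    (RingHom.charZero_iff (ϕ := (HahnSeries.C : k →+* HahnSeries ℚ k)) HahnSeries.C_injective).1
      inferInstance
  have hY : Y (K + 1) = ∑ j ∈ Finset.range K, C (-(p j * κ ^ (K - j))) * Y (j + 1) := by
    have h1 := h.yp 1
    rw [Finset.sum_range_succ, Nat.sub_self, pow_zero, mul_one, h.pK, map_one, one_mul] at h1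
    rw [eq_neg_of_add_eq_zero_right h1, ← Finset.sum_neg_distrib]
    refine Finset.sum_congr rfl fun j _ => ?_
    rw [map_neg, neg_mul]
  have hz : ∀ j ≤ K, Y (j + 1) = 0 :=
    lin_zero K (fun j => Y (j + 1)) ((Y 0) ^ 2) (C (π ^ 2)) (fun j _ => h.yy (j + 1))
      (fun j => -(p j * κ ^ (K - j))) hY (fun j hj => (hcon (j + 1) (by omega) (by omega)).1)
      (fun j hj => (hcon (j + 1) (by omega) (by omega)).2)
  have h1 := h.yp 0
  rw [Finset.sum_eq_single 0] at h1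
  · have h2 := congrArg constantCoeff h1
    rw [map_mul, constantCoeff_C, add_zero, h.y0, mul_one, Nat.sub_zero, map_zero] at h2
    exact mul_ne_zero h.p0 (pow_ne_zero K h.κ0) h2
  · intro i hi hi0
    obtain ⟨j, rfl⟩ : ∃ j, i = j + 1 := ⟨i - 1, by omega⟩
    rw [Finset.mem_range] at hi
    rw [add_zero, hz j (by omega), mul_zero]
  · intro h2
    exact absurd (Finset.mem_range.2 (Nat.succ_pos K)) h2

theorem exists_v {k : Type} [Field k] [CharZero k] (π κ : HahnSeries ℚ k) (K : ℕ)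
    (p : ℕ → HahnSeries ℚ k) (Y W : ℕ → PowerSeries (HahnSeries ℚ k)) (h : YSys π κ K p Y W)
    (E : ℕ → PowerSeries (HahnSeries ℚ k)) :
    ∃ v : HahnSeries ℚ k, v ≠ 0 ∧
      (∀ j, 1 ≤ j → j ≤ K → v * coeff 0 (Y j) ∈ OO k ∧ v * coeff 1 (Y j) ∈ OO k ∧
        v * coeff 0 (E j) ∈ OO k ∧ v * coeff 1 (E j) ∈ OO k) ∧
      ∃ j, 1 ≤ j ∧ j ≤ K ∧ (rs (v * coeff 0 (Y j)) ≠ 0 ∨ rs (v * coeff 1 (Y j)) ≠ 0 ∨
        rs (v * coeff 0 (E j)) ≠ 0 ∨ rs (v * coeff 1 (E j)) ≠ 0) := by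
  obtain ⟨j0, hj1, hjK, hj0⟩ := data_ne π κ K p Y W h
  obtain ⟨i0, rfl⟩ : ∃ i, j0 = i + 1 := ⟨j0 - 1, by omega⟩
  let x : Fin K × Bool × Bool → HahnSeries ℚ k := fun o =>
    match o with
    | (j, false, false) => coeff 0 (Y ((j : ℕ) + 1))
    | (j, false, true) => coeff 1 (Y ((j : ℕ) + 1))
    | (j, true, false) => coeff 0 (E ((j : ℕ) + 1))
    | (j, true, true) => coeff 1 (E ((j : ℕ) + 1))
  have hx : ∃ o, x o ≠ 0 := by
    rcases hj0 with h1 | h1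
    · exact ⟨(⟨i0, by omega⟩, false, false), h1⟩
    · exact ⟨(⟨i0, by omega⟩, false, true), h1⟩
  obtain ⟨o, ho⟩ := hx
  obtain ⟨v, hv0, hv1, hv2⟩ := exists_min x o ho
  refine ⟨v, hv0, ?_, ?_⟩
  · intro j h1 h2
    obtain ⟨i, rfl⟩ : ∃ i, j = i + 1 := ⟨j - 1, by omega⟩
    exact ⟨hv1 (⟨i, by omega⟩, false, false), hv1 (⟨i, by omega⟩, false, true),
      hv1 (⟨i, by omega⟩, true, false), hv1 (⟨i, by omega⟩, true, true)⟩
  · obtain ⟨⟨j, a, b⟩, hjab⟩ := hv2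
    refine ⟨(j : ℕ) + 1, by omega, by omega, ?_⟩
    rcases a with _ | _ <;> rcases b with _ | _
    · exact Or.inl hjab
    · exact Or.inr (Or.inl hjab)
    · exact Or.inr (Or.inr (Or.inl hjab))
    · exact Or.inr (Or.inr (Or.inr hjab))

end Pool.Agent.Work.MP_abe657_gt.Rev
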