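import Pool.Agent.Work.MP_abe657_gt.Rev.GDefs
import Pool.Agent.Work.MP_abe657_gt.ChartData

/-!
Module ManA (M). The image of a compact surface has no interior point.

Proof. For every `p` choose the chart `e = chartAt E2 p`; `x ∘ e.symm` is `C^∞` on the open set `e.target` (compare
`chart_contDiffOn` in `Main.lean`'s imports: `SphereEnd.lean`/`EigenZero.lean` show how to get
`ContDiffOn ℝ ∞ (x ∘ e.symm) e.target` from `hx`; the lemma is used in `Main2.lean` as `chart_contDiffOn x hx e he`).
Let `B_p` be a ball around `e p` inside `e.target`; `ContDiffOn.dimH_image_le` (with the convex set `B_p`) gives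
`dimH (x ∘ e.symm '' B_p) ≤ dimH B_p ≤ 2`. By compactness `M` is covered by finitely many `e.symm '' B_p` (open sets
`e.source ∩ e ⁻¹' B_p`), so `dimH (range x) ≤ 2 < 3` (`dimH_iUnion`, `dimH_union` or `dimH_bUnion`;
`Real.dimH_of_nonempty_interior`/`dimH_univ_eq_finrank` for `dimH B_p ≤ 2`). By
`dense_compl_of_dimH_lt_finrank`, `(range x)ᶜ` is dense, so `interior (range x) = ∅`, and `range x` is not a
neighbourhood of any point. (Another way: the image has measure zero,
`MeasureTheory.addHaar_image_eq_zero_of_det_fderiv_eq_zero` for `E2 × ℝ → E3`, or Sard.)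
-/

set_option autoImplicit false

namespace Pool.Agent.Work.MP_abe657_gt.Rev

open Pool.Agent.Work.MP_abe657_gt
open scoped Manifold ContDiff Topology

theorem range_not_nhds {M : Type*} [TopologicalSpace M] [ChartedSpace E2 M]
    [IsManifold (𝓡 2) ∞ M] [CompactSpace M] (x : M → E3)
    (hx : ContMDiff (𝓡 2) 𝓘(ℝ, E3) ∞ x) (v : E3) : Set.range x ∉ 𝓝 v := by
  classical
  intro hv
  have h3 : dimH (Set.range x) = 3 := by
    have h := Real.dimH_of_mem_nhds hv
    rw [h, finrank_euclideanSpace_fin]
    norm_num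
  have hch : ∀ p : M, dimH (x '' (chartAt E2 p).source) ≤ 2 := by
    intro p
    have he : chartAt E2 p ∈ atlas E2 M := chart_mem_atlas E2 p
    have hcd := chart_contDiffOn x hx (chartAt E2 p) he
    have h1 : dimH ((x ∘ (chartAt E2 p).symm) '' (chartAt E2 p).target) ≤
        dimH (chartAt E2 p).target := by
      refine dimH_image_le_of_locally_lipschitzOn fun u hu => ?_
      have hat : ContDiffAt ℝ ∞ (x ∘ (chartAt E2 p).symm) u :=
        hcd.contDiffAt ((chartAt E2 p).open_target.mem_nhds hu)
      obtain ⟨C, t, ht, hC⟩ := (hat.of_le (m := 1) (by exact_mod_cast le_top)).exists_lipschitzOnWith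
      exact ⟨C, t, mem_nhdsWithin_of_mem_nhds ht, hC⟩
    have h2 : dimH (chartAt E2 p).target ≤ 2 := by
      refine (dimH_mono (Set.subset_univ _)).trans ?_
      rw [Real.dimH_univ_eq_finrank, finrank_euclideanSpace_fin]
      norm_num
    have h4 : x '' (chartAt E2 p).source =
        (x ∘ (chartAt E2 p).symm) '' (chartAt E2 p).target := by
      rw [Set.image_comp, (chartAt E2 p).symm_image_target_eq_source]
    rw [h4]
    exact h1.trans h2
  obtain ⟨t, ht⟩ := isCompact_univ.elim_finite_subcover (fun p : M => (chartAt E2 p).source)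
    (fun p => (chartAt E2 p).open_source) (fun p _ => Set.mem_iUnion.2 ⟨p, mem_chart_source E2 p⟩)
  have hr : Set.range x ⊆ ⋃ p ∈ t, x '' (chartAt E2 p).source := by
    rintro _ ⟨q, rfl⟩
    obtain ⟨p, hp, hq⟩ := Set.mem_iUnion₂.1 (ht (Set.mem_univ q))
    exact Set.mem_iUnion₂.2 ⟨p, hp, q, hq, rfl⟩
  have h5 : dimH (Set.range x) ≤ 2 := by
    refine (dimH_mono hr).trans ?_
    have h6 := dimH_bUnion (s := (t : Set M)) t.countable_toSet
      (fun p => x '' (chartAt E2 p).source)
    have h7 : (⋃ p ∈ t, x '' (chartAt E2 p).source) =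
        ⋃ p ∈ (t : Set M), x '' (chartAt E2 p).source := rfl
    rw [h7, h6]
    exact iSup₂_le fun p _ => hch p
  rw [h3] at h5
  exact absurd h5 (by norm_num)

end Pool.Agent.Work.MP_abe657_gt.Rev
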