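import Pool.Agent.Work.MP_abe657_gt.Rev.ManA

/-!
Module ManB (M). The rotation field is tangent to a compact surface of revolution.

Proof. Let `u ∈ e.target`, `X = x ∘ e.symm`, `A = fderiv ℝ X u : E2 →L[ℝ] E3`, `ξ = rotField f a (X u)`. Suppose the
determinant is not zero. Consider `Φ : E2 × ℝ → E3`, `Φ (z, θ) = rotAbout f a θ (X z)`, which is `C^∞` (`C^1`
suffices) near `(u, 0)`, with derivative `(z', θ') ↦ A z' + θ' • ξ` at `(u, 0)`
(`rotAbout f a 0 v = v`: expansion in the orthonormal basis; the derivative of `θ ↦ rotAbout f a θ v` at `0` is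
`rotField f a v`). The three vectors `A e0, A e1, ξ` are linearly independent (their determinant in the
standard coordinates is not zero), so this derivative is surjective and
`HasStrictFDerivAt.map_nhds_eq_of_surj` gives `map Φ (𝓝 (u,0)) = 𝓝 (X u)`. For `(z, θ)` near `(u, 0)`,
`z ∈ e.target` and `Φ (z, θ) = rotAbout f a θ (x (e.symm z)) ∈ range x` by `hrev`. So `range x ∈ 𝓝 (X u)`,
against `range_not_nhds`. 
-/

set_option autoImplicit false

namespace Pool.Agent.Work.MP_abe657_gt.Rev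

open Pool.Agent.Work.MP_abe657_gt Pool.Agent.Work.MP_abe657_gt.Two
open scoped Manifold ContDiff Topology

private lemma ManB_zero (f : OrthonormalBasis (Fin 3) ℝ E3) (a v : E3) : rotAbout f a 0 v = v := by
  have h := f.sum_repr' (v - a)
  rw [Fin.sum_univ_three] at h
  unfold rotAbout
  rw [Real.cos_zero, Real.sin_zero, one_mul, one_mul, zero_mul, zero_mul, sub_zero, zero_add,
    add_assoc, add_assoc, ← add_assoc (inner ℝ (f 0) (v - a) • f 0), h]
  abel

private lemma ManB_deriv (f : OrthonormalBasis (Fin 3) ℝ E3) (a v : E3) :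
    HasDerivAt (fun θ : ℝ => rotAbout f a θ v) (rotField f a v) 0 := by
  unfold rotAbout rotField
  have hc : HasDerivAt Real.cos 0 (0 : ℝ) := by
    have := Real.hasDerivAt_cos 0
    rwa [Real.sin_zero, neg_zero] at this
  have hs : HasDerivAt Real.sin 1 (0 : ℝ) := by
    have := Real.hasDerivAt_sin 0
    rwa [Real.cos_zero] at this
  have h1 : HasDerivAt (fun θ : ℝ => (Real.cos θ * inner ℝ (f 0) (v - a) -
      Real.sin θ * inner ℝ (f 1) (v - a)) • f 0)
      ((0 * inner ℝ (f 0) (v - a) - 1 * inner ℝ (f 1) (v - a)) • f 0) 0 :=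
    ((hc.mul_const _).sub (hs.mul_const _)).smul_const _
  have h2 : HasDerivAt (fun θ : ℝ => (Real.sin θ * inner ℝ (f 0) (v - a) +
      Real.cos θ * inner ℝ (f 1) (v - a)) • f 1)
      ((1 * inner ℝ (f 0) (v - a) + 0 * inner ℝ (f 1) (v - a)) • f 1) 0 :=
    ((hs.mul_const _).add (hc.mul_const _)).smul_const _
  have h3 := ((h1.const_add a).add h2).add_const (inner ℝ (f 2) (v - a) • f 2)
  have e : (-inner ℝ (f 1) (v - a)) • f 0 + inner ℝ (f 0) (v - a) • f 1 =
      (0 * inner ℝ (f 0) (v - a) - 1 * inner ℝ (f 1) (v - a)) • f 0 +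
        (1 * inner ℝ (f 0) (v - a) + 0 * inner ℝ (f 1) (v - a)) • f 1 := by
    rw [zero_mul, one_mul, zero_sub, one_mul, zero_mul, add_zero]
  rw [e]
  exact h3

private lemma ManB_cramer {u v w y : E3} (h : det3 (fun i => u i) (fun i => v i) (fun i => w i) ≠ 0) :
    ∃ a b c : ℝ, a • u + b • v + c • w = y := by
  have h' := h
  unfold det3 at h'
  refine ⟨det3 (fun i => y i) (fun i => v i) (fun i => w i) /
      det3 (fun i => u i) (fun i => v i) (fun i => w i),
    det3 (fun i => u i) (fun i => y i) (fun i => w i) /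
      det3 (fun i => u i) (fun i => v i) (fun i => w i),
    det3 (fun i => u i) (fun i => v i) (fun i => y i) /
      det3 (fun i => u i) (fun i => v i) (fun i => w i), ?_⟩
  ext i
  simp only [PiLp.add_apply, PiLp.smul_apply, smul_eq_mul]
  rw [div_mul_eq_mul_div, div_mul_eq_mul_div, div_mul_eq_mul_div, ← add_div, ← add_div,
    div_eq_iff h]
  fin_cases i <;> simp only [det3, Fin.zero_eta, Fin.mk_one, Fin.reduceFinMk] <;> ring

theorem rot_tangent {M : Type*} [TopologicalSpace M] [ChartedSpace E2 M]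
    [IsManifold (𝓡 2) ∞ M] [CompactSpace M] (x : M → E3)
    (hx : ContMDiff (𝓡 2) 𝓘(ℝ, E3) ∞ x) (f : OrthonormalBasis (Fin 3) ℝ E3) (a : E3)
    (hrev : ∀ (θ : ℝ) (p : M), rotAbout f a θ (x p) ∈ Set.range x) (e : OpenPartialHomeomorph M E2)
    (he : e ∈ atlas E2 M) (u : E2) (hu : u ∈ e.target) :
    det3 (fun i => pd 0 (fun z => (x ∘ e.symm) z i) u) (fun i => pd 1 (fun z => (x ∘ e.symm) z i) u)
      (fun i => rotField f a (x (e.symm u)) i) = 0 := by
  by_contra hdet
  obtain ⟨X, hXd⟩ : ∃ X, X = x ∘ e.symm := ⟨_, rfl⟩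
  rw [← hXd] at hdet
  have hat : ContDiffAt ℝ 1 X u := by
    rw [hXd]
    exact ((chart_contDiffOn x hx e he).contDiffAt (e.open_target.mem_nhds hu)).of_le
      (by exact_mod_cast le_top)
  have hXdiff : DifferentiableAt ℝ X u := hat.differentiableAt (by simp)
  obtain ⟨A, hA⟩ : ∃ A, A = fderiv ℝ X u := ⟨_, rfl⟩
  have hAX : HasFDerivAt X A u := by rw [hA]; exact hXdiff.hasFDerivAt
  have hpd : ∀ (j : Fin 2) (i : Fin 3), pd j (fun z => X z i) u =
      A (EuclideanSpace.single j 1) i := by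
    intro j i
    have h1 : HasFDerivAt (fun z => X z i)
        ((EuclideanSpace.proj i : E3 →L[ℝ] ℝ).comp A) u :=
      (EuclideanSpace.proj i : E3 →L[ℝ] ℝ).hasFDerivAt.comp u hAX
    unfold pd
    rw [h1.fderiv]
    rfl
  let Φ : E2 × ℝ → E3 := fun q => rotAbout f a q.2 (X q.1)
  have hΦc : ContDiffAt ℝ 1 Φ (u, 0) := by
    have hX' : ContDiffAt ℝ 1 (fun q : E2 × ℝ => X q.1) (u, 0) := hat.comp (u, (0 : ℝ)) contDiffAt_fst
    show ContDiffAt ℝ 1 (fun q : E2 × ℝ => rotAbout f a q.2 (X q.1)) (u, 0)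
    have hin : ∀ i : Fin 3, ContDiffAt ℝ 1 (fun q : E2 × ℝ => (inner ℝ (f i) (X q.1 - a) : ℝ))
        (u, 0) := fun i => contDiffAt_const.inner ℝ (hX'.sub contDiffAt_const)
    have hcos : ContDiffAt ℝ 1 (fun q : E2 × ℝ => Real.cos q.2) (u, 0) :=
      (Real.contDiff_cos.contDiffAt).comp (u, (0 : ℝ)) contDiffAt_snd
    have hsin : ContDiffAt ℝ 1 (fun q : E2 × ℝ => Real.sin q.2) (u, 0) :=
      (Real.contDiff_sin.contDiffAt).comp (u, (0 : ℝ)) contDiffAt_snd
    unfold rotAbout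
    exact ((contDiffAt_const.add
      (((hcos.mul (hin 0)).sub (hsin.mul (hin 1))).smul contDiffAt_const)).add
      (((hsin.mul (hin 0)).add (hcos.mul (hin 1))).smul contDiffAt_const)).add
      ((hin 2).smul contDiffAt_const)
  have hΦs : HasStrictFDerivAt Φ (fderiv ℝ Φ (u, 0)) (u, 0) := hΦc.hasStrictFDerivAt (by simp)
  obtain ⟨Ψ, hΨ⟩ : ∃ Ψ, Ψ = fderiv ℝ Φ (u, 0) := ⟨_, rfl⟩
  rw [← hΨ] at hΦs
  have hl : ∀ z' : E2, Ψ (z', 0) = A z' := by
    intro z'
    have h1 : HasFDerivAt (fun z : E2 => Φ (z, 0)) (Ψ.comp (ContinuousLinearMap.inl ℝ E2 ℝ)) u := by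
      have h2 : HasFDerivAt (fun z : E2 => ((z, 0) : E2 × ℝ)) (ContinuousLinearMap.inl ℝ E2 ℝ) u :=
        hasFDerivAt_prodMk_left u 0
      exact hΦs.hasFDerivAt.comp u h2
    have h3 : (fun z : E2 => Φ (z, 0)) = X := by
      funext z
      exact ManB_zero f a (X z)
    rw [h3] at h1
    have h4 := h1.unique hAX
    rw [← h4]
    rfl
  have hr : Ψ (0, 1) = rotField f a (X u) := by
    have h2 : HasDerivAt (fun θ : ℝ => ((u, θ) : E2 × ℝ)) ((0, 1) : E2 × ℝ) 0 :=
      (hasDerivAt_const (0 : ℝ) u).prodMk (hasDerivAt_id (0 : ℝ))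
    have h1 : HasDerivAt (fun θ : ℝ => Φ (u, θ)) (Ψ (0, 1)) 0 :=
      hΦs.hasFDerivAt.comp_hasDerivAt (0 : ℝ) h2
    exact h1.unique (ManB_deriv f a (X u))
  have hsurj : LinearMap.range (Ψ : E2 × ℝ →ₗ[ℝ] E3) = ⊤ := by
    rw [LinearMap.range_eq_top]
    intro y
    have hdet' : det3 (fun i => (A (EuclideanSpace.single 0 1)) i)
        (fun i => (A (EuclideanSpace.single 1 1)) i) (fun i => rotField f a (X u) i) ≠ 0 := by
      intro h0
      apply hdet
      have e1 : (fun i => pd 0 (fun z => X z i) u) =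
          fun i => (A (EuclideanSpace.single 0 1)) i := funext fun i => hpd 0 i
      have e2 : (fun i => pd 1 (fun z => X z i) u) =
          fun i => (A (EuclideanSpace.single 1 1)) i := funext fun i => hpd 1 i
      have e3 : x (e.symm u) = X u := by rw [hXd]; rfl
      rw [e1, e2, e3]
      exact h0
    obtain ⟨b, c, d, hbc⟩ := ManB_cramer (y := y) hdet'
    refine ⟨(b • EuclideanSpace.single 0 1 + c • EuclideanSpace.single 1 1, d), ?_⟩
    have e4 : ((b • EuclideanSpace.single 0 1 + c • EuclideanSpace.single 1 1, d) : E2 × ℝ) =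
        (b • EuclideanSpace.single 0 1 + c • EuclideanSpace.single 1 1, 0) + d • (0, 1) := by
      simp
    show Ψ (b • EuclideanSpace.single 0 1 + c • EuclideanSpace.single 1 1, d) = y
    rw [e4, map_add, map_smul, hl, hr, map_add, map_smul, map_smul]
    exact hbc
  have hmap := hΦs.map_nhds_eq_of_surj hsurj
  apply range_not_nhds x hx (Φ (u, 0))
  rw [← hmap, Filter.mem_map]
  have h5 : (Prod.fst ⁻¹' e.target : Set (E2 × ℝ)) ∈ 𝓝 ((u, 0) : E2 × ℝ) :=
    (e.open_target.preimage continuous_fst).mem_nhds hu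
  refine Filter.mem_of_superset h5 ?_
  rintro ⟨z, θ⟩ hz
  show rotAbout f a θ (X z) ∈ Set.range x
  rw [hXd]
  exact hrev θ (e.symm z)

end Pool.Agent.Work.MP_abe657_gt.Rev
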