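import Pool.Agent.Work.MP_abe657_gt.Rev.GDefs
import Pool.Agent.Work.MP_abe657_gt.TaylorLap
import Pool.Agent.Work.MP_abe657_gt.TaylorPoly

/-!
Module ManC (S-M). Taylor series of the tangency condition.

Proof. `IsTaylor u0 T` (file `Univ.lean`/`Taylor.lean`) says that `T` is additive and multiplicative on smooth
germs, takes `pd 0, pd 1` to `dT, dS` and constants to constants, and depends only on the germ. Write the function
`u ↦ det3 (pd 0 X_i) (pd 1 X_i) (rotField f a (X u))_i` as a polynomial in the smooth functions `pd 0 X_i`, `pd 1 X_i`,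
`X_j` and constants: `(rotField f a v)_i = (∑ j, f0_j (v_j - a_j)) f1_i - (∑ j, f1_j (v_j - a_j)) f0_i`
(`inner ℝ (f 0) w = ∑ j, f0_j w_j`: `PiLp.inner_apply`). It vanishes near `u0`; apply `T`.
`hO`: rows of an orthonormal basis: `∑ j, (f i)_j (f i')_j = δ`, from `f.orthonormal`.
-/

set_option autoImplicit false

namespace Pool.Agent.Work.MP_abe657_gt.Rev

open Pool.Agent.Work.MP_abe657_gt Pool.Agent.Work.MP_abe657_gt.Two
open scoped Manifold ContDiff Topology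

/-- matrix of the orthonormal basis, with complex entries -/
noncomputable def matO (f : OrthonormalBasis (Fin 3) ℝ E3) : Matrix (Fin 3) (Fin 3) ℂ :=
  Matrix.of fun i j => ((f i j : ℝ) : ℂ)

private theorem inner_expand (v w : E3) :
    inner ℝ v w = v 0 * w 0 + v 1 * w 1 + v 2 * w 2 := by
  rw [PiLp.inner_apply, Fin.sum_univ_three]
  simp only [RCLike.inner_apply, conj_trivial]
  ring

theorem matO_mul (f : OrthonormalBasis (Fin 3) ℝ E3) : matO f * (matO f).transpose = 1 := by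
  ext i j
  have h1 : inner ℝ (f i) (f j) = if i = j then (1 : ℝ) else 0 :=
    orthonormal_iff_ite.1 f.orthonormal i j
  rw [inner_expand] at h1
  rw [Matrix.mul_apply, Fin.sum_univ_three, Matrix.one_apply]
  simp only [matO, Matrix.transpose_apply, Matrix.of_apply]
  have h2 := congrArg (fun x : ℝ => (x : ℂ)) h1
  simp only [Complex.ofReal_add, Complex.ofReal_mul] at h2
  rw [h2]
  split_ifs <;> simp

private theorem tr_add {u0 : E2} {T : (E2 → ℝ) → LL} (hT : IsTaylor u0 T) {F G : E2 → ℝ} {x y : LL}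
    (hF : ContDiffAt ℝ ∞ F u0 ∧ T F = x) (hG : ContDiffAt ℝ ∞ G u0 ∧ T G = y) :
    ContDiffAt ℝ ∞ (fun u => F u + G u) u0 ∧ T (fun u => F u + G u) = x + y :=
  ⟨hF.1.add hG.1, by rw [hT.add F G hF.1 hG.1, hF.2, hG.2]⟩

private theorem tr_mul {u0 : E2} {T : (E2 → ℝ) → LL} (hT : IsTaylor u0 T) {F G : E2 → ℝ} {x y : LL}
    (hF : ContDiffAt ℝ ∞ F u0 ∧ T F = x) (hG : ContDiffAt ℝ ∞ G u0 ∧ T G = y) :
    ContDiffAt ℝ ∞ (fun u => F u * G u) u0 ∧ T (fun u => F u * G u) = x * y :=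
  ⟨hF.1.mul hG.1, by rw [hT.mul F G hF.1 hG.1, hF.2, hG.2]⟩

private theorem tr_const {u0 : E2} {T : (E2 → ℝ) → LL} (hT : IsTaylor u0 T) (c : ℝ) :
    ContDiffAt ℝ ∞ (fun _ : E2 => c) u0 ∧ T (fun _ => c) = algebraMap ℂ LL (c : ℂ) :=
  ⟨contDiffAt_const, hT.const c⟩

private theorem tr_sub {u0 : E2} {T : (E2 → ℝ) → LL} (hT : IsTaylor u0 T) {F G : E2 → ℝ} {x y : LL}
    (hF : ContDiffAt ℝ ∞ F u0 ∧ T F = x) (hG : ContDiffAt ℝ ∞ G u0 ∧ T G = y) :
    ContDiffAt ℝ ∞ (fun u => F u - G u) u0 ∧ T (fun u => F u - G u) = x - y := by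
  have h1 := tr_add hT hF (tr_mul hT (tr_const hT (-1)) hG)
  have h2 : (fun u => F u - G u) = fun u => F u + (-1) * G u := by
    funext u
    ring
  rw [h2]
  refine ⟨h1.1, h1.2.trans ?_⟩
  push_cast
  ring

private theorem tr_det {u0 : E2} {T : (E2 → ℝ) → LL} (hT : IsTaylor u0 T)
    {F G H : Fin 3 → E2 → ℝ} {x y z : Fin 3 → LL}
    (hF : ∀ i, ContDiffAt ℝ ∞ (F i) u0 ∧ T (F i) = x i)
    (hG : ∀ i, ContDiffAt ℝ ∞ (G i) u0 ∧ T (G i) = y i)
    (hH : ∀ i, ContDiffAt ℝ ∞ (H i) u0 ∧ T (H i) = z i) :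
    T (fun u => det3 (fun i => F i u) (fun i => G i u) (fun i => H i u)) = det3 x y z := by
  unfold det3
  exact (tr_add hT (tr_add hT
    (tr_mul hT (hF 0) (tr_sub hT (tr_mul hT (hG 1) (hH 2)) (tr_mul hT (hG 2) (hH 1))))
    (tr_mul hT (hF 1) (tr_sub hT (tr_mul hT (hG 2) (hH 0)) (tr_mul hT (hG 0) (hH 2)))))
    (tr_mul hT (hF 2) (tr_sub hT (tr_mul hT (hG 0) (hH 1)) (tr_mul hT (hG 1) (hH 0))))).2

theorem taylor_tan (u0 : E2) (T : (E2 → ℝ) → LL) (hT : IsTaylor u0 T) (X : E2 → E3)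
    (hX : ContDiffAt ℝ ∞ X u0) (f : OrthonormalBasis (Fin 3) ℝ E3) (a : E3)
    (h : ∀ᶠ u in 𝓝 u0, det3 (fun i => pd 0 (fun z => X z i) u) (fun i => pd 1 (fun z => X z i) u)
      (fun i => rotField f a (X u) i) = 0) :
    det3 (ap dT (fun i => T (fun u => X u i))) (ap dS (fun i => T (fun u => X u i))) (fun i =>
      (∑ j, algebraMap ℂ LL (matO f 0 j) * (T (fun u => X u j) - algebraMap ℂ LL ((a j : ℝ) : ℂ)))
        * algebraMap ℂ LL (matO f 1 i)
      - (∑ j, algebraMap ℂ LL (matO f 1 j) * (T (fun u => X u j) - algebraMap ℂ LL ((a j : ℝ) : ℂ)))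
        * algebraMap ℂ LL (matO f 0 i)) = 0 := by
  have hXi : ∀ i : Fin 3, ContDiffAt ℝ ∞ (fun u => X u i) u0 := fun i => TaylorLapAux.smooth_coord hX i
  have hc : ∀ i : Fin 3, ContDiffAt ℝ ∞ (fun u => X u i) u0 ∧
      T (fun u => X u i) = T (fun u => X u i) := fun i => ⟨hXi i, rfl⟩
  have hS : ∀ l : Fin 3, ContDiffAt ℝ ∞ (fun u => ∑ j, f l j * (X u j - a j)) u0 ∧
      T (fun u => ∑ j, f l j * (X u j - a j)) =
        ∑ j, algebraMap ℂ LL (matO f l j) * (T (fun u => X u j) - algebraMap ℂ LL ((a j : ℝ) : ℂ)) := by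
    intro l
    simp only [Fin.sum_univ_three]
    exact tr_add hT (tr_add hT
      (tr_mul hT (tr_const hT _) (tr_sub hT (hc 0) (tr_const hT _)))
      (tr_mul hT (tr_const hT _) (tr_sub hT (hc 1) (tr_const hT _))))
      (tr_mul hT (tr_const hT _) (tr_sub hT (hc 2) (tr_const hT _)))
  have hR : ∀ i : Fin 3, ContDiffAt ℝ ∞ (fun u => rotField f a (X u) i) u0 ∧
      T (fun u => rotField f a (X u) i) =
      (∑ j, algebraMap ℂ LL (matO f 0 j) * (T (fun u => X u j) - algebraMap ℂ LL ((a j : ℝ) : ℂ)))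
        * algebraMap ℂ LL (matO f 1 i)
      - (∑ j, algebraMap ℂ LL (matO f 1 j) * (T (fun u => X u j) - algebraMap ℂ LL ((a j : ℝ) : ℂ)))
        * algebraMap ℂ LL (matO f 0 i) := by
    intro i
    have h1 : (fun u => rotField f a (X u) i) = fun u =>
        (∑ j, f 0 j * (X u j - a j)) * f 1 i - (∑ j, f 1 j * (X u j - a j)) * f 0 i := by
      funext u
      simp only [rotField, inner_expand, Fin.sum_univ_three, PiLp.add_apply, PiLp.smul_apply,
        PiLp.sub_apply, smul_eq_mul]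
      ring
    rw [h1]
    exact tr_sub hT (tr_mul hT (hS 0) (tr_const hT _)) (tr_mul hT (hS 1) (tr_const hT _))
  have h0 : T (fun u => det3 (fun i => pd 0 (fun z => X z i) u) (fun i => pd 1 (fun z => X z i) u)
      (fun i => rotField f a (X u) i)) = 0 := by
    rw [hT.congr _ (fun _ => (0 : ℝ)) h, hT.const 0]
    simp
  rw [← h0]
  refine (tr_det hT (F := fun i u => pd 0 (fun z => X z i) u)
    (G := fun i u => pd 1 (fun z => X z i) u) (H := fun i u => rotField f a (X u) i)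
    (fun i => ⟨contDiffAt_pd 0 _ (hXi i), hT.pd0 _ (hXi i)⟩)
    (fun i => ⟨contDiffAt_pd 1 _ (hXi i), hT.pd1 _ (hXi i)⟩) hR).symm

end Pool.Agent.Work.MP_abe657_gt.Rev
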