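import Pool.Agent.Work.MP_abe657_gt.Rev.Defs

/-!
Module Ode (S-M). Integrality of the solutions of the systems of differential equations.

Proof of `ode_int`. Claim: for all `n`, for all `j < N` and `m ≤ n + 1`: `coeff m (Z j) ∈ OO`. Induction on `n`;
`n = 0` is `h0`, `h1`. Step: suppose the claim for `n`; let `j < N`. `coeff (n+2) (Z j) * (n+2) * (n+1)` is the
coefficient `n` of `dd (dd (Z j)) = μ Z_j + f_j - a Z_{j+1}` (`coeff_dd` twice). It is a sum of products of
coefficients of index `≤ n` of `μ, Z_j, f_j, a, Z_{j+1}`; all are in `OO` (for `a` by `ha n`; for `Z_{j+1}` with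
`j + 1 = N` use `hN`: its coefficients are combinations of those of `Z_i`, `i < N`). So
`coeff (n+2) (Z j) ∈ OO` as integers different from `0` are units of `OO` (char 0; multiply by
`HahnSeries.C (1/((n+2)(n+1)))`). Finally `Z N` by `hN`.
`lin_int`: `a ∈ OP`. `rad_int`: `a = Z_0 ^ 2`, whose coefficients of index `≤ n` are sums of products of
coefficients of index `≤ n` of `Z_0` (`0 < N`).
-/

set_option autoImplicit false

namespace Pool.Agent.Work.MP_abe657_gt.Rev

open PowerSeries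

private lemma mem_of_mul_nat' {k : Type} [Field k] [CharZero k] {x : HahnSeries ℚ k} (n : ℕ)
    (h : x * ((n : HahnSeries ℚ k) + 1) ∈ OO k) : x ∈ OO k := by
  have hn : ((n : k) + 1) ≠ 0 := by exact_mod_cast Nat.succ_ne_zero n
  have h1 : ((n : HahnSeries ℚ k) + 1) = HahnSeries.C ((n : k) + 1) := by
    rw [map_add, map_natCast, map_one]
  have h2 : x = x * ((n : HahnSeries ℚ k) + 1) * HahnSeries.C (((n : k) + 1)⁻¹) := by
    rw [h1, mul_assoc, ← map_mul, mul_inv_cancel₀ hn, map_one, mul_one]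
  rw [h2]
  exact Subring.mul_mem _ h (C_mem_OO _)

/-- the coefficients of index at most `n` of a product -/
private lemma mul_trunc {k : Type} [Field k] {f g : PowerSeries (HahnSeries ℚ k)} {n : ℕ}
    (hf : ∀ m ≤ n, coeff m f ∈ OO k) (hg : ∀ m ≤ n, coeff m g ∈ OO k) :
    ∀ m ≤ n, coeff m (f * g) ∈ OO k := by
  intro m hm
  rw [coeff_mul]
  refine Subring.sum_mem _ fun ij hij => ?_
  have h := Finset.HasAntidiagonal.mem_antidiagonal.mp hij
  exact Subring.mul_mem _ (hf _ (by omega)) (hg _ (by omega))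

theorem ode_int {k : Type} [Field k] [CharZero k] (N : ℕ)
    (Z f : ℕ → PowerSeries (HahnSeries ℚ k)) (a μ : PowerSeries (HahnSeries ℚ k))
    (ha : ∀ n, (∀ j < N, ∀ m ≤ n, coeff m (Z j) ∈ OO k) → ∀ m ≤ n, coeff m a ∈ OO k)
    (hμ : μ ∈ OP k) (hf : ∀ j < N, f j ∈ OP k)
    (hZ : ∀ j < N, dd (dd (Z j)) = μ * Z j + f j - a * Z (j + 1))
    (q : ℕ → HahnSeries ℚ k) (hq : ∀ j, q j ∈ OO k)
    (hN : Z N = ∑ j ∈ Finset.range N, C (q j) * Z j)
    (h0 : ∀ j < N, coeff 0 (Z j) ∈ OO k) (h1 : ∀ j < N, coeff 1 (Z j) ∈ OO k) :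
    ∀ j ≤ N, Z j ∈ OP k := by
  have key : ∀ n, ∀ j < N, ∀ m ≤ n + 1, coeff m (Z j) ∈ OO k := by
    intro n
    induction n with
    | zero =>
      intro j hj m hm
      interval_cases m
      · exact h0 j hj
      · exact h1 j hj
    | succ n ih =>
      intro j hj m hm
      by_cases hm' : m ≤ n + 1
      · exact ih j hj m hm'
      · have hmn : m = n + 2 := by omega
        subst hmn
        have hZn : ∀ i ≤ N, ∀ m ≤ n, coeff m (Z i) ∈ OO k := by
          intro i hi m hm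
          rcases hi.lt_or_eq with hi | hi
          · exact ih i hi m (by omega)
          · subst hi
            rw [hN, map_sum]
            refine Subring.sum_mem _ fun l hl => ?_
            rw [coeff_C_mul]
            exact Subring.mul_mem _ (hq l) (ih l (Finset.mem_range.mp hl) m (by omega))
        have ha' := ha n (fun i hi m hm => hZn i hi.le m hm)
        have h2 : coeff n (dd (dd (Z j))) ∈ OO k := by
          rw [hZ j hj, map_sub, map_add]
          refine Subring.sub_mem _ (Subring.add_mem _ ?_ (hf j hj n)) ?_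
          · exact mul_trunc (n := n) (fun m _ => hμ m) (hZn j hj.le) n le_rfl
          · exact mul_trunc (n := n) ha' (hZn (j + 1) (by omega)) n le_rfl
        rw [coeff_dd, coeff_dd] at h2
        have h3 := mem_of_mul_nat' n h2
        have h4 : coeff (n + 1 + 1) (Z j) * (((n + 1 : ℕ) : HahnSeries ℚ k) + 1) ∈ OO k := h3
        exact mem_of_mul_nat' (n + 1) h4
  have hlt : ∀ j < N, Z j ∈ OP k := fun j hj n => key n j hj n (by omega)
  intro j hj
  rcases hj.lt_or_eq with hj | hj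
  · exact hlt j hj
  · subst hj
    rw [hN]
    exact Subring.sum_mem _ fun l hl =>
      Subring.mul_mem _ (C_mem_OP (hq l)) (hlt l (Finset.mem_range.mp hl))

theorem lin_int {k : Type} [Field k] [CharZero k] (N : ℕ)
    (Z f : ℕ → PowerSeries (HahnSeries ℚ k)) (a μ : PowerSeries (HahnSeries ℚ k))
    (ha : a ∈ OP k) (hμ : μ ∈ OP k) (hf : ∀ j < N, f j ∈ OP k)
    (hZ : ∀ j < N, dd (dd (Z j)) = μ * Z j + f j - a * Z (j + 1))
    (q : ℕ → HahnSeries ℚ k) (hq : ∀ j, q j ∈ OO k)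
    (hN : Z N = ∑ j ∈ Finset.range N, C (q j) * Z j)
    (h0 : ∀ j < N, coeff 0 (Z j) ∈ OO k) (h1 : ∀ j < N, coeff 1 (Z j) ∈ OO k) :
    ∀ j ≤ N, Z j ∈ OP k :=
  ode_int N Z f a μ (fun _ _ m _ => ha m) hμ hf hZ q hq hN h0 h1

theorem rad_int {k : Type} [Field k] [CharZero k] (N : ℕ) (hN0 : 0 < N)
    (Z : ℕ → PowerSeries (HahnSeries ℚ k)) (μ : PowerSeries (HahnSeries ℚ k)) (hμ : μ ∈ OP k)
    (hZ : ∀ j < N, dd (dd (Z j)) = μ * Z j - (Z 0) ^ 2 * Z (j + 1))
    (q : ℕ → HahnSeries ℚ k) (hq : ∀ j, q j ∈ OO k)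
    (hN : Z N = ∑ j ∈ Finset.range N, C (q j) * Z j)
    (h0 : ∀ j < N, coeff 0 (Z j) ∈ OO k) (h1 : ∀ j < N, coeff 1 (Z j) ∈ OO k) :
    ∀ j ≤ N, Z j ∈ OP k := by
  refine ode_int N Z (fun _ => 0) ((Z 0) ^ 2) μ ?_ hμ (fun _ _ => Subring.zero_mem _) ?_ q hq hN h0 h1
  · intro n h
    rw [sq]
    exact mul_trunc (h 0 hN0) (h 0 hN0)
  · intro j hj
    rw [hZ j hj, add_zero]

end Pool.Agent.Work.MP_abe657_gt.Rev
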