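import Mathlib

/-!
Module RecQ (M, Mathlib only, pure arithmetic over `ℚ`). The recursion has no solution which ends at zero.

Let `a ≠ 0` rational and `A, S : ℕ → ℚ` as below. Put `c = 1 + a`; the factors are
`4j-1+2ja = 2j-1+2jc`, `4j+(2j+1)a = 2j-1+(2j+1)c`, `4j-2+(2j-1)a = (2j-1)(1+c)`, `4j-3+(2j-2)a = 2j-1+(2j-2)c`
(`j ≥ 1`; in the statement `j` is replaced by `j+1`).
Suppose `A K = 0`. `A 1 = a ≠ 0`. Let `J ≥ 1` be the last index before the first zero: `A j ≠ 0` for `1 ≤ j ≤ J`,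
`A (J+1) = 0`; then `A j = 0` for all `j > J`. So `2J-1+2Jc = 0` or `2J-1+(2J+1)c = 0`.
CASE 1: `c = -(2J-1)/(2J)`. Then `1+c = 1/(2J) > 0`, `2i-1+(2i-2)c = 1+(i-1)/J > 0` for `i ≥ 1`,
`2i-1+2ic = i/J - 1 < 0` for `i < J`, `2i-1+(2i+1)c = (2i+1)/(2J) - 2 < 0` for `i < J`. Claim: `S i / A i < 0` for
`1 ≤ i ≤ J` (i.e. `S i * A i < 0`): `S 1 / A 1 = -1/2`; `S (i+1)/A (i+1) = (1 - (2i-1)(1+c)(2i-1+(2i-2)c) S i/A i) /
(-(2i-1+(2i+1)c)(2i-1+2ic))`, numerator `> 0`, denominator `< 0`. Then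
`S (J+1) = A J (1 - (positive) S J/A J) ≠ 0`.
CASE 2: `c = -(2J-1)/(2J+1)`. Then `1+c = 2/(2J+1)`, `2i-1+(2i-2)c = (2J+4i-3)/(2J+1) > 0`,
`2i-1+2ic = (4i-2J-1)/(2J+1)` (never 0), `2i-1+(2i+1)c = -4(J-i)/(2J+1)`. Put
`Ψ i = (2i-1)(1+c)(2i-1+(2i-2)c) S i/A i`. Then for `i < J`: `Ψ (i+1) = f i * (1 - Ψ i)`,
`f i = (2i+1)(4i+2J+1)/(2(J-i)(4i-2J-1))`. `Ψ 1 = -1/(2J+1) < 0`. As long as `4i < 2J+1`, `f i < 0`, so
`Ψ (i+1) < 0`. For `4i > 2J+1`, `i < J` we have `f i > 2` (with `A = 2J+1`, `4i = A + δ`: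
`(2i+1)(4i+A) - 4(J-i)(4i-A) = (A+δ+2)(2A+δ)/2 - (A-2-δ)δ > 0`), so from `Ψ i < 0` we get `Ψ (i+1) > 2` and from
`Ψ i > 2` we get `Ψ (i+1) < -2 < 0`. So always `Ψ i < 0` or `Ψ i > 2`, for `1 ≤ i ≤ J`, and
`S (J+1) = A J (1 - Ψ J) ≠ 0`.
In both cases, for `i > J`: `A i = 0`, `S (i+1) = -(2i-1)(1+c)(2i-1+(2i-2)c) S i` with all factors nonzero
(`-1 < c < 0`), so `S i ≠ 0` for all `i > J`. As `K > J` (`A K = 0`, `A j ≠ 0` for `1 ≤ j ≤ J`, `K ≥ 1`), `S K ≠ 0`.
-/

set_option autoImplicit false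

namespace Pool.Agent.Work.MP_abe657_gt.Rev

/-- once `A` is zero it stays zero, and `S` stays nonzero -/
private lemma rec_tail (J : ℕ) (a : ℚ) (A S : ℕ → ℚ)
    (hA : ∀ j : ℕ, A (j + 2) = -((4 * (j + 1) + (2 * (j + 1) + 1) * a)
      * (4 * (j + 1) - 1 + 2 * (j + 1) * a) * A (j + 1)))
    (hS : ∀ j : ℕ, S (j + 2) = A (j + 1) - (4 * (j + 1) - 2 + (2 * (j + 1) - 1) * a)
      * (4 * (j + 1) - 3 + (2 * (j + 1) - 2) * a) * S (j + 1))
    (hg : ∀ j : ℕ, (4 * ((j : ℚ) + 1) - 2 + (2 * (j + 1) - 1) * a)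
      * (4 * (j + 1) - 3 + (2 * (j + 1) - 2) * a) ≠ 0)
    (hA0 : A (J + 1) = 0) (hS0 : S (J + 1) ≠ 0) (n : ℕ) : A (J + 1 + n) = 0 ∧ S (J + 1 + n) ≠ 0 := by
  induction n with
  | zero => exact ⟨hA0, hS0⟩
  | succ n ih =>
    have e1 : J + 1 + (n + 1) = (J + n) + 2 := by ring
    have e2 : J + 1 + n = (J + n) + 1 := by ring
    rw [e2] at ih
    rw [e1]
    constructor
    · rw [hA (J + n), ih.1, mul_zero, neg_zero]
    · rw [hS (J + n), ih.1, zero_sub]
      exact neg_ne_zero.mpr (mul_ne_zero (hg (J + n)) ih.2)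

theorem rec_case1 (J : ℕ) (hJ : 1 ≤ J) (a : ℚ) (ha : a = -(4 * J - 1) / (2 * J)) (A S : ℕ → ℚ)
    (hA1 : A 1 = a)
    (hA : ∀ j : ℕ, A (j + 2) = -((4 * (j + 1) + (2 * (j + 1) + 1) * a)
      * (4 * (j + 1) - 1 + 2 * (j + 1) * a) * A (j + 1)))
    (hS1 : S 1 = -a / 2)
    (hS : ∀ j : ℕ, S (j + 2) = A (j + 1) - (4 * (j + 1) - 2 + (2 * (j + 1) - 1) * a)
      * (4 * (j + 1) - 3 + (2 * (j + 1) - 2) * a) * S (j + 1)) :
    (∀ j, 1 ≤ j → j ≤ J → A j ≠ 0) ∧ ∀ j, J < j → S j ≠ 0 := by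
  have hJq : (1 : ℚ) ≤ J := by exact_mod_cast hJ
  have hJ0 : (J : ℚ) ≠ 0 := by positivity
  have f1 : ∀ x : ℚ, 4 * x + (2 * x + 1) * a = (2 * x + 1 - 4 * J) / (2 * J) := by
    intro x; rw [ha]; field_simp; ring
  have f2 : ∀ x : ℚ, 4 * x - 1 + 2 * x * a = (x - J) / J := by
    intro x; rw [ha]; field_simp; ring
  have g1 : ∀ x : ℚ, 4 * x - 2 + (2 * x - 1) * a = (2 * x - 1) / (2 * J) := by
    intro x; rw [ha]; field_simp; ring
  have g2 : ∀ x : ℚ, 4 * x - 3 + (2 * x - 2) * a = (J + x - 1) / J := by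
    intro x; rw [ha]; field_simp; ring
  have hgpos : ∀ j : ℕ, 0 < (4 * ((j : ℚ) + 1) - 2 + (2 * (j + 1) - 1) * a)
      * (4 * (j + 1) - 3 + (2 * (j + 1) - 2) * a) := by
    intro j
    rw [g1, g2]
    have hj : (0 : ℚ) ≤ j := Nat.cast_nonneg j
    apply mul_pos
    · apply div_pos <;> linarith
    · apply div_pos <;> linarith
  have key : ∀ j : ℕ, j + 1 ≤ J → A (j + 1) ≠ 0 ∧ S (j + 1) * A (j + 1) < 0 := by
    intro j
    induction j with
    | zero =>
      intro _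
      have ha0 : a < 0 := by
        rw [ha]
        apply div_neg_of_neg_of_pos <;> linarith
      rw [zero_add, hA1, hS1]
      exact ⟨ha0.ne, by nlinarith⟩
    | succ j ih =>
      intro hj
      obtain ⟨h1, h2⟩ := ih (by omega)
      have hjq : (j : ℚ) + 1 + 1 ≤ J := by exact_mod_cast hj
      have hj0 : (0 : ℚ) ≤ j := Nat.cast_nonneg j
      have hf : 0 < (4 * ((j : ℚ) + 1) + (2 * (j + 1) + 1) * a) * (4 * (j + 1) - 1 + 2 * (j + 1) * a) := by
        rw [f1, f2]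
        apply mul_pos_of_neg_of_neg
        · apply div_neg_of_neg_of_pos <;> linarith
        · apply div_neg_of_neg_of_pos <;> linarith
      have hg := hgpos j
      have e : j + 1 + 1 = j + 2 := rfl
      rw [e, hA j, hS j]
      set f := (4 * ((j : ℚ) + 1) + (2 * (j + 1) + 1) * a) * (4 * (j + 1) - 1 + 2 * (j + 1) * a)
      set g := (4 * ((j : ℚ) + 1) - 2 + (2 * (j + 1) - 1) * a)
        * (4 * (j + 1) - 3 + (2 * (j + 1) - 2) * a)
      constructor
      · exact neg_ne_zero.mpr (mul_ne_zero hf.ne' h1)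
      · have hA2 : 0 < A (j + 1) ^ 2 := by positivity
        have h3 : (A (j + 1) - g * S (j + 1)) * -(f * A (j + 1))
            = -(f * (A (j + 1) ^ 2 + g * -(S (j + 1) * A (j + 1)))) := by ring
        rw [h3]
        have h4 : 0 < g * -(S (j + 1) * A (j + 1)) := mul_pos hg (by linarith)
        have h5 : 0 < f * (A (j + 1) ^ 2 + g * -(S (j + 1) * A (j + 1))) :=
          mul_pos hf (by linarith)
        linarith
  constructor
  · intro j h1 h2
    obtain ⟨i, rfl⟩ : ∃ i, j = i + 1 := ⟨j - 1, by omega⟩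
    exact (key i h2).1
  · obtain ⟨I, rfl⟩ : ∃ I, J = I + 1 := ⟨J - 1, by omega⟩
    obtain ⟨k1, k2⟩ := key I le_rfl
    have hA0 : A (I + 1 + 1) = 0 := by
      have e := hA I
      rw [f2] at e
      have e0 : ((I : ℚ) + 1 - ((I + 1 : ℕ) : ℚ)) / ((I + 1 : ℕ) : ℚ) = 0 := by
        push_cast; simp
      rw [e0, mul_zero, zero_mul, neg_zero] at e
      exact e
    have hS0 : S (I + 1 + 1) ≠ 0 := by
      have e := hS I
      have hg := hgpos I
      set g := (4 * ((I : ℚ) + 1) - 2 + (2 * (I + 1) - 1) * a)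
        * (4 * (I + 1) - 3 + (2 * (I + 1) - 2) * a)
      intro h0
      have e' : A (I + 1) - g * S (I + 1) = 0 := by rw [← e]; exact h0
      have hA2 : 0 < A (I + 1) ^ 2 := by positivity
      have h4 : 0 < g * -(S (I + 1) * A (I + 1)) := mul_pos hg (by linarith)
      have h3 : (A (I + 1) - g * S (I + 1)) * A (I + 1)
          = A (I + 1) ^ 2 + g * -(S (I + 1) * A (I + 1)) := by ring
      rw [e', zero_mul] at h3
      linarith
    intro j hj
    obtain ⟨n, rfl⟩ : ∃ n, j = (I + 1) + 1 + n := ⟨j - (I + 1 + 1), by omega⟩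
    exact (rec_tail (I + 1) a A S hA hS (fun j => (hgpos j).ne') hA0 hS0 n).2

theorem rec_case2 (J : ℕ) (hJ : 1 ≤ J) (a : ℚ) (ha : a = -(4 * J) / (2 * J + 1)) (A S : ℕ → ℚ)
    (hA1 : A 1 = a)
    (hA : ∀ j : ℕ, A (j + 2) = -((4 * (j + 1) + (2 * (j + 1) + 1) * a)
      * (4 * (j + 1) - 1 + 2 * (j + 1) * a) * A (j + 1)))
    (hS1 : S 1 = -a / 2)
    (hS : ∀ j : ℕ, S (j + 2) = A (j + 1) - (4 * (j + 1) - 2 + (2 * (j + 1) - 1) * a)
      * (4 * (j + 1) - 3 + (2 * (j + 1) - 2) * a) * S (j + 1)) :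
    (∀ j, 1 ≤ j → j ≤ J → A j ≠ 0) ∧ ∀ j, J < j → S j ≠ 0 := by
  have hJq : (1 : ℚ) ≤ J := by exact_mod_cast hJ
  have hJ0 : (2 * (J : ℚ) + 1) ≠ 0 := by positivity
  have hJp : 0 < 2 * (J : ℚ) + 1 := by positivity
  have f1 : ∀ x : ℚ, 4 * x + (2 * x + 1) * a = 4 * (x - J) / (2 * J + 1) := by
    intro x; rw [ha]; field_simp; ring
  have f2 : ∀ x : ℚ, 4 * x - 1 + 2 * x * a = (4 * x - 2 * J - 1) / (2 * J + 1) := by
    intro x; rw [ha]; field_simp; ring
  have g1 : ∀ x : ℚ, 4 * x - 2 + (2 * x - 1) * a = (2 * x - 1) * 2 / (2 * J + 1) := by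
    intro x; rw [ha]; field_simp; ring
  have g2 : ∀ x : ℚ, 4 * x - 3 + (2 * x - 2) * a = (4 * x + 2 * J - 3) / (2 * J + 1) := by
    intro x; rw [ha]; field_simp; ring
  have hgpos : ∀ j : ℕ, 0 < (4 * ((j : ℚ) + 1) - 2 + (2 * (j + 1) - 1) * a)
      * (4 * (j + 1) - 3 + (2 * (j + 1) - 2) * a) := by
    intro j
    rw [g1, g2]
    have hj : (0 : ℚ) ≤ j := Nat.cast_nonneg j
    apply mul_pos
    · apply div_pos <;> linarith
    · apply div_pos <;> linarith
  -- invariant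
  have key : ∀ j : ℕ, j + 1 ≤ J → A (j + 1) ≠ 0 ∧
      ((4 * ((j : ℚ) + 1) - 2 + (2 * (j + 1) - 1) * a)
        * (4 * (j + 1) - 3 + (2 * (j + 1) - 2) * a) * (S (j + 1) * A (j + 1)) < 0 ∨
      (2 * (J : ℚ) + 1 < 4 * j ∧ 2 * A (j + 1) ^ 2 <
        (4 * ((j : ℚ) + 1) - 2 + (2 * (j + 1) - 1) * a)
        * (4 * (j + 1) - 3 + (2 * (j + 1) - 2) * a) * (S (j + 1) * A (j + 1)))) := by
    intro j
    induction j with
    | zero =>
      intro _
      have ha0 : a < 0 := by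
        rw [ha]
        apply div_neg_of_neg_of_pos <;> linarith
      rw [zero_add, hA1, hS1]
      refine ⟨ha0.ne, Or.inl ?_⟩
      have hg := hgpos 0
      have h1 : -a / 2 * a < 0 := by nlinarith
      exact mul_neg_of_pos_of_neg hg h1
    | succ j ih =>
      intro hj
      obtain ⟨h1, h2⟩ := ih (by omega)
      have hjq : (j : ℚ) + 1 + 1 ≤ J := by exact_mod_cast hj
      have hj0 : (0 : ℚ) ≤ j := Nat.cast_nonneg j
      have hg := hgpos j
      have hG := hgpos (j + 1)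
      have e : j + 1 + 1 = j + 2 := rfl
      rw [e, hA j, hS j]
      set F := (4 * ((j : ℚ) + 1) + (2 * (j + 1) + 1) * a) * (4 * (j + 1) - 1 + 2 * (j + 1) * a)
        with hF
      set g := (4 * ((j : ℚ) + 1) - 2 + (2 * (j + 1) - 1) * a)
        * (4 * (j + 1) - 3 + (2 * (j + 1) - 2) * a)
      set G := (4 * (((j + 1 : ℕ) : ℚ) + 1) - 2 + (2 * (((j + 1 : ℕ) : ℚ) + 1) - 1) * a)
        * (4 * (((j + 1 : ℕ) : ℚ) + 1) - 3 + (2 * (((j + 1 : ℕ) : ℚ) + 1) - 2) * a) with hGdef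
      set α := A (j + 1)
      set β := S (j + 1)
      have hα : 0 < α ^ 2 := by positivity
      have hFval : F = 4 * ((j : ℚ) + 1 - J) / (2 * J + 1)
          * ((4 * (j + 1) - 2 * J - 1) / (2 * J + 1)) := by rw [hF, f1, f2]
      have hGval : G = (2 * ((j : ℚ) + 1) + 1) * 2 / (2 * J + 1)
          * ((4 * (j + 1) + 2 * J + 1) / (2 * J + 1)) := by
        rw [hGdef, g1, g2]; push_cast; ring
      have hT : G * ((α - g * β) * -(F * α)) = -(G * F * (α ^ 2 - g * (β * α))) := by ring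
      have hneg1 : ((j : ℚ) + 1 - J) < 0 := by linarith
      rcases lt_trichotomy (4 * ((j : ℚ) + 1)) (2 * J + 1) with hlt | heq | hgt
      · -- before the middle
        have hF0 : 0 < F := by
          rw [hFval]
          apply mul_pos_of_neg_of_neg
          · apply div_neg_of_neg_of_pos _ hJp; linarith
          · apply div_neg_of_neg_of_pos _ hJp; linarith
        refine ⟨neg_ne_zero.mpr (mul_ne_zero hF0.ne' h1), Or.inl ?_⟩
        rw [hT]
        have h3 : g * (β * α) < 0 := by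
          rcases h2 with h2 | ⟨h2, _⟩
          · exact h2
          · linarith
        have h4 : 0 < G * F * (α ^ 2 - g * (β * α)) := mul_pos (mul_pos hG hF0) (by linarith)
        linarith
      · exfalso
        have h3 : (4 * (j + 1) : ℤ) = 2 * J + 1 := by exact_mod_cast heq
        omega
      · have hF0 : F < 0 := by
          rw [hFval]
          apply mul_neg_of_neg_of_pos
          · apply div_neg_of_neg_of_pos _ hJp; linarith
          · apply div_pos _ hJp; linarith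
        have hGF : -(2 * F) < G := by
          have hJ2 : 0 < (2 * (J : ℚ) + 1) ^ 2 := by positivity
          have h5 : G + 2 * F = ((2 * ((j : ℚ) + 1) + 1) * 2 * (4 * (j + 1) + 2 * J + 1)
              + 8 * (j + 1 - J) * (4 * (j + 1) - 2 * J - 1)) / (2 * J + 1) ^ 2 := by
            rw [hFval, hGval]; field_simp; ring
          have h6 : 0 < (2 * ((j : ℚ) + 1) + 1) * 2 * (4 * (j + 1) + 2 * J + 1)
              + 8 * (j + 1 - J) * (4 * (j + 1) - 2 * J - 1) := by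
            nlinarith [mul_nonneg hj0 hj0, mul_pos (show (0:ℚ) < 4 * (j + 1) - (2 * J + 1) by linarith)
              (show (0:ℚ) < 4 * (j + 1) - (2 * J + 1) by linarith),
              mul_pos (show (0:ℚ) < 4 * (j + 1) - (2 * J + 1) by linarith) hJp]
          have h7 : 0 < G + 2 * F := by rw [h5]; exact div_pos h6 hJ2
          linarith
        refine ⟨neg_ne_zero.mpr (mul_ne_zero hF0.ne h1), ?_⟩
        rw [hT]
        rcases h2 with h2 | ⟨_, h2⟩
        · right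
          refine ⟨by push_cast; linarith, ?_⟩
          have h8 : 2 * (-(F * α)) ^ 2 = 2 * F ^ 2 * α ^ 2 := by ring
          rw [h8]
          have h9 : α ^ 2 < α ^ 2 - g * (β * α) := by linarith
          have h10 : 0 < -(G * F) := neg_pos.mpr (mul_neg_of_pos_of_neg hG hF0)
          have h11 : 2 * F ^ 2 < -(G * F) := by
            have h := mul_lt_mul_of_pos_right hGF (neg_pos.mpr hF0)
            have e1 : -(2 * F) * -F = 2 * F ^ 2 := by ring
            have e2 : G * -F = -(G * F) := by ring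
            rwa [e1, e2] at h
          have h12 : 2 * F ^ 2 * α ^ 2 < -(G * F) * α ^ 2 := mul_lt_mul_of_pos_right h11 hα
          have h13 : -(G * F) * α ^ 2 < -(G * F) * (α ^ 2 - g * (β * α)) :=
            mul_lt_mul_of_pos_left h9 h10
          have h14 : -(G * F) * (α ^ 2 - g * (β * α)) = -(G * F * (α ^ 2 - g * (β * α))) := by ring
          rw [h14] at h13
          exact h12.trans h13
        · left
          have h9 : α ^ 2 - g * (β * α) < 0 := by linarith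
          have h10 : 0 < -(G * F) := neg_pos.mpr (mul_neg_of_pos_of_neg hG hF0)
          have h11 : -(G * F) * (α ^ 2 - g * (β * α)) < 0 := mul_neg_of_pos_of_neg h10 h9
          have h14 : -(G * F) * (α ^ 2 - g * (β * α)) = -(G * F * (α ^ 2 - g * (β * α))) := by ring
          rwa [h14] at h11
  constructor
  · intro j h1 h2
    obtain ⟨i, rfl⟩ : ∃ i, j = i + 1 := ⟨j - 1, by omega⟩
    exact (key i h2).1
  · obtain ⟨I, rfl⟩ : ∃ I, J = I + 1 := ⟨J - 1, by omega⟩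
    obtain ⟨k1, k2⟩ := key I le_rfl
    have hA0 : A (I + 1 + 1) = 0 := by
      have e := hA I
      rw [f1] at e
      have e0 : 4 * ((I : ℚ) + 1 - ((I + 1 : ℕ) : ℚ)) / (2 * ((I + 1 : ℕ) : ℚ) + 1) = 0 := by
        push_cast; simp
      rw [e0, zero_mul, zero_mul, neg_zero] at e
      exact e
    have hS0 : S (I + 1 + 1) ≠ 0 := by
      have e := hS I
      set g := (4 * ((I : ℚ) + 1) - 2 + (2 * (I + 1) - 1) * a)
        * (4 * (I + 1) - 3 + (2 * (I + 1) - 2) * a)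
      intro h0
      have e' : A (I + 1) - g * S (I + 1) = 0 := by rw [← e]; exact h0
      have hA2 : 0 < A (I + 1) ^ 2 := by positivity
      have h3 : (A (I + 1) - g * S (I + 1)) * A (I + 1)
          = A (I + 1) ^ 2 - g * (S (I + 1) * A (I + 1)) := by ring
      rw [e', zero_mul] at h3
      rcases k2 with k2 | ⟨_, k2⟩ <;> linarith
    intro j hj
    obtain ⟨n, rfl⟩ : ∃ n, j = (I + 1) + 1 + n := ⟨j - (I + 1 + 1), by omega⟩
    exact (rec_tail (I + 1) a A S hA hS (fun j => (hgpos j).ne') hA0 hS0 n).2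

end Pool.Agent.Work.MP_abe657_gt.Rev
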