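import Pool.Agent.Work.MP_abe657_gt.Rev.Ode
import Pool.Agent.Work.MP_abe657_gt.Rev.Small

/-!
Module YInt (M). All power series of the scaled system are integral.

Proof. (a) `rad_int` with `N = K + 1`, `Z = Y`, `μ = C (π²)`: `hZ` is `yy`; the relation `yp 1`, whose last
term (`i = K`) is `C (1 * κ^0) * Y (K+1) = Y (K+1)`, says `Y (K+1) = ∑_{i<K} C (-(p i κ^(K-i))) Y (i+1)`, i.e. `hN`
with `q 0 = 0`, `q (i+1) = -(p i κ^(K-i))` (`Finset.sum_range_succ'`); initial data: `y0` (coefficient 0 of `Y 0`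
is `1`), `iy0`, `iy`. So `Y j ∈ OP` for `j ≤ K+1`; for larger `j` by strong induction from
`yp (j-K)`: `Y j = -∑_{i<K} C(..) Y (i+j-K)`.
(b) `lin_int` with `N = K`, `Z j = W (j+1)`, `f = 0`, `μ = 0`, `a = (Y 0)^2`, relation `wp 1`, initial data `iw`;
then `W j` for all `j ≥ 1` by strong induction from `wp (j-K)`, `j > K` (all indices `i + (j-K)` are `≥ 1`).
(c) `dd (W 0)`: its coefficient 0 is `coeff 1 (W 0)`; `dd (dd (W 0)) = -(Y 0)^2 W 1 ∈ OP`, so
`coeff (n+1) (dd (W 0)) * (n+1) ∈ OO`; use `mem_OO_of_mul_nat`.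
-/

set_option autoImplicit false

namespace Pool.Agent.Work.MP_abe657_gt.Rev

open PowerSeries

private lemma rel_solve {k : Type} [Field k] {κ : HahnSeries ℚ k} {K : ℕ}
    {p : ℕ → HahnSeries ℚ k} (pK : p K = 1) (Z : ℕ → PowerSeries (HahnSeries ℚ k)) (j : ℕ)
    (h : ∑ i ∈ Finset.range (K + 1), C (p i * κ ^ (K - i)) * Z (i + j) = 0) :
    Z (K + j) = ∑ i ∈ Finset.range K, C (-(p i * κ ^ (K - i))) * Z (i + j) := by
  rw [Finset.sum_range_succ, Nat.sub_self, pow_zero, mul_one, pK, map_one, one_mul] at h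
  rw [eq_neg_of_add_eq_zero_right h, ← Finset.sum_neg_distrib]
  refine Finset.sum_congr rfl fun i _ => ?_
  rw [map_neg, neg_mul]

theorem y_int {k : Type} [Field k] [CharZero k] (π κ : HahnSeries ℚ k) (K : ℕ)
    (p : ℕ → HahnSeries ℚ k) (Y W : ℕ → PowerSeries (HahnSeries ℚ k)) (h : YSys π κ K p Y W) :
    ∀ j, Y j ∈ OP k := by
  have hq : ∀ i, -(p i * κ ^ (K - i)) ∈ OO k := fun i =>
    Subring.neg_mem _ (Subring.mul_mem _ (h.pO i) (Subring.pow_mem _ h.κO _))
  have hpO : π ^ 2 ∈ OO k := Subring.pow_mem _ h.πO 2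
  have h1 : ∀ j ≤ K + 1, Y j ∈ OP k := by
    refine rad_int (K + 1) (Nat.succ_pos K) Y (C (π ^ 2)) (C_mem_OP hpO)
      (fun j _ => h.yy j) (fun j => if j = 0 then 0 else -(p (j - 1) * κ ^ (K - (j - 1)))) ?_ ?_ ?_ ?_
    · intro j
      split_ifs
      · exact Subring.zero_mem _
      · exact hq _
    · rw [Finset.sum_range_succ']
      simp only [if_true, map_zero, zero_mul, add_zero, Nat.add_eq_zero_iff, one_ne_zero,
        and_false, if_false, Nat.add_sub_cancel]
      exact rel_solve h.pK Y 1 (h.yp 1)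
    · intro j hj
      rcases Nat.eq_zero_or_pos j with rfl | hj0
      · rw [coeff_zero_eq_constantCoeff_apply, h.y0]
        exact Subring.one_mem _
      · exact (h.iy j hj0 (by omega)).1
    · intro j hj
      rcases Nat.eq_zero_or_pos j with rfl | hj0
      · exact h.iy0
      · exact (h.iy j hj0 (by omega)).2
  intro j
  induction j using Nat.strong_induction_on with
  | _ j ih =>
    by_cases hj : j ≤ K + 1
    · exact h1 j hj
    · have h2 := rel_solve h.pK Y (j - K) (h.yp (j - K))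
      have e : K + (j - K) = j := by omega
      rw [e] at h2
      rw [h2]
      refine Subring.sum_mem _ fun i hi => Subring.mul_mem _ (C_mem_OP (hq i)) (ih _ ?_)
      have := Finset.mem_range.mp hi
      omega

theorem w_int {k : Type} [Field k] [CharZero k] (π κ : HahnSeries ℚ k) (K : ℕ)
    (p : ℕ → HahnSeries ℚ k) (Y W : ℕ → PowerSeries (HahnSeries ℚ k)) (h : YSys π κ K p Y W) :
    (∀ j, 1 ≤ j → W j ∈ OP k) ∧ dd (W 0) ∈ OP k := by
  have hq : ∀ i, -(p i * κ ^ (K - i)) ∈ OO k := fun i =>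
    Subring.neg_mem _ (Subring.mul_mem _ (h.pO i) (Subring.pow_mem _ h.κO _))
  have hY2 : (Y 0) ^ 2 ∈ OP k := Subring.pow_mem _ (y_int π κ K p Y W h 0) 2
  have h1 : ∀ j ≤ K, W (j + 1) ∈ OP k := by
    refine lin_int K (fun j => W (j + 1)) (fun _ => 0) ((Y 0) ^ 2) 0 hY2 (Subring.zero_mem _)
      (fun _ _ => Subring.zero_mem _) ?_ (fun j => -(p j * κ ^ (K - j))) hq ?_ ?_ ?_
    · intro j _
      rw [h.ww (j + 1), zero_mul, add_zero, zero_sub, neg_mul]
    · exact rel_solve h.pK W 1 (h.wp 1)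
    · intro j hj
      exact (h.iw (j + 1) (by omega) (by omega)).1
    · intro j hj
      exact (h.iw (j + 1) (by omega) (by omega)).2
  have h2 : ∀ j, 1 ≤ j → W j ∈ OP k := by
    intro j
    induction j using Nat.strong_induction_on with
    | _ j ih =>
      intro hj1
      by_cases hj : j ≤ K + 1
      · have e : j - 1 + 1 = j := by omega
        have h3 := h1 (j - 1) (by omega)
        rwa [e] at h3
      · have h2 := rel_solve h.pK W (j - K) (h.wp (j - K))
        have e : K + (j - K) = j := by omega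
        rw [e] at h2
        rw [h2]
        refine Subring.sum_mem _ fun i hi => Subring.mul_mem _ (C_mem_OP (hq i)) (ih _ ?_ ?_)
        · have := Finset.mem_range.mp hi
          omega
        · omega
  refine ⟨h2, ?_⟩
  have h3 : dd (dd (W 0)) ∈ OP k := by
    rw [h.ww 0]
    exact Subring.mul_mem _ (Subring.neg_mem _ hY2) (h2 _ (by omega))
  intro n
  rcases n with _ | n
  · rw [coeff_dd]
    have := h.iw0
    simpa using this
  · have h4 := h3 n
    rw [coeff_dd] at h4
    exact mem_OO_of_mul_nat n h4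

end Pool.Agent.Work.MP_abe657_gt.Rev
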